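import Pool.Agent.Work.MP_055a27_an.Crit.Stmts2
import Pool.Agent.Work.MP_055a27_an.Nv.Stmts

/-!
# The shadow condition: definitions and statements of the items

`Sh μ U`: the integral of `U` over `[z - μ y, z + μ y]` is at most `C y exp (P[log U] (z, y))`.
Main result of this part: for weights which are positive a.e. and have an admissible logarithm,
`Sh μ U` implies `Star lam b p U` for all `lam < μ`, all `b` and all `p > 1`.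
-/

open MeasureTheory Set Filter Topology Complex Metric
open scoped ENNReal NNReal

namespace Pool.Agent.Work.MP_055a27_an.Cr3

open Crit (lg cc CC Pk hU)
open Nv (mx)

/-! ### Definitions -/

/-- A weight that is positive almost everywhere, with admissible logarithm. -/
def Wt (U : ℝ → ℝ) : Prop := IsWeight U ∧ (∀ᵐ x, 0 < U x) ∧ Admissible (lg U)

/-- The shadow condition with aperture `μ`. -/
def Sh (μ : ℝ) (U : ℝ → ℝ) : Prop := ∃ C : ℝ, 0 < C ∧ ∀ z y : ℝ, 0 < y →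
  ∫ t in Icc (z - μ * y) (z + μ * y), U t ≤ C * (y * Real.exp (poisson (lg U) z y))

/-- The average (up to the factor `2 la`) of the weight over the shadow of aperture `la`. -/
noncomputable def avg (la : ℝ) (U : ℝ → ℝ) (z y : ℝ) : ℝ :=
  (∫ t in Icc (z - la * y) (z + la * y), U t) / y

/-- The logarithm of the average. -/
noncomputable def LL (la : ℝ) (U : ℝ → ℝ) (z y : ℝ) : ℝ := Real.log (avg la U z y)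

/-- The difference of the Poisson integral of the logarithm and the logarithm of the average. -/
noncomputable def gg (la : ℝ) (U : ℝ → ℝ) (z y : ℝ) : ℝ := poisson (lg U) z y - LL la U z y

/-- The standing hypotheses. -/
def Hyp (la μ : ℝ) (U : ℝ → ℝ) : Prop := 0 < la ∧ la < μ ∧ Wt U ∧ Sh μ U

/-- A root: a point where `gg` is at most `m`, with `1 ≤ m`. -/
def Rt (la : ℝ) (U : ℝ → ℝ) (z y m : ℝ) : Prop := 0 < y ∧ 1 ≤ m ∧ gg la U z y ≤ m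

/-- The level set of the uncentred maximal function. -/
def OO (f : ℝ → ℝ≥0∞) (Λ : ℝ≥0∞) : Set ℝ :=
  {x | ∃ a c : ℝ, a < x ∧ x < c ∧ Λ * ENNReal.ofReal (c - a) < ∫⁻ t in Icc a c, f t}

/-- The truncated area integral over the part of the cone in `S`. -/
noncomputable def ALK (F : ℂ → ℂ) (lam : ℝ) (S : Set (ℝ × ℝ)) (m : ℕ) (x : ℝ) : ℝ≥0∞ :=
  ∫⁻ q in cone lam x ∩ S, gK F m q

/-- The estimate for the high part with the Poisson integral of a function `k`. -/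
def HX (p lam la ms : ℝ) (U : ℝ → ℝ) : Prop := ∃ C : ℝ≥0, ∀ k : ℝ → ℝ≥0∞, AEMeasurable k volume →
  ∫⁻ x, (∫⁻ q in cone lam x ∩ {q : ℝ × ℝ | ms ≤ gg la U q.1 q.2},
      ENNReal.ofReal ((gg la U q.1 q.2 / q.2) ^ 2 *
        Real.exp (-(2 * poisson (lg U) q.1 q.2 / p))) * (Pk k q.1 q.2) ^ 2) ^ (p / 2) *
      ENNReal.ofReal (U x) ≤ C * ∫⁻ x, (k x) ^ p

/-! ### Foundations -/

/-- 1 Bas: basic facts. -/
def StBas : Prop :=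
  (∀ (la : ℝ) (U : ℝ → ℝ) (z y : ℝ), 0 < la → 0 < y → Wt U → 0 < avg la U z y) ∧
  (∀ (la : ℝ) (U : ℝ → ℝ), 0 < la → Wt U →
    ContinuousOn (fun q : ℝ × ℝ => gg la U q.1 q.2) {q | 0 < q.2} ∧
    MeasurableSet {q : ℝ × ℝ | 0 < q.2} ∧
    ∀ m : ℝ, MeasurableSet {q : ℝ × ℝ | 0 < q.2 ∧ gg la U q.1 q.2 ≤ m} ∧
      MeasurableSet {q : ℝ × ℝ | 0 < q.2 ∧ m ≤ gg la U q.1 q.2}) ∧
  (∀ (la μ : ℝ) (U : ℝ → ℝ), Hyp la μ U → ∃ C : ℝ, 1 ≤ C ∧ ∀ z y z' y' : ℝ, 0 < y → 0 < y' →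
    |z' - z| + la * y ≤ μ * y' → LL la U z y ≤ poisson (lg U) z' y' + Real.log (y' / y) + C)

/-- 2 Sh1: the Carleson condition implies the shadow condition; monotonicity. -/
def StSh1 : Prop :=
  (∀ (μ : ℝ) (U : ℝ → ℝ), 0 < μ → IsWeight U → CC μ U → Sh μ U) ∧
  (∀ (μ μ' : ℝ) (U : ℝ → ℝ), 0 < μ' → μ' ≤ μ → IsWeight U → Sh μ U → Sh μ' U)

/-- 3 Har: the Harnack inequality for analytic functions with non-negative real part. -/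
def StHar : Prop := ∀ (G : ℂ → ℂ) (c : ℂ) (R : ℝ), 0 < R → DifferentiableOn ℂ G (ball c R) →
  (∀ w ∈ ball c R, 0 ≤ (G w).re) →
  (∀ w ∈ ball c (R / 2), (G c).re / 3 ≤ (G w).re ∧ (G w).re ≤ 3 * (G c).re ∧
    ‖deriv G w‖ ≤ 12 / R * (G c).re)

/-- 4 Jen: the Jensen inequalities. -/
def StJen : Prop := ∀ (U : ℝ → ℝ) (a c L : ℝ), Wt U → a < c →
  (∫⁻ t in Icc a c, ENNReal.ofReal (lg U t - L) ≤ ENNReal.ofReal ((c - a) *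
    Real.log (1 + Real.exp (-L) * ((∫ t in Icc a c, U t) / (c - a))))) ∧
  (∫ t in Icc a c, lg U t) / (c - a) ≤ Real.log ((∫ t in Icc a c, U t) / (c - a))

/-- 5 Gr: growth of the Poisson integral above a root. -/
def StGr : Prop := ∀ (la μ : ℝ) (U : ℝ → ℝ), Hyp la μ U → ∃ (C : ℝ) (N : ℕ), 1 ≤ C ∧
  ∀ z y m z' y' : ℝ, Rt la U z y m → y ≤ y' → |z' - z| ≤ μ / 2 * (y' - y) →
    |poisson (lg U) z' y' - LL la U z y| ≤ C * m * (y' / y) ^ N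

/-- 6 Gd: bounds near a root. -/
def StGd : Prop := ∀ (la μ : ℝ) (U : ℝ → ℝ), Hyp la μ U → ∃ C ρ : ℝ, 1 ≤ C ∧ 0 < ρ ∧ ρ ≤ 1 / 2 ∧
  ∀ z y m : ℝ, Rt la U z y m → ∀ w : ℂ, ‖w - (z + y * I)‖ ≤ ρ * y →
    ‖dschw (lg U) w‖ ≤ C * m / y ∧ |(schw (lg U) w).re - LL la U z y| ≤ C * m

/-- 7 KI: partial fractions. -/
def StKI : Prop := ∀ (n : ℕ) (K : ℝ), 1 ≤ K → ∃ C : ℝ, 1 ≤ C ∧
  (∃ β : ℕ → ℝ, (∀ j, |β j| ≤ C) ∧ ∀ s : ℝ, 0 ≤ s →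
    ∏ j ∈ Finset.range (n + 1), (1 / (s + ((j : ℝ) + 1) ^ 2)) =
      ∑ j ∈ Finset.range (n + 1), β j / (s + ((j : ℝ) + 1) ^ 2)) ∧
  ∀ u : ℝ, 0 ≤ u → u ≤ K ^ 2 / 2 → ∃ b : ℕ → ℝ, (∀ j, |b j| ≤ C) ∧
    ∀ s : ℝ, 0 ≤ s → 0 < s + u →
      1 / (s + u) = (∏ j ∈ Finset.range (n + 1),
        (((K * ((j : ℝ) + 1)) ^ 2 - u) / (s + (K * ((j : ℝ) + 1)) ^ 2))) / (s + u) +
        ∑ j ∈ Finset.range (n + 1), b j / (s + (K * ((j : ℝ) + 1)) ^ 2)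

/-- 8 LS: weighted `L^1` bound for the logarithm above a root. -/
def StLS : Prop := ∀ (la μ : ℝ) (U : ℝ → ℝ), Hyp la μ U → ∃ n0 : ℕ, ∀ n : ℕ, n0 ≤ n →
  ∃ C : ℝ, 1 ≤ C ∧ ∀ z y m : ℝ, Rt la U z y m →
    ∫⁻ t, ENNReal.ofReal (|lg U t - LL la U z y| *
      (y ^ (2 * n + 1) / ((t - z) ^ 2 + y ^ 2) ^ (n + 1))) ≤ ENNReal.ofReal (C * m)

/-- 9 Rep: representation of the Poisson integral by a kernel with fast decay. -/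
def StRep : Prop := ∀ (la μ : ℝ) (U : ℝ → ℝ), Hyp la μ U → ∀ (R K : ℝ) (n : ℕ), 0 ≤ R → 1 ≤ K →
  ∃ C : ℝ, 1 ≤ C ∧ ∀ z0 y0 m η : ℝ, Rt la U z0 y0 m → 0 < η → η ≤ K * y0 →
    ∃ κ : ℝ → ℝ, Continuous κ ∧
      (∀ s : ℝ, η / (s ^ 2 + η ^ 2) * (1 / (1 + (s / y0) ^ 2)) ^ (n + 1) ≤ C * κ s ∧
        κ s ≤ C * (η / (s ^ 2 + η ^ 2) * (1 / (1 + (s / y0) ^ 2)) ^ (n + 1))) ∧
      ∀ x a : ℝ, |x - z0| ≤ R * y0 →
        Integrable (fun t => (lg U t - a) * κ (x - t)) volume ∧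
        |poisson (lg U) x η - a - ∫ t, (lg U t - a) * κ (x - t)| ≤
          C * (η / y0) * (m + |a - LL la U z0 y0|)

/-- 10 WT: the weak type estimate. -/
def StWT : Prop := ∀ (la μ : ℝ) (U : ℝ → ℝ), Hyp la μ U → ∀ R K β : ℝ, 0 < R → 1 ≤ K → 0 < β →
  ∃ C : ℝ, 1 ≤ C ∧ ∀ z0 y0 m A : ℝ, Rt la U z0 y0 m → C * m ≤ A →
    volume {x : ℝ | |x - z0| ≤ R * y0 ∧ ∃ z η : ℝ, 0 < η ∧ η ≤ K * y0 ∧ |x - z| < β * η ∧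
      A < |poisson (lg U) z η - LL la U z0 y0|} ≤ ENNReal.ofReal (C * m * y0 / A)

/-! ### The Carleson measure of the high points -/

/-- 11 SawT: the sawtooth estimate of bounded height. -/
def StSawT : Prop := ∀ lam b : ℝ, 0 < lam → lam < b → ∃ K M : ℝ, 0 < K ∧ 1 ≤ M ∧
  ∀ F : ℂ → ℂ, DifferentiableOn ℂ F uhp → ∀ (E : Set ℝ) (x r T σ : ℝ), E.Nonempty → 0 < r →
    0 < T → 0 ≤ σ → E ⊆ Icc (x - r) (x + r) →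
    (∀ z y : ℝ, 0 < y → y ≤ M * T → infDist z E < b * y → |(F (z + y * I)).re| ≤ σ) →
    ∫⁻ q in {q : ℝ × ℝ | 0 < q.2 ∧ q.2 < T ∧ infDist q.1 E ≤ lam * q.2},
      ENNReal.ofReal (q.2 * gsq F q) ≤ ENNReal.ofReal (K * σ ^ 2 * (r + T))

/-- 12 Vpp: growth in the vertical direction above a high point. -/
def StVpp : Prop := ∀ (la μ : ℝ) (U : ℝ → ℝ), Hyp la μ U → ∀ R : ℝ, 0 ≤ R → ∃ K : ℝ, 2 ≤ K ∧
  ∀ B : ℝ, 1 ≤ B → ∃ ms : ℝ, 1 ≤ ms ∧ ∀ z0 y0 m x y : ℝ, Rt la U z0 y0 m → |x - z0| ≤ R * y0 →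
    0 < y → m * y ≤ y0 →
    (∀ t : ℝ, y ≤ t → t ≤ K * y0 → |poisson (lg U) x t - LL la U z0 y0| ≤ B * m) →
    ms ≤ gg la U x y →
    ∃ y' : ℝ, 2 * y ≤ y' ∧ y' ≤ K * y0 ∧
      Real.log (y' / y) ≤ poisson (lg U) x y' - poisson (lg U) x y

/-- 13 CS: Cauchy Schwarz on a vertical segment. -/
def StCS : Prop := ∀ (v : ℝ → ℝ) (x y y' : ℝ), Admissible v → 0 < y → y < y' →
  Real.log (y' / y) ≤ poisson v x y' - poisson v x y →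
  ∫⁻ t in Ioc y y', ENNReal.ofReal (1 / t) ≤
    ∫⁻ t in Ioc y y', ENNReal.ofReal (t * gsq (schw v) (x, t))

/-- 14 Sun: the covering argument on a half line. -/
def StSun : Prop := ∀ (H : Set ℝ) (D : ℝ → ℝ≥0∞) (δ Y Y' : ℝ), 0 < δ → MeasurableSet H →
  Measurable D → H ⊆ Ioc δ Y →
  (∀ y ∈ H, ∃ y', 2 * y ≤ y' ∧ y' ≤ Y' ∧
    ∫⁻ t in Ioc y y', ENNReal.ofReal (1 / t) ≤ ∫⁻ t in Ioc y y', D t) →
  ∫⁻ t in H, ENNReal.ofReal (1 / t) ≤ ∫⁻ t in Ioc δ Y', D t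

/-- 15 Saw1: the high points of a sawtooth region above the good set of a root. -/
def StSaw1 : Prop := ∀ (la μ : ℝ) (U : ℝ → ℝ), Hyp la μ U → ∃ K : ℝ, 1 ≤ K ∧ ∀ B : ℝ, 1 ≤ B →
  ∃ ms C : ℝ, 1 ≤ ms ∧ 1 ≤ C ∧ ∀ (a s z0 y0 m : ℝ) (G : Set ℝ), 0 < s → z0 ∈ Icc a (a + s) →
    s / 2 ≤ y0 → y0 ≤ s → Rt la U z0 y0 m → G ⊆ Icc a (a + s) →
    (∀ x ∈ G, ∀ z η : ℝ, 0 < η → η ≤ K * y0 → |x - z| < 2 * η →
      |poisson (lg U) z η - LL la U z0 y0| ≤ B * m) →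
    ∫⁻ q in {q : ℝ × ℝ | q.1 ∈ Icc a (a + s) ∧ 0 < q.2 ∧ q.2 ≤ s ∧
      (∃ x' ∈ G, |q.1 - x'| ≤ q.2) ∧ ms ≤ gg la U q.1 q.2}, ENNReal.ofReal (1 / q.2) ≤
        ENNReal.ofReal (C * m ^ 2 * s)

/-- 16 Stop: the stopping time induction. -/
def StStop : Prop := ∀ (Φ : ℝ → ℝ → ℝ≥0∞) (δ : ℝ) (C : ℝ≥0), 0 < δ →
  (∀ a s, s ≤ δ → Φ a s = 0) →
  (∀ a s, δ < s → Φ a s ≤ Φ a (s / 2) + Φ (a + s / 2) (s / 2) ∨
    ∃ O : Set ℝ, IsOpen O ∧ volume (O ∩ Ioo a (a + s)) ≤ ENNReal.ofReal (s / 2) ∧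
      ∀ (ι : Type) (_ : Countable ι) (α γ : ι → ℝ), (∀ i, α i < γ i) →
        O ∩ Ioo a (a + s) = ⋃ i, Ioo (α i) (γ i) →
        (∀ i, ∃ x' ∈ Ioo a (a + s), x' ∉ O ∧ ∀ x ∈ Ioo (α i) (γ i), |x - x'| ≤ γ i - α i) →
        Φ a s ≤ C * ENNReal.ofReal s + ∑' i, Φ (α i) (γ i - α i)) →
  ∀ a s, Φ a s ≤ 2 * C * ENNReal.ofReal s

/-- 17 HPm: Carleson bound for the points with `ms ≤ gg ≤ m`. -/
def StHPm : Prop := ∀ (la μ : ℝ) (U : ℝ → ℝ), Hyp la μ U → ∃ ms C : ℝ, 1 ≤ ms ∧ 1 ≤ C ∧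
  ∀ m a s : ℝ, 1 ≤ m → 0 < s →
    ∫⁻ q in {q : ℝ × ℝ | q.1 ∈ Icc a (a + s) ∧ 0 < q.2 ∧ q.2 ≤ s ∧ ms ≤ gg la U q.1 q.2 ∧
      gg la U q.1 q.2 ≤ m}, ENNReal.ofReal (1 / q.2) ≤ ENNReal.ofReal (C * m ^ 2 * s)

/-- 18 HP: Carleson bound for the high points. -/
def StHP : Prop := ∀ (la μ : ℝ) (U : ℝ → ℝ), Hyp la μ U → ∃ ms : ℝ, 1 ≤ ms ∧ ∀ c : ℝ, 0 < c →
  ∃ C : ℝ, 1 ≤ C ∧ ∀ a s : ℝ, 0 < s →
    ∫⁻ q in {q : ℝ × ℝ | q.1 ∈ Icc a (a + s) ∧ 0 < q.2 ∧ q.2 ≤ s ∧ ms ≤ gg la U q.1 q.2},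
      ENNReal.ofReal ((gg la U q.1 q.2) ^ 2 * Real.exp (-(c * gg la U q.1 q.2)) / q.2) ≤
        ENNReal.ofReal (C * s)

/-- 19 CE: the Carleson embedding. -/
def StCE : Prop := ∀ (w : ℝ × ℝ → ℝ≥0∞) (C : ℝ≥0) (α : ℝ), 0 < α → Measurable w →
  (∀ a s : ℝ, 0 < s → ∫⁻ q in Icc a (a + s) ×ˢ Ioc 0 s, w q ≤ C * ENNReal.ofReal s) →
  ∃ C' : ℝ≥0, ∀ H : ℝ × ℝ → ℝ≥0∞, Measurable H →
    ∫⁻ q in {q : ℝ × ℝ | 0 < q.2}, H q * w q ≤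
      C' * ∫⁻ x, ⨆ (z : ℝ) (y : ℝ) (_ : 0 < y ∧ |x - z| < α * y), H (z, y)

/-! ### Reverse Hölder inequality -/

/-- 20 CZa: the level sets of the uncentred maximal function. -/
def StCZa : Prop := ∀ (f : ℝ → ℝ≥0∞), Measurable f → ∫⁻ t, f t ≠ ∞ → ∀ Λ : ℝ≥0∞, Λ ≠ 0 →
  Λ ≠ ∞ → IsOpen (OO f Λ) ∧ volume (OO f Λ) ≤ 5 / Λ * ∫⁻ t, f t ∧
    (∀ a c x : ℝ, a < c → a ≤ x → x ≤ c → x ∉ OO f Λ →
      ∫⁻ t in Icc a c, f t ≤ Λ * ENNReal.ofReal (c - a)) ∧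
    (∀ a c : ℝ, a < c → Ioo a c ⊆ OO f Λ → a ∉ OO f Λ → c ∉ OO f Λ →
      Λ / 5 * ENNReal.ofReal (c - a) ≤ ∫⁻ t in Icc a c, f t) ∧
    (∀ᵐ x, x ∉ OO f Λ → f x ≤ Λ)

/-- 21 CZb: the upper bound at a stopping interval. -/
def StCZb : Prop := ∀ (la μ : ℝ) (U : ℝ → ℝ), Hyp la μ U → ∀ c1 : ℝ, 0 < c1 → ∃ C : ℝ, 1 ≤ C ∧
  ∀ z y x r a : ℝ, 0 < y → 0 < r → |x - z| ≤ la * y → poisson (lg U) z y ≤ a →
    LL la U z y ≤ a → r ≤ 3 * y * Real.exp (LL la U z y - a) →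
    (∀ ρ : ℝ, r ≤ ρ → ρ ≤ c1 * y → ∫ t in Icc (x - ρ) (x + ρ), U t ≤ 2 * ρ * Real.exp a) →
    poisson (lg U) x (r / la) ≤ a + C

/-- 22 CZ: comparison of the weight and its level sets. -/
def StCZ : Prop := ∀ (lam la μ : ℝ) (U : ℝ → ℝ), 0 < lam → lam < la → Hyp la μ U →
  ∃ C0 C1 γ : ℝ, 1 ≤ C0 ∧ 1 ≤ C1 ∧ 0 < γ ∧ γ ≤ 1 ∧ ∀ z y : ℝ, 0 < y → ∃ a' c' : ℝ,
    z - la * y ≤ a' ∧ a' ≤ z - lam * y ∧ z + lam * y ≤ c' ∧ c' ≤ z + la * y ∧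
    ∀ Λ : ℝ, C0 * Real.exp (poisson (lg U) z y) ≤ Λ →
      ∫⁻ x in Ioo a' c' ∩ {x | Λ < U x}, ENNReal.ofReal (U x) ≤
        ENNReal.ofReal (C1 * Λ) * volume (Ioo a' c' ∩ {x | γ * Λ ≤ U x})

/-- 23 RH: the reverse Hölder inequality with the exponential of the Poisson integral. -/
def StRH : Prop := ∀ (lam μ : ℝ) (U : ℝ → ℝ), Hyp lam μ U → ∃ ε C : ℝ, 0 < ε ∧ 1 ≤ C ∧
  ∀ z y : ℝ, 0 < y → ∫⁻ t in Icc (z - lam * y) (z + lam * y), (ENNReal.ofReal (U t)) ^ (1 + ε) ≤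
    ENNReal.ofReal (C * y * Real.exp ((1 + ε) * poisson (lg U) z y))

/-- 24 Ainf: the `A_∞` inequality at low points. -/
def StAinf : Prop := ∀ (la μ R m0 : ℝ) (U : ℝ → ℝ), Hyp la μ U → 0 < R → 1 ≤ m0 →
  ∃ C ε : ℝ, 0 < C ∧ 0 < ε ∧ ∀ z y : ℝ, 0 < y → gg la U z y ≤ m0 →
    ∀ E : Set ℝ, MeasurableSet E → E ⊆ Icc (z - R * y) (z + R * y) →
      wm U E ≤ ENNReal.ofReal (C * (volume.real E / y) ^ ε) *
        wm U (Icc (z - la * y) (z + la * y))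

/-- 25 Int: interpolation between the reverse Hölder inequality and the average. -/
def StInt : Prop := ∀ (la μ : ℝ) (U : ℝ → ℝ), Hyp la μ U → ∃ ε0 : ℝ, 0 < ε0 ∧
  ∀ ε : ℝ, 0 < ε → ε ≤ ε0 → ∃ c C : ℝ, 0 < c ∧ 1 ≤ C ∧ ∀ z y : ℝ, 0 < y →
    ∫⁻ t in Icc (z - la * y) (z + la * y),
      (ENNReal.ofReal (U t * Real.exp (-poisson (lg U) z y))) ^ (1 + ε) ≤
        ENNReal.ofReal (C * y * Real.exp (-(c * gg la U z y)))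

/-! ### From the shadow condition to the Carleson condition -/

/-- 26 CCl: the supremum over the low points. -/
def StCCl : Prop := ∀ (la μ μ' m0 : ℝ) (U : ℝ → ℝ), Hyp la μ U → 0 < μ' → 1 ≤ m0 →
  ∃ C : ℝ≥0, ∀ a s : ℝ, 0 < s →
    ∫⁻ x in Icc a (a + s), (⨆ (z : ℝ) (y : ℝ) (_ : 0 < y ∧ y ≤ s ∧ |x - z| < μ' * y ∧
      gg la U z y ≤ m0), ENNReal.ofReal (Real.exp (-poisson (lg U) z y))) *
        ENNReal.ofReal (U x) ≤ C * ENNReal.ofReal s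

/-- 27 CCh: the supremum over the high points. -/
def StCCh : Prop := ∀ (la' la μ μ' : ℝ) (U : ℝ → ℝ), 0 < μ' → μ' < la' → la' < la →
  Hyp la μ U → ∃ m0 : ℝ, 1 ≤ m0 ∧ ∃ C : ℝ≥0, ∀ a s : ℝ, 0 < s →
    ∫⁻ x in Icc a (a + s), (⨆ (z : ℝ) (y : ℝ) (_ : 0 < y ∧ y ≤ s ∧ |x - z| < μ' * y ∧
      m0 < gg la U z y), ENNReal.ofReal (Real.exp (-poisson (lg U) z y))) *
        ENNReal.ofReal (U x) ≤ C * ENNReal.ofReal s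

/-- 28 CC3: the shadow condition implies the Carleson condition with smaller aperture. -/
def StCC3 : Prop := ∀ (μ' μ : ℝ) (U : ℝ → ℝ), 0 < μ' → μ' < μ → Wt U → Sh μ U → CC μ' U

/-! ### The low part -/

/-- 29 GL: the good lambda inequality for the low part. -/
def StGL : Prop := ∀ lam la b C ε : ℝ, 0 < lam → lam < la → lam < b → 0 < C → 0 < ε →
  ∃ K c1 : ℝ, 0 < K ∧ 0 < c1 ∧ ∀ (ν : Measure ℝ) (S : Set (ℝ × ℝ)), MeasurableSet S →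
    (∀ q ∈ S, 0 < q.2 → ∀ E : Set ℝ, MeasurableSet E →
      E ⊆ Icc (q.1 - 5 * la * q.2) (q.1 + 5 * la * q.2) →
      ν E ≤ ENNReal.ofReal (C * (volume.real E / q.2) ^ ε) *
        ν (Icc (q.1 - la * q.2) (q.1 + la * q.2))) →
    ∀ F : ℂ → ℂ, DifferentiableOn ℂ F uhp → ∀ (m : ℕ) (s γ : ℝ), 0 < s → 0 < γ → γ ≤ c1 →
      ν ({t | ENNReal.ofReal (4 * s ^ 2) < ALK F lam S m t} ∩ vset F b (γ * s)) ≤
        ENNReal.ofReal (C * (K * γ ^ 2) ^ ε) *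
          ν {t | ENNReal.ofReal (s ^ 2) < ALK F lam S m t}

/-- 30 Abs: integration of the good lambda inequality. -/
def StAbs : Prop := ∀ (lam b p : ℝ), 0 < lam → 0 < b → 0 < p → ∀ (ν : Measure ℝ) (_ : SFinite ν)
  (S : Set (ℝ × ℝ)), MeasurableSet S → (∀ a c : ℝ, ν (Icc a c) < ∞) →
  (∀ δ : ℝ, 0 < δ → ∃ γ : ℝ, 0 < γ ∧ ∀ F : ℂ → ℂ, DifferentiableOn ℂ F uhp →
    ∀ (m : ℕ) (s : ℝ), 0 < s →
      ν ({t | ENNReal.ofReal (4 * s ^ 2) < ALK F lam S m t} ∩ vset F b (γ * s)) ≤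
        ENNReal.ofReal δ * ν {t | ENNReal.ofReal (s ^ 2) < ALK F lam S m t}) →
  ∃ A : ℝ≥0, ∀ F : ℂ → ℂ, DifferentiableOn ℂ F uhp → ∀ m : ℕ,
    ∫⁻ t, ((ALK F lam S m t) ^ (1 / 2 : ℝ)) ^ p ∂ν ≤ A * ∫⁻ t, (NT F b t) ^ p ∂ν

/-- 31 LowP: the low part of the area function. -/
def StLowP : Prop := ∀ (lam la μ b p m0 : ℝ) (U : ℝ → ℝ), 0 < lam → lam < la → lam < b →
  0 < p → 1 ≤ m0 → Hyp la μ U → ∃ C : ℝ≥0, ∀ f : ℝ → ℝ, Admissible f →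
    ∫⁻ x, (∫⁻ q in cone lam x ∩ {q : ℝ × ℝ | gg la U q.1 q.2 ≤ m0},
      ENNReal.ofReal (gradSq f q.1 q.2)) ^ (p / 2) * ENNReal.ofReal (U x) ≤
      C * ∫⁻ x, (ntMax b f x) ^ p * ENNReal.ofReal (U x)

/-! ### The high part -/

/-- 32 HG: the gradient at the high points. -/
def StHG : Prop := ∀ (la μ b p : ℝ) (U : ℝ → ℝ), Hyp la μ U → 0 < b → 0 < p → ∃ C : ℝ, 1 ≤ C ∧
  ∀ f : ℝ → ℝ, Admissible f → ∀ s y : ℝ, 0 < y → 1 ≤ gg la U s y →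
    ENNReal.ofReal ‖dschw f (s + y * I)‖ ≤
      ENNReal.ofReal (C * (gg la U s y / y) * Real.exp (-(poisson (lg U) s y / p))) *
        Pk (hU U b p f) s y

/-- 33 H2: the high part for `1 < p ≤ 2`. -/
def StH2 : Prop := ∀ (lam la μ p : ℝ) (U : ℝ → ℝ), 0 < lam → lam < la → Hyp la μ U → 1 < p →
  p ≤ 2 → ∃ ms : ℝ, 1 ≤ ms ∧ HX p lam la ms U

/-- 34 H3: the high part for `2 < p`. -/
def StH3 : Prop := ∀ (lam la μ p : ℝ) (U : ℝ → ℝ), 0 < lam → lam < la → Hyp la μ U → 2 < p →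
  ∃ ms : ℝ, 1 ≤ ms ∧ HX p lam la ms U

/-- 35 HighP: the high part of the area function. -/
def StHighP : Prop := ∀ (lam la μ b p : ℝ) (U : ℝ → ℝ), 0 < lam → lam < la → Hyp la μ U →
  0 < b → 1 < p → ∃ m0 : ℝ, 1 ≤ m0 ∧ ∃ C : ℝ≥0, ∀ f : ℝ → ℝ, Admissible f →
    ∫⁻ x, (∫⁻ q in cone lam x ∩ {q : ℝ × ℝ | m0 ≤ gg la U q.1 q.2},
      ENNReal.ofReal (gradSq f q.1 q.2)) ^ (p / 2) * ENNReal.ofReal (U x) ≤
      C * ∫⁻ x, (ntMax b f x) ^ p * ENNReal.ofReal (U x)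

/-- 36 Suff3: sufficiency of the shadow condition. -/
def StSuff3 : Prop := ∀ (lam μ b p : ℝ) (U : ℝ → ℝ), 0 < lam → lam < μ → 0 < b → 1 < p →
  Wt U → Sh μ U → Star lam b p U

end Pool.Agent.Work.MP_055a27_an.Cr3
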