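import Pool.Agent.Work.MP_055a27_an.Cr3.Stmts

/-!
# Item 27 of the part Cr3: the supremum over the high points
-/

open MeasureTheory Set Filter Topology Complex Metric
open scoped ENNReal NNReal

namespace Pool.Agent.Work.MP_055a27_an.Cr3

open Crit (lg cc CC Pk hU)
open Nv (mx)

namespace CCh

lemma poisson_contOn {f : ℝ → ℝ} (hf : Admissible f) :
    ContinuousOn (fun q : ℝ × ℝ => poisson f q.1 q.2) {q | 0 < q.2} := by
  have h1 : ContinuousOn (fun q : ℝ × ℝ => (schw f ((q.1 : ℂ) + q.2 * I)).re)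
      {q : ℝ × ℝ | 0 < q.2} := by
    apply Complex.continuous_re.comp_continuousOn
    intro q hq
    have hw : 0 < ((q.1 : ℂ) + q.2 * I).im := by simpa using hq
    have h2 := (hasDerivAt_schw hf hw).continuousAt
    have h3 : ContinuousAt (fun q : ℝ × ℝ => ((q.1 : ℂ) + q.2 * I)) q := by fun_prop
    have h4 : ContinuousAt (fun q : ℝ × ℝ => schw f ((q.1 : ℂ) + q.2 * I)) q :=
      ContinuousAt.comp (g := schw f) (f := fun q : ℝ × ℝ => ((q.1 : ℂ) + q.2 * I)) h2 h3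
    exact h4.continuousWithinAt
  exact h1.congr (fun q hq => poisson_eq_re hf hq)

/-- The Poisson integral varies little on a small square. -/
lemma poisson_sub {f : ℝ → ℝ} (hf : Admissible f) {z y B ρ : ℝ} (hy : 0 < y) (hρ : 0 < ρ)
    (hρ1 : ρ ≤ 1 / 2) (hB : ∀ w : ℂ, ‖w - (z + y * I)‖ ≤ ρ * y → ‖dschw f w‖ ≤ B)
    {x t δ : ℝ} (hx : |x - z| ≤ δ) (ht : |t - y| ≤ δ) (hδ : 2 * δ ≤ ρ * y) :
    |poisson f x t - poisson f z y| ≤ B * (2 * δ) := by
  have hρy : ρ * y ≤ 1 / 2 * y := mul_le_mul_of_nonneg_right hρ1 hy.le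
  have ht0 : 0 < t := by
    have h1 := (abs_le.mp ht).1
    linarith
  have hB0 : 0 ≤ B := by
    have h1 := hB (z + y * I) (by simp only [sub_self, norm_zero]; positivity)
    exact le_trans (norm_nonneg _) h1
  have hn : ‖((x : ℂ) + t * I) - (z + y * I)‖ ≤ 2 * δ := by
    have h1 : ((x : ℂ) + t * I) - (z + y * I) = ((x - z : ℝ) : ℂ) + ((t - y : ℝ) : ℂ) * I := by
      push_cast; ring
    rw [h1]
    have h2 : ‖((x - z : ℝ) : ℂ) + ((t - y : ℝ) : ℂ) * I‖ ≤ |x - z| + |t - y| := by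
      refine le_trans (norm_add_le _ _) ?_
      rw [norm_mul, Complex.norm_I, mul_one, Complex.norm_real, Complex.norm_real,
        Real.norm_eq_abs, Real.norm_eq_abs]
    linarith
  have him : ∀ w ∈ closedBall ((z : ℂ) + y * I) (ρ * y), 0 < w.im := by
    intro w hw
    rw [mem_closedBall, dist_eq_norm] at hw
    have h1 : |(w - ((z : ℂ) + y * I)).im| ≤ ρ * y := le_trans (Complex.abs_im_le_norm _) hw
    have h2 : (w - ((z : ℂ) + y * I)).im = w.im - y := by simp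
    rw [h2] at h1
    have h3 := (abs_le.mp h1).1
    linarith
  have hmv := Convex.norm_image_sub_le_of_norm_hasDerivWithin_le (f := schw f) (f' := dschw f)
    (C := B) (s := closedBall ((z : ℂ) + y * I) (ρ * y)) (x := (z : ℂ) + y * I)
    (y := (x : ℂ) + t * I)
    (fun w hw => (hasDerivAt_schw hf (him w hw)).hasDerivWithinAt)
    (fun w hw => hB w (by rw [mem_closedBall, dist_eq_norm] at hw; exact hw))
    (convex_closedBall _ _) (mem_closedBall_self (by positivity))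
    (by rw [mem_closedBall, dist_eq_norm]; linarith)
  rw [poisson_eq_re hf hy, poisson_eq_re hf ht0]
  have h4 : (schw f (x + t * I)).re - (schw f (z + y * I)).re =
      (schw f (x + t * I) - schw f (z + y * I)).re := by simp
  rw [h4]
  refine le_trans (Complex.abs_re_le_norm _) (le_trans hmv ?_)
  exact mul_le_mul_of_nonneg_left hn hB0

lemma avg_le {U : ℝ → ℝ} (hU : IsWeight U) {la la' z y x t : ℝ} (hy : 0 < y) (ht : y / 2 ≤ t)
    (hl : z - la * y ≤ x - la' * t) (hr : x + la' * t ≤ z + la * y) :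
    avg la' U x t ≤ 2 * avg la U z y := by
  unfold avg
  have h1 : ∫ s in Icc (x - la' * t) (x + la' * t), U s ≤ ∫ s in Icc (z - la * y) (z + la * y), U s := by
    apply setIntegral_mono_set
    · exact hU.2.integrableOn_isCompact isCompact_Icc
    · exact Eventually.of_forall fun s => hU.1 s
    · exact (Icc_subset_Icc hl hr).eventuallyLE
  have h0 : 0 ≤ ∫ s in Icc (z - la * y) (z + la * y), U s :=
    setIntegral_nonneg measurableSet_Icc fun s _ => hU.1 s
  have ht0 : 0 < t := by linarith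
  have h2 : 2 * ((∫ s in Icc (z - la * y) (z + la * y), U s) / y) =
      (∫ s in Icc (z - la * y) (z + la * y), U s) / (y / 2) := by
    field_simp
  rw [h2]
  exact div_le_div₀ h0 h1 (by positivity) ht

/-- The set of integration. -/
def SS (la' ms s : ℝ) (U : ℝ → ℝ) (x : ℝ) : Set (ℝ × ℝ) :=
  {q : ℝ × ℝ | (0 < q.2 ∧ ms ≤ gg la' U q.1 q.2) ∧ q.2 ≤ 2 * s ∧ |x - q.1| < la' * q.2}

/-- The integrand. -/
noncomputable def GG (la' : ℝ) (U : ℝ → ℝ) (q : ℝ × ℝ) : ℝ≥0∞ :=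
  ENNReal.ofReal ((gg la' U q.1 q.2) ^ 2 / q.2 ^ 2 * Real.exp (-poisson (lg U) q.1 q.2))

/-- The facts at the points of the small square. -/
lemma sq_facts (hBas : StBas) {la' la μ' C ρ ms r : ℝ} {U : ℝ → ℝ} (hW : Wt U) (hla' : 0 < la')
    (hla : 0 < la) (hr : 0 < r) (hrρ : r ≤ ρ) (hρ : ρ ≤ 1 / 2) (hr1 : r * (1 + la') ≤ la' - μ')
    (hr2 : r * (1 + la') ≤ la - la') (hC : 1 ≤ C) (hms : 1 ≤ ms)
    (hG : ∀ z y m : ℝ, Rt la U z y m → ∀ w : ℂ, ‖w - (z + y * I)‖ ≤ ρ * y →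
      ‖dschw (lg U) w‖ ≤ C * m / y)
    {z y s x m δ : ℝ} (hy : 0 < y) (hys : y ≤ s) (hx : |x - z| < μ' * y)
    (hmm : m = gg la U z y) (hm : 2 * (C + 1) + ms < m) (hδ : δ = r * y / (2 * m))
    {q : ℝ × ℝ} (hq : q ∈ Icc (z - δ) (z + δ) ×ˢ Icc (y - δ) (y + δ)) :
    q ∈ SS la' ms s U x ∧
      Real.exp (-poisson (lg U) z y) * (m / y) ^ 2 ≤ 16 * Real.exp C *
        ((gg la' U q.1 q.2) ^ 2 / q.2 ^ 2 * Real.exp (-poisson (lg U) q.1 q.2)) := by
  obtain ⟨⟨hq1, hq2⟩, ⟨hq3, hq4⟩⟩ := hq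
  have hm1 : 1 ≤ m := by linarith
  have hm0 : 0 < m := by linarith
  have hρ0 : 0 < ρ := lt_of_lt_of_le hr hrρ
  have hδ0 : 0 < δ := by rw [hδ]; positivity
  have hδm : 2 * δ * m = r * y := by rw [hδ]; field_simp
  have hδ1 : 2 * δ ≤ r * y := by
    rw [← hδm]
    have := mul_le_mul_of_nonneg_left hm1 (by positivity : 0 ≤ 2 * δ)
    linarith
  have hry : r * y ≤ ρ * y := mul_le_mul_of_nonneg_right hrρ hy.le
  have hρy : ρ * y ≤ 1 / 2 * y := mul_le_mul_of_nonneg_right hρ hy.le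
  have hrt : Rt la U z y m := ⟨hy, hm1, hmm.ge⟩
  have ha1 : |q.1 - z| ≤ δ := abs_le.mpr ⟨by linarith, by linarith⟩
  have ha2 : |q.2 - y| ≤ δ := abs_le.mpr ⟨by linarith, by linarith⟩
  have hP := poisson_sub hW.2.2 hy hρ0 hρ (hG z y m hrt) ha1 ha2 (by linarith)
  have hP2 : C * m / y * (2 * δ) = C * r := by
    rw [hδ]; field_simp
  rw [hP2] at hP
  have hr12 : r ≤ 1 / 2 := le_trans hrρ hρ
  have hCr : C * r ≤ C := by
    have := mul_le_mul_of_nonneg_left hr12 (by linarith : 0 ≤ C)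
    linarith
  have hP3 : |poisson (lg U) q.1 q.2 - poisson (lg U) z y| ≤ C := le_trans hP hCr
  obtain ⟨hP4, hP5⟩ := abs_le.mp hP3
  have hy2 : y / 2 ≤ q.2 := by linarith
  have hq20 : 0 < q.2 := by linarith
  -- geometry
  have hg1 : (1 + la') * δ ≤ (la - la') * y := by
    have h1 : (1 + la') * δ ≤ (1 + la') * (r * y) :=
      mul_le_mul_of_nonneg_left (by linarith) (by linarith)
    have h2 : r * (1 + la') * y ≤ (la - la') * y := mul_le_mul_of_nonneg_right hr2 hy.le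
    linarith
  have hg2 : (1 + la') * δ ≤ (la' - μ') * y := by
    have h1 : (1 + la') * δ ≤ (1 + la') * (r * y) :=
      mul_le_mul_of_nonneg_left (by linarith) (by linarith)
    have h2 : r * (1 + la') * y ≤ (la' - μ') * y := mul_le_mul_of_nonneg_right hr1 hy.le
    linarith
  have hl2 : la' * q.2 ≤ la' * (y + δ) := mul_le_mul_of_nonneg_left hq4 hla'.le
  have hl3 : la' * (y - δ) ≤ la' * q.2 := mul_le_mul_of_nonneg_left hq3 hla'.le
  have hav := avg_le (la := la) (la' := la') (z := z) (y := y) (x := q.1) (t := q.2) hW.1 hy hy2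
    (by linarith) (by linarith)
  have hap : 0 < avg la U z y := hBas.1 la U z y hla hy hW
  have hap' : 0 < avg la' U q.1 q.2 := hBas.1 la' U q.1 q.2 hla' hq20 hW
  have hLL : LL la' U q.1 q.2 ≤ LL la U z y + 1 := by
    unfold LL
    have h1 := Real.log_le_log hap' hav
    rw [Real.log_mul (by norm_num) hap.ne'] at h1
    have h2 := Real.log_two_lt_d9
    linarith
  have hgq : m - (C + 1) ≤ gg la' U q.1 q.2 := by
    have h1 : m = poisson (lg U) z y - LL la U z y := hmm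
    unfold gg
    linarith
  have hgm : m / 2 ≤ gg la' U q.1 q.2 := by linarith
  have hgs : ms ≤ gg la' U q.1 q.2 := by linarith
  refine ⟨⟨⟨hq20, hgs⟩, by linarith, ?_⟩, ?_⟩
  · have h1 : |x - q.1| ≤ |x - z| + |q.1 - z| := by
      have h2 : x - q.1 = (x - z) - (q.1 - z) := by ring
      rw [h2]
      exact abs_sub _ _
    linarith
  · have h1 : Real.exp (-poisson (lg U) z y) ≤
        Real.exp C * Real.exp (-poisson (lg U) q.1 q.2) := by
      rw [← Real.exp_add]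
      exact Real.exp_le_exp.mpr (by linarith)
    have h2 : m / y ≤ 4 * (gg la' U q.1 q.2 / q.2) := by
      have h3 : 4 * (gg la' U q.1 q.2 / q.2) = (4 * gg la' U q.1 q.2) / q.2 := by ring
      rw [h3, div_le_div_iff₀ hy hq20]
      have h4 : m * q.2 ≤ m * (2 * y) := mul_le_mul_of_nonneg_left (by linarith) hm0.le
      have h5 : m * (2 * y) ≤ 2 * gg la' U q.1 q.2 * (2 * y) :=
        mul_le_mul_of_nonneg_right (by linarith) (by linarith)
      linarith
    have h6 : (m / y) ^ 2 ≤ (4 * (gg la' U q.1 q.2 / q.2)) ^ 2 :=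
      pow_le_pow_left₀ (by positivity) h2 2
    calc Real.exp (-poisson (lg U) z y) * (m / y) ^ 2
        ≤ (Real.exp C * Real.exp (-poisson (lg U) q.1 q.2)) *
          (4 * (gg la' U q.1 q.2 / q.2)) ^ 2 := mul_le_mul h1 h6 (by positivity) (by positivity)
      _ = _ := by
        rw [mul_pow, div_pow]; ring

/-- The pointwise estimate. -/
lemma pw (hBas : StBas) {la' la μ' C ρ ms r : ℝ} {U : ℝ → ℝ} (hW : Wt U) (hla' : 0 < la')
    (hla : 0 < la) (hr : 0 < r) (hrρ : r ≤ ρ) (hρ : ρ ≤ 1 / 2) (hr1 : r * (1 + la') ≤ la' - μ')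
    (hr2 : r * (1 + la') ≤ la - la') (hC : 1 ≤ C) (hms : 1 ≤ ms)
    (hG : ∀ z y m : ℝ, Rt la U z y m → ∀ w : ℂ, ‖w - (z + y * I)‖ ≤ ρ * y →
      ‖dschw (lg U) w‖ ≤ C * m / y)
    {z y s x : ℝ} (hy : 0 < y) (hys : y ≤ s) (hx : |x - z| < μ' * y)
    (hm : 2 * (C + 1) + ms < gg la U z y) :
    ENNReal.ofReal (Real.exp (-poisson (lg U) z y)) ≤
      ENNReal.ofReal (16 * Real.exp C / r ^ 2) * ∫⁻ q in SS la' ms s U x, GG la' U q := by
  obtain ⟨m, hmm⟩ : ∃ m, m = gg la U z y := ⟨_, rfl⟩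
  obtain ⟨δ, hδ⟩ : ∃ δ, δ = r * y / (2 * m) := ⟨_, rfl⟩
  rw [← hmm] at hm
  have hm0 : 0 < m := by linarith
  have hδ0 : 0 < δ := by rw [hδ]; positivity
  have hsq := fun q hq => sq_facts hBas hW hla' hla hr hrρ hρ hr1 hr2 hC hms hG hy hys hx hmm hm
    hδ (q := q) hq
  obtain ⟨c, hc⟩ : ∃ c, c = Real.exp (-poisson (lg U) z y) * (m / y) ^ 2 / (16 * Real.exp C) :=
    ⟨_, rfl⟩
  have hc0 : 0 ≤ c := by rw [hc]; positivity
  have hm : MeasurableSet (Icc (z - δ) (z + δ) ×ˢ Icc (y - δ) (y + δ)) :=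
    measurableSet_Icc.prod measurableSet_Icc
  have hvol : volume (Icc (z - δ) (z + δ) ×ˢ Icc (y - δ) (y + δ)) =
      ENNReal.ofReal (2 * δ * (2 * δ)) := by
    rw [Measure.volume_eq_prod, Measure.prod_prod, Real.volume_Icc, Real.volume_Icc,
      ← ENNReal.ofReal_mul (by linarith)]
    congr 1
    ring
  have h1 : ENNReal.ofReal c * ENNReal.ofReal (2 * δ * (2 * δ)) ≤
      ∫⁻ q in SS la' ms s U x, GG la' U q := by
    calc ENNReal.ofReal c * ENNReal.ofReal (2 * δ * (2 * δ))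
        = ∫⁻ _q in Icc (z - δ) (z + δ) ×ˢ Icc (y - δ) (y + δ), ENNReal.ofReal c := by
          rw [setLIntegral_const, hvol]
      _ ≤ ∫⁻ q in Icc (z - δ) (z + δ) ×ˢ Icc (y - δ) (y + δ), GG la' U q := by
          refine setLIntegral_mono' hm fun q hq => ?_
          unfold GG
          apply ENNReal.ofReal_le_ofReal
          have h2 := (hsq q hq).2
          rw [hc, div_le_iff₀ (by positivity)]
          linarith
      _ ≤ _ := lintegral_mono_set fun q hq => (hsq q hq).1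
  calc ENNReal.ofReal (Real.exp (-poisson (lg U) z y))
      = ENNReal.ofReal (16 * Real.exp C / r ^ 2) * (ENNReal.ofReal c *
          ENNReal.ofReal (2 * δ * (2 * δ))) := by
        rw [← ENNReal.ofReal_mul hc0, ← ENNReal.ofReal_mul (by positivity)]
        congr 1
        rw [hc, hδ]
        have he := Real.exp_pos C
        field_simp
    _ ≤ _ := mul_le_mul_right h1 _

/-- The restriction of the integrand is measurable. -/
lemma meas_G (hBas : StBas) {la' ms s : ℝ} {U : ℝ → ℝ} (hW : Wt U) (hla' : 0 < la') :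
    Measurable (({q : ℝ × ℝ | (0 < q.2 ∧ ms ≤ gg la' U q.1 q.2) ∧ q.2 ≤ 2 * s}).indicator
      (GG la' U)) := by
  obtain ⟨hc, hm0, hm⟩ := hBas.2.1 la' U hla' hW
  have hS : MeasurableSet {q : ℝ × ℝ | (0 < q.2 ∧ ms ≤ gg la' U q.1 q.2) ∧ q.2 ≤ 2 * s} :=
    (hm ms).2.inter (measurableSet_le measurable_snd measurable_const)
  have hcG : ContinuousOn (fun q : ℝ × ℝ => (gg la' U q.1 q.2) ^ 2 / q.2 ^ 2 *
      Real.exp (-poisson (lg U) q.1 q.2)) {q | 0 < q.2} := by
    apply ContinuousOn.mul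
    · apply ContinuousOn.div (hc.pow 2) (by fun_prop)
      intro q hq
      have : (0 : ℝ) < q.2 := hq
      positivity
    · exact Real.continuous_exp.comp_continuousOn (poisson_contOn hW.2.2).neg
  have hcG2 : ContinuousOn (GG la' U) {q | 0 < q.2} :=
    ENNReal.continuous_ofReal.comp_continuousOn hcG
  have h1 : Measurable (({q : ℝ × ℝ | 0 < q.2}).indicator (GG la' U)) := by
    classical
    have h2 := hcG2.measurable_piecewise (g := fun _ : ℝ × ℝ => (0 : ℝ≥0∞)) continuousOn_const hm0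
    have h3 : ({q : ℝ × ℝ | 0 < q.2}).piecewise (GG la' U) (fun _ => (0 : ℝ≥0∞)) =
        ({q : ℝ × ℝ | 0 < q.2}).indicator (GG la' U) := by
      ext q
      by_cases hq : q ∈ {q : ℝ × ℝ | 0 < q.2}
      · simp [hq]
      · simp [hq]
    rw [← h3]
    exact h2
  have h2 : ({q : ℝ × ℝ | (0 < q.2 ∧ ms ≤ gg la' U q.1 q.2) ∧ q.2 ≤ 2 * s}).indicator
      (GG la' U) = ({q : ℝ × ℝ | (0 < q.2 ∧ ms ≤ gg la' U q.1 q.2) ∧ q.2 ≤ 2 * s}).indicator
      (({q : ℝ × ℝ | 0 < q.2}).indicator (GG la' U)) := by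
    rw [Set.indicator_indicator]
    congr 1
    ext q
    simp only [mem_ofPred_eq, mem_inter_iff]
    tauto
  rw [h2]
  exact h1.indicator hS

/-- The inner integral. -/
lemma inner_le (hBas : StBas) {la' : ℝ} {U : ℝ → ℝ} (hW : Wt U) (hla' : 0 < la')
    {q : ℝ × ℝ} (hq : 0 < q.2) :
    GG la' U q * wm U (Icc (q.1 - la' * q.2) (q.1 + la' * q.2)) =
      ENNReal.ofReal ((gg la' U q.1 q.2) ^ 2 * Real.exp (-(1 * gg la' U q.1 q.2)) / q.2) := by
  have hap' : 0 < avg la' U q.1 q.2 := hBas.1 la' U q.1 q.2 hla' hq hW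
  have h1 : wm U (Icc (q.1 - la' * q.2) (q.1 + la' * q.2)) =
      ENNReal.ofReal (q.2 * avg la' U q.1 q.2) := by
    have h2 := setIntegral_eq_wm hW.1 (measurableSet_Icc (a := q.1 - la' * q.2)
      (b := q.1 + la' * q.2))
    have h3 : q.2 * avg la' U q.1 q.2 =
        ∫ t in Icc (q.1 - la' * q.2) (q.1 + la' * q.2), U t := by
      unfold avg; field_simp
    rw [h3, h2, ENNReal.ofReal_toReal (wm_Icc_lt_top hW.1 _ _).ne]
  rw [h1]
  unfold GG
  rw [← ENNReal.ofReal_mul (by positivity)]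
  congr 1
  have h4 : Real.exp (-(1 * gg la' U q.1 q.2)) =
      Real.exp (-poisson (lg U) q.1 q.2) * avg la' U q.1 q.2 := by
    have h5 : -(1 * gg la' U q.1 q.2) =
        -poisson (lg U) q.1 q.2 + Real.log (avg la' U q.1 q.2) := by
      unfold gg LL; ring
    rw [h5, Real.exp_add, Real.exp_log hap']
  rw [h4]
  field_simp

/-- Tonelli. -/
lemma ton (hBas : StBas) {la' ms a s : ℝ} {U : ℝ → ℝ} (hW : Wt U) (hla' : 0 < la')
    (hs : 0 < s) :
    ∫⁻ x in Icc a (a + s), (∫⁻ q in SS la' ms s U x, GG la' U q) ∂(wm U) ≤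
      ∫⁻ q in {q : ℝ × ℝ | q.1 ∈ Icc (a - 2 * la' * s) (a - 2 * la' * s + (2 + 4 * la') * s) ∧
        0 < q.2 ∧ q.2 ≤ (2 + 4 * la') * s ∧ ms ≤ gg la' U q.1 q.2},
        ENNReal.ofReal ((gg la' U q.1 q.2) ^ 2 * Real.exp (-(1 * gg la' U q.1 q.2)) / q.2) := by
  obtain ⟨hc, hm0, hm⟩ := hBas.2.1 la' U hla' hW
  have hSm : ∀ x, MeasurableSet (SS la' ms s U x) := by
    intro x
    refine (hm ms).2.inter (MeasurableSet.inter
      (measurableSet_le measurable_snd measurable_const)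
      (measurableSet_lt (f := fun q : ℝ × ℝ => |x - q.1|) (g := fun q : ℝ × ℝ => la' * q.2)
        (by fun_prop) (by fun_prop)))
  obtain ⟨G1, hG1⟩ : ∃ G1, G1 = ({q : ℝ × ℝ | (0 < q.2 ∧ ms ≤ gg la' U q.1 q.2) ∧
      q.2 ≤ 2 * s}).indicator (GG la' U) := ⟨_, rfl⟩
  have hG1m : Measurable G1 := by rw [hG1]; exact meas_G hBas hW hla'
  obtain ⟨W, hWd⟩ : ∃ W : Set (ℝ × (ℝ × ℝ)), W = {v | |v.1 - v.2.1| < la' * v.2.2} := ⟨_, rfl⟩
  have hWm : MeasurableSet W := by
    rw [hWd]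
    exact measurableSet_lt (by fun_prop) (by fun_prop)
  have e1 : ∀ x, ∫⁻ q in SS la' ms s U x, GG la' U q =
      ∫⁻ q, W.indicator (fun v => G1 v.2) (x, q) := by
    intro x
    rw [← lintegral_indicator (hSm x)]
    apply lintegral_congr
    intro q
    by_cases h1 : |x - q.1| < la' * q.2
    · have h2 : (x, q) ∈ W := by rw [hWd]; exact h1
      rw [Set.indicator_of_mem h2, hG1]
      by_cases h3 : (0 < q.2 ∧ ms ≤ gg la' U q.1 q.2) ∧ q.2 ≤ 2 * s
      · have h4 : q ∈ SS la' ms s U x := ⟨h3.1, h3.2, h1⟩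
        rw [Set.indicator_of_mem h4]
        exact (Set.indicator_of_mem (s := {q : ℝ × ℝ | (0 < q.2 ∧ ms ≤ gg la' U q.1 q.2) ∧
          q.2 ≤ 2 * s}) h3 (GG la' U)).symm
      · have h4 : q ∉ SS la' ms s U x := fun h => h3 ⟨h.1, h.2.1⟩
        rw [Set.indicator_of_notMem h4]
        exact (Set.indicator_of_notMem (s := {q : ℝ × ℝ | (0 < q.2 ∧ ms ≤ gg la' U q.1 q.2) ∧
          q.2 ≤ 2 * s}) h3 (GG la' U)).symm
    · have h2 : (x, q) ∉ W := by rw [hWd]; exact h1
      have h4 : q ∉ SS la' ms s U x := fun h => h1 h.2.2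
      rw [Set.indicator_of_notMem h2, Set.indicator_of_notMem h4]
  simp only [e1]
  have hsf : SFinite (wm U) := by unfold wm; infer_instance
  have hmeas : Measurable (W.indicator (fun v : ℝ × (ℝ × ℝ) => G1 v.2)) :=
    (hG1m.comp measurable_snd).indicator hWm
  rw [lintegral_lintegral_swap (f := fun x q => W.indicator (fun v => G1 v.2) (x, q))
    hmeas.aemeasurable]
  have hT : MeasurableSet {q : ℝ × ℝ | q.1 ∈ Icc (a - 2 * la' * s)
      (a - 2 * la' * s + (2 + 4 * la') * s) ∧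
        0 < q.2 ∧ q.2 ≤ (2 + 4 * la') * s ∧ ms ≤ gg la' U q.1 q.2} := by
    have h1 : {q : ℝ × ℝ | q.1 ∈ Icc (a - 2 * la' * s) (a - 2 * la' * s + (2 + 4 * la') * s) ∧
        0 < q.2 ∧ q.2 ≤ (2 + 4 * la') * s ∧ ms ≤ gg la' U q.1 q.2} =
        {q : ℝ × ℝ | 0 < q.2 ∧ ms ≤ gg la' U q.1 q.2} ∩
          (Prod.fst ⁻¹' (Icc (a - 2 * la' * s) (a - 2 * la' * s + (2 + 4 * la') * s)) ∩
            {q | q.2 ≤ (2 + 4 * la') * s}) := by
      ext q
      simp only [mem_ofPred_eq, mem_inter_iff, mem_preimage]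
      tauto
    rw [h1]
    exact (hm ms).2.inter ((measurable_fst measurableSet_Icc).inter
      (measurableSet_le measurable_snd measurable_const))
  rw [← lintegral_indicator hT]
  apply lintegral_mono
  intro q
  show ∫⁻ x in Icc a (a + s), W.indicator (fun v => G1 v.2) (x, q) ∂(wm U) ≤ _
  by_cases h3 : (0 < q.2 ∧ ms ≤ gg la' U q.1 q.2) ∧ q.2 ≤ 2 * s
  · by_cases h4 : q.1 ∈ Icc (a - 2 * la' * s) (a - 2 * la' * s + (2 + 4 * la') * s)
    · rw [Set.indicator_of_mem (s := {q : ℝ × ℝ | q.1 ∈ Icc (a - 2 * la' * s)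
        (a - 2 * la' * s + (2 + 4 * la') * s) ∧ 0 < q.2 ∧ q.2 ≤ (2 + 4 * la') * s ∧
        ms ≤ gg la' U q.1 q.2}) ⟨h4, h3.1.1, by
          have : 0 ≤ la' * s := by positivity
          linarith [h3.2], h3.1.2⟩]
      rw [← inner_le hBas hW hla' h3.1.1]
      have h5 : G1 q = GG la' U q := by
        rw [hG1]
        exact Set.indicator_of_mem (s := {q : ℝ × ℝ | (0 < q.2 ∧ ms ≤ gg la' U q.1 q.2) ∧
          q.2 ≤ 2 * s}) h3 _
      calc ∫⁻ x in Icc a (a + s), W.indicator (fun v => G1 v.2) (x, q) ∂(wm U)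
          ≤ ∫⁻ x, W.indicator (fun v => G1 v.2) (x, q) ∂(wm U) :=
            setLIntegral_le_lintegral _ _
        _ ≤ ∫⁻ x, (Icc (q.1 - la' * q.2) (q.1 + la' * q.2)).indicator
              (fun _ => GG la' U q) x ∂(wm U) := by
            apply lintegral_mono
            intro x
            show W.indicator (fun v => G1 v.2) (x, q) ≤ _
            by_cases h6 : (x, q) ∈ W
            · have h7 : |x - q.1| < la' * q.2 := by rw [hWd] at h6; exact h6
              obtain ⟨h8, h9⟩ := abs_lt.mp h7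
              have h10 : x ∈ Icc (q.1 - la' * q.2) (q.1 + la' * q.2) :=
                ⟨by linarith, by linarith⟩
              rw [Set.indicator_of_mem h6, Set.indicator_of_mem (a := x)
                (s := Icc (q.1 - la' * q.2) (q.1 + la' * q.2)) h10]
              exact h5.le
            · rw [Set.indicator_of_notMem h6]
              exact zero_le
        _ = GG la' U q * wm U (Icc (q.1 - la' * q.2) (q.1 + la' * q.2)) := by
            rw [lintegral_indicator_const measurableSet_Icc]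
    · have h5 : ∫⁻ x in Icc a (a + s), W.indicator (fun v => G1 v.2) (x, q) ∂(wm U) = 0 := by
        rw [setLIntegral_congr_fun (g := fun _ => (0 : ℝ≥0∞)) measurableSet_Icc]
        · simp
        · intro x hx
          show W.indicator (fun v => G1 v.2) (x, q) = 0
          apply Set.indicator_of_notMem
          intro h6
          have h7 : |x - q.1| < la' * q.2 := by rw [hWd] at h6; exact h6
          obtain ⟨h8, h9⟩ := abs_lt.mp h7
          have h10 : la' * q.2 ≤ la' * (2 * s) := mul_le_mul_of_nonneg_left h3.2 hla'.le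
          obtain ⟨hx1, hx2⟩ := hx
          exact h4 ⟨by linarith, by linarith⟩
      rw [h5]
      exact zero_le
  · have h5 : ∀ x, W.indicator (fun v => G1 v.2) (x, q) = 0 := by
      intro x
      have h6 : G1 q = 0 := by
        rw [hG1]
        exact Set.indicator_of_notMem (s := {q : ℝ × ℝ | (0 < q.2 ∧ ms ≤ gg la' U q.1 q.2) ∧
          q.2 ≤ 2 * s}) h3 _
      by_cases h7 : (x, q) ∈ W
      · rw [Set.indicator_of_mem h7]
        exact h6
      · rw [Set.indicator_of_notMem h7]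
    simp only [h5, lintegral_zero]
    exact zero_le

end CCh

theorem stCCh (hBas : StBas) (hGd : StGd) (hHP : StHP) : StCCh := by
  intro la' la μ μ' U hμ' hμla' hla'la hHyp
  have hla' : 0 < la' := lt_trans hμ' hμla'
  obtain ⟨hla, hlaμ, hW, hSh⟩ := hHyp
  obtain ⟨C, ρ, hC, hρ0, hρ, hG⟩ := hGd la μ U ⟨hla, hlaμ, hW, hSh⟩
  obtain ⟨ms, hms, hP⟩ := hHP la' μ U ⟨hla', lt_trans hla'la hlaμ, hW, hSh⟩
  obtain ⟨C1, hC1, hP1⟩ := hP 1 one_pos
  obtain ⟨r, hr⟩ : ∃ r, r = min ρ (min ((la' - μ') / (1 + la')) ((la - la') / (1 + la'))) :=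
    ⟨_, rfl⟩
  have h1la : 0 < 1 + la' := by linarith
  have hr0 : 0 < r := by
    rw [hr]
    exact lt_min hρ0 (lt_min (div_pos (by linarith) h1la) (div_pos (by linarith) h1la))
  have hrρ : r ≤ ρ := by rw [hr]; exact min_le_left _ _
  have hr1 : r * (1 + la') ≤ la' - μ' := by
    have : r ≤ (la' - μ') / (1 + la') := by
      rw [hr]; exact le_trans (min_le_right _ _) (min_le_left _ _)
    rwa [le_div_iff₀ h1la] at this
  have hr2 : r * (1 + la') ≤ la - la' := by
    have : r ≤ (la - la') / (1 + la') := by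
      rw [hr]; exact le_trans (min_le_right _ _) (min_le_right _ _)
    rwa [le_div_iff₀ h1la] at this
  refine ⟨2 * (C + 1) + ms, by linarith,
    (16 * Real.exp C / r ^ 2 * (C1 * (2 + 4 * la'))).toNNReal, fun a s hs => ?_⟩
  have hK0 : 0 ≤ 16 * Real.exp C / r ^ 2 := by positivity
  have hsup : ∀ x, (⨆ (z : ℝ) (y : ℝ) (_ : 0 < y ∧ y ≤ s ∧ |x - z| < μ' * y ∧
      2 * (C + 1) + ms < gg la U z y), ENNReal.ofReal (Real.exp (-poisson (lg U) z y))) ≤
      ENNReal.ofReal (16 * Real.exp C / r ^ 2) *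
        ∫⁻ q in CCh.SS la' ms s U x, CCh.GG la' U q := by
    intro x
    refine iSup_le fun z => iSup_le fun y => iSup_le fun h => ?_
    exact CCh.pw hBas hW hla' hla hr0 hrρ hρ hr1 hr2 hC hms
      (fun z y m hrt w hw => (hG z y m hrt w hw).1) h.1 h.2.1 h.2.2.1 h.2.2.2
  calc ∫⁻ x in Icc a (a + s), (⨆ (z : ℝ) (y : ℝ) (_ : 0 < y ∧ y ≤ s ∧ |x - z| < μ' * y ∧
      2 * (C + 1) + ms < gg la U z y), ENNReal.ofReal (Real.exp (-poisson (lg U) z y))) *
        ENNReal.ofReal (U x)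
      = ∫⁻ x in Icc a (a + s), (⨆ (z : ℝ) (y : ℝ) (_ : 0 < y ∧ y ≤ s ∧ |x - z| < μ' * y ∧
      2 * (C + 1) + ms < gg la U z y), ENNReal.ofReal (Real.exp (-poisson (lg U) z y)))
        ∂(wm U) := lintegral_mul_weight hW.1 measurableSet_Icc
    _ ≤ ∫⁻ x in Icc a (a + s), ENNReal.ofReal (16 * Real.exp C / r ^ 2) *
        (∫⁻ q in CCh.SS la' ms s U x, CCh.GG la' U q) ∂(wm U) :=
      lintegral_mono fun x => hsup x
    _ = ENNReal.ofReal (16 * Real.exp C / r ^ 2) * ∫⁻ x in Icc a (a + s),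
        (∫⁻ q in CCh.SS la' ms s U x, CCh.GG la' U q) ∂(wm U) :=
      lintegral_const_mul' _ _ ENNReal.ofReal_ne_top
    _ ≤ ENNReal.ofReal (16 * Real.exp C / r ^ 2) *
        ENNReal.ofReal (C1 * ((2 + 4 * la') * s)) := by
      apply mul_le_mul_right
      exact le_trans (CCh.ton hBas hW hla' hs)
        (hP1 (a - 2 * la' * s) ((2 + 4 * la') * s) (by positivity))
    _ = _ := by
      have e1 : (((16 * Real.exp C / r ^ 2 * (C1 * (2 + 4 * la'))).toNNReal : ℝ≥0) : ℝ≥0∞) =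
          ENNReal.ofReal (16 * Real.exp C / r ^ 2 * (C1 * (2 + 4 * la'))) := rfl
      rw [e1, ← ENNReal.ofReal_mul hK0, ← ENNReal.ofReal_mul (by positivity)]
      congr 1
      ring

end Pool.Agent.Work.MP_055a27_an.Cr3
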