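import Pool.Agent.Work.MP_055a27_an.Cr3.Stmts

/-!
# The shadow condition, second part: all apertures `lam < b`

If `U > 0` a.e., `log U` is admissible and `Sh μ U` holds for some `μ > 0`, then `Star lam b p U`
for all `lam < b` and `p > 1`.
-/

open MeasureTheory Set Filter Topology Complex Metric
open scoped ENNReal NNReal

namespace Pool.Agent.Work.MP_055a27_an.Cr3

open Crit (lg cc CC Pk hU)
open Nv (mx)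

/-- The points with a low point at distance comparable to the height. -/
def SS (la R m0 : ℝ) (U : ℝ → ℝ) : Set (ℝ × ℝ) :=
  {q | 0 < q.2 ∧ ∃ w : ℝ × ℝ, |w.1 - q.1| ≤ R * q.2 ∧ q.2 / 2 ≤ w.2 ∧ w.2 ≤ 2 * q.2 ∧
    gg la U w.1 w.2 ≤ m0}

/-- The integral over the high points of the cone, with exponents `N` and `r`. -/
noncomputable def ZZ (p r lam la ms : ℝ) (N : ℕ) (U : ℝ → ℝ) (k : ℝ → ℝ≥0∞) (x : ℝ) : ℝ≥0∞ :=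
  ∫⁻ q in cone lam x ∩ {q : ℝ × ℝ | ms ≤ gg la U q.1 q.2},
    ENNReal.ofReal ((gg la U q.1 q.2) ^ N / q.2 ^ 2 *
      Real.exp (-(r * poisson (lg U) q.1 q.2 / p))) * (Pk k q.1 q.2) ^ r

/-- 41 SMeas: measurability. -/
def StSMeas : Prop := ∀ (la R m0 : ℝ) (U : ℝ → ℝ), 0 < la → 0 < R → Wt U →
  MeasurableSet (SS la R m0 U)

/-- 42 Ainf2: the `A_∞` inequality near low points. -/
def StAinf2 : Prop := ∀ (la μ R m0 lam : ℝ) (U : ℝ → ℝ), Hyp la μ U → 0 < R → 1 ≤ m0 →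
  0 < lam → ∃ R' C ε : ℝ, lam < R' ∧ 0 < C ∧ 0 < ε ∧ ∀ q ∈ SS la R m0 U,
    ∀ E : Set ℝ, MeasurableSet E → E ⊆ Icc (q.1 - 5 * R' * q.2) (q.1 + 5 * R' * q.2) →
      wm U E ≤ ENNReal.ofReal (C * (volume.real E / q.2) ^ ε) *
        wm U (Icc (q.1 - R' * q.2) (q.1 + R' * q.2))

/-- 43 Low2: the low part. -/
def StLow2 : Prop := ∀ (lam la μ R b p m0 : ℝ) (U : ℝ → ℝ), 0 < lam → lam < b → 0 < p →
  0 < R → 1 ≤ m0 → Hyp la μ U → ∃ C : ℝ≥0, ∀ f : ℝ → ℝ, Admissible f →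
    ∫⁻ x, (∫⁻ q in cone lam x ∩ SS la R m0 U,
      ENNReal.ofReal (gradSq f q.1 q.2)) ^ (p / 2) * ENNReal.ofReal (U x) ≤
      C * ∫⁻ x, (ntMax b f x) ^ p * ENNReal.ofReal (U x)

/-- 44 Circ: the three circles theorem for the radii `r`, `2 r`, `4 r`. -/
def StCirc : Prop := ∀ (G : ℂ → ℂ) (c : ℂ) (r A N : ℝ), 0 < r →
  DifferentiableOn ℂ G (ball c (4 * r)) → (∀ w ∈ ball c (4 * r), ‖G w‖ ≤ N) →
  (∀ w ∈ ball c r, ‖G w‖ ≤ A) → ∀ w ∈ ball c (2 * r), ‖G w‖ ≤ A ^ (1 / 2 : ℝ) * N ^ (1 / 2 : ℝ)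

/-- 45 Prop: propagation of smallness inside a cone. -/
def StProp : Prop := ∀ lam b μ1 : ℝ, 0 < μ1 → 0 < lam → lam < b → ∃ (C : ℝ≥0) (ω : ℝ),
  0 < ω ∧ ω ≤ 1 / 2 ∧ ∀ f : ℝ → ℝ, Admissible f → ∀ (x : ℝ) (q : ℝ × ℝ), q ∈ cone lam x →
    ntMax b f x ≠ ∞ → ∀ A : ℝ≥0∞, A ≠ ∞ →
    (∀ w : ℝ × ℝ, |w.1 - x| ≤ μ1 * w.2 → q.2 / 2 ≤ w.2 → w.2 ≤ 2 * q.2 →
      ENNReal.ofReal (w.2 * ‖dschw f ((w.1 : ℂ) + w.2 * I)‖) ≤ A) →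
    ENNReal.ofReal (q.2 * ‖dschw f ((q.1 : ℂ) + q.2 * I)‖) ≤
      C * (ntMax b f x) ^ (1 - ω) * A ^ ω

/-- 46 Sup: from the supremum over high points to an integral over high points. -/
def StSup : Prop := ∀ (la' la μ μ1 μ2 p ω ms : ℝ) (U : ℝ → ℝ), 0 < μ1 → μ1 < μ2 → μ2 < la' →
  la' < la → Hyp la μ U → 0 < p → 0 < ω → ω ≤ 1 / 2 → 1 ≤ ms → ∃ (m0 : ℝ) (C : ℝ≥0), 1 ≤ m0 ∧
  ∀ k : ℝ → ℝ≥0∞, AEMeasurable k volume → ∀ x y : ℝ, 0 < y → ∀ w : ℝ × ℝ,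
    |w.1 - x| ≤ μ1 * w.2 → y / 2 ≤ w.2 → w.2 ≤ 2 * y → m0 < gg la U w.1 w.2 →
    (ENNReal.ofReal (gg la U w.1 w.2 * Real.exp (-(poisson (lg U) w.1 w.2 / p))) *
      Pk k w.1 w.2) ^ (2 * ω) ≤
    C * ∫⁻ q in cone μ2 x ∩ {q : ℝ × ℝ | ms ≤ gg la' U q.1 q.2 ∧ y / 4 ≤ q.2 ∧ q.2 ≤ 4 * y},
      ENNReal.ofReal ((gg la' U q.1 q.2) ^ 4 / q.2 ^ 2 *
        Real.exp (-(2 * ω * poisson (lg U) q.1 q.2 / p))) * (Pk k q.1 q.2) ^ (2 * ω)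

/-- 47 H3r: the high part with general exponents. -/
def StH3r : Prop := ∀ (lam la μ p r : ℝ) (N : ℕ) (U : ℝ → ℝ), 0 < lam → lam < la → Hyp la μ U →
  1 < p → 0 < r → r < p → ∃ ms : ℝ, 1 ≤ ms ∧ ∃ C : ℝ≥0, ∀ k : ℝ → ℝ≥0∞, AEMeasurable k volume →
    ∫⁻ x, (ZZ p r lam la ms N U k x) ^ (p / r) * ENNReal.ofReal (U x) ≤ C * ∫⁻ x, (k x) ^ p

/-- 48 High2: the high part. -/
def StHigh2 : Prop := ∀ (lam b p μ : ℝ) (U : ℝ → ℝ), 0 < lam → lam < b → 1 < p → 0 < μ → Wt U →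
  Sh μ U → ∃ la R m0 : ℝ, 0 < la ∧ la < μ ∧ 0 < R ∧ 1 ≤ m0 ∧ ∃ C : ℝ≥0,
  ∀ f : ℝ → ℝ, Admissible f →
    ∫⁻ x, (∫⁻ q in cone lam x \ SS la R m0 U,
      ENNReal.ofReal (gradSq f q.1 q.2)) ^ (p / 2) * ENNReal.ofReal (U x) ≤
      C * ∫⁻ x, (ntMax b f x) ^ p * ENNReal.ofReal (U x)

/-- 49 SuffB: sufficiency for `lam < b`. -/
def StSuffB : Prop := ∀ (lam b p μ : ℝ) (U : ℝ → ℝ), 0 < lam → lam < b → 1 < p → 0 < μ → Wt U →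
  Sh μ U → Star lam b p U

end Pool.Agent.Work.MP_055a27_an.Cr3
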