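import Pool.Agent.Work.MP_055a27_an.Cr3.Stmts
import Pool.Agent.Work.MP_055a27_an.WMeas

/-!
# The supremum over the low points
-/

open MeasureTheory Set Filter Topology
open scoped ENNReal NNReal

namespace Pool.Agent.Work.MP_055a27_an.Cr3

open Crit (lg)

namespace CCl

/-- The supremum over the low points with `δ < y ≤ s`. -/
noncomputable def SS (la μ' m0 : ℝ) (U : ℝ → ℝ) (δ s x : ℝ) : ℝ≥0∞ :=
  ⨆ (z : ℝ) (y : ℝ) (_ : δ < y ∧ y ≤ s ∧ |x - z| < μ' * y ∧ gg la U z y ≤ m0),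
    ENNReal.ofReal (Real.exp (-poisson (lg U) z y))

lemma le_SS {la μ' m0 : ℝ} {U : ℝ → ℝ} {δ s x z y : ℝ} (h1 : δ < y) (h2 : y ≤ s)
    (h3 : |x - z| < μ' * y) (h4 : gg la U z y ≤ m0) :
    ENNReal.ofReal (Real.exp (-poisson (lg U) z y)) ≤ SS la μ' m0 U δ s x :=
  le_iSup_of_le z (le_iSup_of_le y (le_iSup_of_le ⟨h1, h2, h3, h4⟩ le_rfl))

lemma SS_le {la μ' m0 : ℝ} {U : ℝ → ℝ} {δ s x : ℝ} {M : ℝ≥0∞}
    (h : ∀ z y : ℝ, δ < y → y ≤ s → |x - z| < μ' * y → gg la U z y ≤ m0 →
      ENNReal.ofReal (Real.exp (-poisson (lg U) z y)) ≤ M) : SS la μ' m0 U δ s x ≤ M :=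
  iSup_le fun z => iSup_le fun y => iSup_le fun hh => h z y hh.1 hh.2.1 hh.2.2.1 hh.2.2.2

lemma SS_meas (la μ' m0 : ℝ) (U : ℝ → ℝ) (δ s : ℝ) :
    Measurable (SS la μ' m0 U δ s) := by
  apply measurable_of_Ioi
  intro c
  apply IsOpen.measurableSet
  have : SS la μ' m0 U δ s ⁻¹' Ioi c = ⋃ (z : ℝ) (y : ℝ) (_ : δ < y ∧ y ≤ s ∧
      gg la U z y ≤ m0 ∧ c < ENNReal.ofReal (Real.exp (-poisson (lg U) z y))),
      {x : ℝ | |x - z| < μ' * y} := by
    ext x
    simp only [mem_preimage, mem_Ioi, SS, lt_iSup_iff, mem_iUnion, mem_ofPred_eq, exists_prop]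
    constructor
    · rintro ⟨z, y, ⟨h1, h2, h3, h4⟩, h5⟩
      exact ⟨z, y, ⟨h1, h2, h4, h5⟩, h3⟩
    · rintro ⟨z, y, ⟨h1, h2, h4, h5⟩, h3⟩
      exact ⟨z, y, ⟨h1, h2, h3, h4⟩, h5⟩
  rw [this]
  refine isOpen_iUnion fun z => isOpen_iUnion fun y => isOpen_iUnion fun _ => ?_
  exact isOpen_lt (by fun_prop) continuous_const

/-- The integral. -/
noncomputable def Ph (la μ' m0 : ℝ) (U : ℝ → ℝ) (δ a s : ℝ) : ℝ≥0∞ :=
  ∫⁻ x in Icc a (a + s), SS la μ' m0 U δ s x * ENNReal.ofReal (U x)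

lemma Ph_zero {la μ' m0 : ℝ} {U : ℝ → ℝ} {δ a s : ℝ} (h : s ≤ δ) :
    Ph la μ' m0 U δ a s = 0 := by
  unfold Ph
  have : ∀ x, SS la μ' m0 U δ s x = 0 := by
    intro x
    rw [← nonpos_iff_eq_zero]
    apply SS_le
    intro z y h1 h2
    exact absurd (h1.trans_le h2) (not_lt.2 h)
  simp [this]

lemma Ph_half {la μ' m0 : ℝ} {U : ℝ → ℝ} {δ a s : ℝ}
    (h : ∀ z y x : ℝ, x ∈ Icc a (a + s) → s / 2 < y → y ≤ s → |x - z| < μ' * y →
      ¬ gg la U z y ≤ m0) :
    Ph la μ' m0 U δ a s ≤ Ph la μ' m0 U δ a (s / 2) + Ph la μ' m0 U δ (a + s / 2) (s / 2) := by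
  unfold Ph
  have h1 : ∫⁻ x in Icc a (a + s), SS la μ' m0 U δ s x * ENNReal.ofReal (U x) ≤
      ∫⁻ x in Icc a (a + s), SS la μ' m0 U δ (s / 2) x * ENNReal.ofReal (U x) := by
    apply setLIntegral_mono' measurableSet_Icc
    intro x hx
    gcongr
    apply SS_le
    intro z y k1 k2 k3 k4
    rcases lt_or_ge (s / 2) y with k | k
    · exact absurd k4 (h z y x hx k k2 k3)
    · exact le_SS k1 k k3 k4
  refine h1.trans ?_
  refine (lintegral_mono_set ?_).trans (lintegral_union_le _ _ _)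
  intro x hx
  rcases le_total x (a + s / 2) with k | k
  · exact Or.inl ⟨hx.1, k⟩
  · exact Or.inr ⟨k, by linarith [hx.2]⟩

/-- The estimate with a stopping set. -/
lemma Ph_stop {la μ' m0 : ℝ} {U : ℝ → ℝ} (hU : IsWeight U) {δ a s : ℝ} {M : ℝ≥0∞} {O : Set ℝ}
    (hM : ∀ x ∈ Ioo a (a + s), x ∉ O → ∀ x1 z y : ℝ, δ < y → y ≤ s → |x1 - z| < μ' * y →
      |x1 - x| < y → gg la U z y ≤ m0 → ENNReal.ofReal (Real.exp (-poisson (lg U) z y)) ≤ M)
    (hδ : 0 < δ)
    {ι : Type} (hι : Countable ι) (α γ : ι → ℝ)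
    (hO : O ∩ Ioo a (a + s) = ⋃ i, Ioo (α i) (γ i))
    (hx' : ∀ i, ∃ x' ∈ Ioo a (a + s), x' ∉ O ∧ ∀ x ∈ Ioo (α i) (γ i), |x - x'| ≤ γ i - α i) :
    Ph la μ' m0 U δ a s ≤ M * wm U (Icc a (a + s)) +
      ∑' i, Ph la μ' m0 U δ (α i) (γ i - α i) := by
  have hUm := weight_ofReal_aemeas hU
  have hpt : ∀ x ∈ Ioo a (a + s), SS la μ' m0 U δ s x * ENNReal.ofReal (U x) ≤
      M * ENNReal.ofReal (U x) + ∑' i, (Ioo (α i) (γ i)).indicator
        (fun x => SS la μ' m0 U δ (γ i - α i) x * ENNReal.ofReal (U x)) x := by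
    intro x hx
    by_cases hxO : x ∈ O
    · have : x ∈ ⋃ i, Ioo (α i) (γ i) := by
        rw [← hO]; exact ⟨hxO, hx⟩
      obtain ⟨i, hi⟩ := mem_iUnion.1 this
      have h1 : SS la μ' m0 U δ s x ≤ M + SS la μ' m0 U δ (γ i - α i) x := by
        apply SS_le
        intro z y k1 k2 k3 k4
        rcases lt_or_ge (γ i - α i) y with k | k
        · obtain ⟨x', hx1, hx2, hx3⟩ := hx' i
          exact (hM x' hx1 hx2 x z y k1 k2 k3 (lt_of_le_of_lt (hx3 x hi) k) k4).trans
            le_self_add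
        · exact (le_SS k1 k k3 k4).trans le_add_self
      calc SS la μ' m0 U δ s x * ENNReal.ofReal (U x)
          ≤ (M + SS la μ' m0 U δ (γ i - α i) x) * ENNReal.ofReal (U x) := by gcongr
        _ = M * ENNReal.ofReal (U x) + (Ioo (α i) (γ i)).indicator
            (fun x => SS la μ' m0 U δ (γ i - α i) x * ENNReal.ofReal (U x)) x := by
            rw [add_mul, indicator_of_mem hi]
        _ ≤ _ := by
            gcongr
            exact ENNReal.le_tsum i
    · refine le_trans ?_ le_self_add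
      gcongr
      apply SS_le
      intro z y k1 k2 k3 k4
      exact hM x hx hxO x z y k1 k2 k3 (by rw [sub_self, abs_zero]; linarith) k4
  calc Ph la μ' m0 U δ a s
      = ∫⁻ x in Ioo a (a + s), SS la μ' m0 U δ s x * ENNReal.ofReal (U x) :=
        setLIntegral_congr Ioo_ae_eq_Icc.symm
    _ ≤ ∫⁻ x in Ioo a (a + s), (M * ENNReal.ofReal (U x) + ∑' i, (Ioo (α i) (γ i)).indicator
        (fun x => SS la μ' m0 U δ (γ i - α i) x * ENNReal.ofReal (U x)) x) :=
        setLIntegral_mono' measurableSet_Ioo hpt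
    _ = (∫⁻ x in Ioo a (a + s), M * ENNReal.ofReal (U x)) +
        ∫⁻ x in Ioo a (a + s), ∑' i, (Ioo (α i) (γ i)).indicator
        (fun x => SS la μ' m0 U δ (γ i - α i) x * ENNReal.ofReal (U x)) x :=
        lintegral_add_left' (hUm.restrict.const_mul M) _
    _ ≤ M * wm U (Icc a (a + s)) + ∑' i, Ph la μ' m0 U δ (α i) (γ i - α i) := by
        apply add_le_add
        · rw [lintegral_const_mul'' _ hUm.restrict, ← wm_apply measurableSet_Ioo]
          gcongr
          exact Ioo_subset_Icc_self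
        · rw [lintegral_tsum]
          · apply ENNReal.tsum_le_tsum
            intro i
            rw [lintegral_indicator measurableSet_Ioo]
            unfold Ph
            refine lintegral_mono' ?_ le_rfl
            rw [Measure.restrict_restrict measurableSet_Ioo]
            apply Measure.restrict_mono _ le_rfl
            intro x hx
            exact ⟨hx.1.1.le, by linarith [hx.1.2]⟩
          · intro i
            apply AEMeasurable.indicator _ measurableSet_Ioo
            exact (SS_meas _ _ _ _ _ _).aemeasurable.mul hUm.restrict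

/-- The stopping set is open. -/
lemma O_open (v : ℝ → ℝ) (β Y A L : ℝ) :
    IsOpen {x : ℝ | ∃ z η : ℝ, 0 < η ∧ η ≤ Y ∧ |x - z| < β * η ∧ A < |poisson v z η - L|} := by
  have : {x : ℝ | ∃ z η : ℝ, 0 < η ∧ η ≤ Y ∧ |x - z| < β * η ∧ A < |poisson v z η - L|} =
      ⋃ (z : ℝ) (η : ℝ) (_ : 0 < η ∧ η ≤ Y ∧ A < |poisson v z η - L|),
        {x : ℝ | |x - z| < β * η} := by
    ext x
    simp only [mem_iUnion, mem_ofPred_eq, exists_prop]
    constructor
    · rintro ⟨z, η, h1, h2, h3, h4⟩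
      exact ⟨z, η, ⟨h1, h2, h4⟩, h3⟩
    · rintro ⟨z, η, ⟨h1, h2, h4⟩, h3⟩
      exact ⟨z, η, h1, h2, h3, h4⟩
  rw [this]
  refine isOpen_iUnion fun z => isOpen_iUnion fun y => isOpen_iUnion fun _ => ?_
  exact isOpen_lt (by fun_prop) continuous_const

/-- The bound for the truncated integrals. -/
lemma bound (hGr : StGr) (hWT : StWT) (hStop : StStop) {la μ μ' m0 : ℝ} {U : ℝ → ℝ}
    (hH : Hyp la μ U) (hμ' : 0 < μ') (hm0 : 1 ≤ m0) :
    ∃ C : ℝ≥0, ∀ δ : ℝ, 0 < δ → ∀ a s : ℝ, Ph la μ' m0 U δ a s ≤ C * ENNReal.ofReal s := by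
  have hla : 0 < la := hH.1
  have hμ : 0 < μ := hla.trans hH.2.1
  have hU : IsWeight U := hH.2.2.1.1
  obtain ⟨CS, hCS, hSh⟩ := hH.2.2.2
  obtain ⟨CG, N, hCG, hG1⟩ := hGr la μ U hH
  set R : ℝ := 2 * (1 + μ') with hR
  set β : ℝ := μ' + 2 with hβ
  obtain ⟨CW, hCW, hW1⟩ := hWT la μ U hH R 2 β (by positivity) (by norm_num) (by positivity)
  set A : ℝ := 2 * CW * m0 with hA
  have hA0 : 0 < A := by positivity
  set K : ℝ := max 1 (R / μ) with hK
  have hK1 : 1 ≤ K := le_max_left _ _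
  have hKR : R ≤ μ * K := by
    have : R / μ ≤ K := le_max_right _ _
    rw [div_le_iff₀ hμ] at this
    linarith
  set C : ℝ := CS * K * Real.exp (A + CG * m0 * K ^ N) with hC
  have hC0 : 0 < C := by positivity
  refine ⟨2 * C.toNNReal, ?_⟩
  intro δ hδ a s
  have := hStop (Ph la μ' m0 U δ) δ C.toNNReal hδ (fun a s h => Ph_zero h) ?_ a s
  · simpa using this
  clear a s
  intro a s hs
  have hs0 : 0 < s := hδ.trans hs
  by_cases hcase : ∀ z y x : ℝ, x ∈ Icc a (a + s) → s / 2 < y → y ≤ s → |x - z| < μ' * y →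
      ¬ gg la U z y ≤ m0
  · exact Or.inl (Ph_half hcase)
  right
  push Not at hcase
  obtain ⟨z0, y0, x0, hx0, hy1, hy2, hxz, hg⟩ := hcase
  have hy0 : 0 < y0 := by linarith
  have hroot : Rt la U z0 y0 m0 := ⟨hy0, hm0, hg⟩
  set L := LL la U z0 y0 with hL
  set O : Set ℝ := {x : ℝ | ∃ z η : ℝ, 0 < η ∧ η ≤ 2 * y0 ∧ |x - z| < β * η ∧
    A < |poisson (lg U) z η - L|} with hOdef
  have hnear : ∀ x ∈ Icc a (a + s), |x - z0| ≤ R * y0 := by
    intro x hx
    have h1 : |x - x0| ≤ s := by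
      rw [abs_le]
      exact ⟨by linarith [hx.1, hx.2, hx0.1, hx0.2], by linarith [hx.1, hx.2, hx0.1, hx0.2]⟩
    have h2 : |x - z0| ≤ |x - x0| + |x0 - z0| := abs_sub_le _ _ _
    rw [hR]
    nlinarith [mul_pos hμ' hy0]
  refine ⟨O, O_open _ _ _ _ _, ?_, ?_⟩
  · have h1 : volume (O ∩ Ioo a (a + s)) ≤ ENNReal.ofReal (CW * m0 * y0 / A) := by
      refine (measure_mono ?_).trans (hW1 z0 y0 m0 A hroot (by rw [hA]; nlinarith))
      rintro x ⟨⟨z, η, k1, k2, k3, k4⟩, hx⟩
      exact ⟨hnear x (Ioo_subset_Icc_self hx), z, η, k1, k2, k3, k4⟩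
    refine h1.trans (ENNReal.ofReal_le_ofReal ?_)
    rw [div_le_iff₀ hA0, hA]
    have : 0 < CW * m0 := by positivity
    nlinarith
  · intro ι hι α γ _ hOi hx'
    set M : ℝ≥0∞ := ENNReal.ofReal (Real.exp (A - L)) with hM
    have hstop := Ph_stop (la := la) (μ' := μ') (m0 := m0) hU (M := M) (O := O) (a := a)
      (s := s) (δ := δ) ?_ hδ hι α γ hOi hx'
    · refine hstop.trans (add_le_add ?_ le_rfl)
      have hf := (wm_Icc_lt_top hU (z0 - μ * (K * y0)) (z0 + μ * (K * y0))).ne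
      have hKy : 0 < K * y0 := by positivity
      have h1 : wm U (Icc a (a + s)) ≤
          ENNReal.ofReal (CS * (K * y0 * Real.exp (poisson (lg U) z0 (K * y0)))) := by
        calc wm U (Icc a (a + s)) ≤ wm U (Icc (z0 - μ * (K * y0)) (z0 + μ * (K * y0))) := by
              apply measure_mono
              intro x hx
              have h2 := hnear x hx
              have h3 : R * y0 ≤ μ * (K * y0) := by
                rw [← mul_assoc]
                exact mul_le_mul_of_nonneg_right hKR hy0.le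
              have h4 := abs_le.1 (h2.trans h3)
              exact ⟨by linarith [h4.1], by linarith [h4.2]⟩
          _ = ENNReal.ofReal ((wm U (Icc (z0 - μ * (K * y0)) (z0 + μ * (K * y0)))).toReal) :=
            (ENNReal.ofReal_toReal hf).symm
          _ ≤ _ := by
            rw [← setIntegral_eq_wm hU measurableSet_Icc]
            exact ENNReal.ofReal_le_ofReal (hSh z0 (K * y0) hKy)
      have hgr : poisson (lg U) z0 (K * y0) ≤ L + CG * m0 * K ^ N := by
        have := hG1 z0 y0 m0 z0 (K * y0) hroot (by nlinarith) (by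
          rw [sub_self, abs_zero]
          have : 0 ≤ K * y0 - y0 := by nlinarith
          positivity)
        rw [mul_div_assoc, div_self hy0.ne', mul_one] at this
        have h2 := (abs_le.1 this).2
        linarith
      calc M * wm U (Icc a (a + s))
          ≤ M * ENNReal.ofReal (CS * (K * y0 * Real.exp (poisson (lg U) z0 (K * y0)))) := by
            gcongr
        _ = ENNReal.ofReal (Real.exp (A - L) *
            (CS * (K * y0 * Real.exp (poisson (lg U) z0 (K * y0))))) := by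
            rw [hM, ENNReal.ofReal_mul (Real.exp_pos _).le]
        _ ≤ ENNReal.ofReal (C * s) := by
            apply ENNReal.ofReal_le_ofReal
            calc Real.exp (A - L) * (CS * (K * y0 * Real.exp (poisson (lg U) z0 (K * y0))))
                ≤ Real.exp (A - L) * (CS * (K * s * Real.exp (L + CG * m0 * K ^ N))) := by
                  gcongr
              _ = CS * K * (Real.exp (A - L) * Real.exp (L + CG * m0 * K ^ N)) * s := by ring
              _ = C * s := by
                  rw [← Real.exp_add, hC]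
                  congr 3
                  ring
        _ = (C.toNNReal : ℝ≥0∞) * ENNReal.ofReal s := by
            rw [ENNReal.ofReal_mul hC0.le]
            rfl
    · intro x hx hxO x1 z y k1 k2 k3 k4 k5
      apply ENNReal.ofReal_le_ofReal
      apply Real.exp_le_exp.2
      have hy : 0 < y := hδ.trans k1
      by_contra hcon
      apply hxO
      refine ⟨z, y, hy, by linarith, ?_, ?_⟩
      · have h1 : |x - z| ≤ |x - x1| + |x1 - z| := abs_sub_le _ _ _
        rw [abs_sub_comm x x1] at h1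
        rw [hβ]
        nlinarith
      · have h2 : A < -(poisson (lg U) z y - L) := by linarith
        exact lt_of_lt_of_le h2 (neg_le_abs _)

end CCl

open CCl in
/-- The supremum over the low points. -/
theorem stCCl (hBas : StBas) (hGr : StGr) (hWT : StWT) (hStop : StStop) : StCCl := by
  have _ := hBas
  intro la μ μ' m0 U hH hμ' hm0
  have hU : IsWeight U := hH.2.2.1.1
  obtain ⟨C, hC⟩ := bound hGr hWT hStop hH hμ' hm0
  refine ⟨C, ?_⟩
  intro a s hs
  have hsup : ∀ x, (⨆ (z : ℝ) (y : ℝ) (_ : 0 < y ∧ y ≤ s ∧ |x - z| < μ' * y ∧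
      gg la U z y ≤ m0), ENNReal.ofReal (Real.exp (-poisson (lg U) z y))) *
        ENNReal.ofReal (U x) =
      ⨆ n : ℕ, SS la μ' m0 U (1 / ((n : ℝ) + 1)) s x * ENNReal.ofReal (U x) := by
    intro x
    rw [← ENNReal.iSup_mul]
    congr 1
    apply le_antisymm
    · refine iSup_le fun z => iSup_le fun y => iSup_le fun h => ?_
      obtain ⟨n, hn⟩ := exists_nat_one_div_lt h.1
      exact le_iSup_of_le n (le_SS hn h.2.1 h.2.2.1 h.2.2.2)
    · refine iSup_le fun n => SS_le fun z y k1 k2 k3 k4 => ?_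
      have : (0 : ℝ) < 1 / ((n : ℝ) + 1) := by positivity
      exact le_iSup_of_le z (le_iSup_of_le y (le_iSup_of_le ⟨this.trans k1, k2, k3, k4⟩ le_rfl))
  simp only [hsup]
  rw [lintegral_iSup']
  · exact iSup_le fun n => hC _ (by positivity) a s
  · intro n
    exact (SS_meas _ _ _ _ _ _).aemeasurable.mul (weight_ofReal_aemeas hU).restrict
  · refine Eventually.of_forall fun x => ?_
    intro n m hnm
    dsimp only
    gcongr
    apply SS_le
    intro z y k1 k2 k3 k4
    refine le_SS (lt_of_le_of_lt ?_ k1) k2 k3 k4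
    apply one_div_le_one_div_of_le (by positivity)
    have : (n : ℝ) ≤ m := by exact_mod_cast hnm
    linarith

end Pool.Agent.Work.MP_055a27_an.Cr3
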