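import Pool.Agent.Work.MP_055a27_an.Cr3.Stmts

/-!
# The Carleson embedding
-/

set_option autoImplicit false

open MeasureTheory Set Filter Topology Complex Metric
open scoped ENNReal NNReal

namespace Pool.Agent.Work.MP_055a27_an.Cr3

namespace CE

/-- The layer cake formula for a single finite number. -/
lemma layer_fin (α : ℝ) :
    ENNReal.ofReal α = ∫⁻ t in Ioi (0 : ℝ),
      (if ENNReal.ofReal t < ENNReal.ofReal α then 1 else 0) := by
  have h1 : ∫⁻ t in Ioi (0 : ℝ), (if ENNReal.ofReal t < ENNReal.ofReal α then (1 : ℝ≥0∞) else 0) =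
      ∫⁻ t in Ioi (0 : ℝ), (Iio α).indicator (fun _ => (1 : ℝ≥0∞)) t := by
    apply setLIntegral_congr_fun measurableSet_Ioi
    intro t ht
    have ht' : (0 : ℝ) < t := ht
    by_cases hta : t < α
    · have h1 : ENNReal.ofReal t < ENNReal.ofReal α := by
        rw [ENNReal.ofReal_lt_ofReal_iff (ht'.trans hta)]; exact hta
      simp [h1, hta]
    · have h1 : ¬ ENNReal.ofReal t < ENNReal.ofReal α := by
        push Not at hta ⊢
        exact ENNReal.ofReal_le_ofReal hta
      simp [h1, hta]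
  rw [h1, lintegral_indicator measurableSet_Iio, lintegral_const, one_mul,
    Measure.restrict_restrict measurableSet_Iio, Measure.restrict_apply_univ,
    Set.inter_comm, Ioi_inter_Iio, Real.volume_Ioo, sub_zero]

/-- The layer cake formula for a single extended number. -/
lemma layer (a : ℝ≥0∞) :
    a = ∫⁻ t in Ioi (0 : ℝ), (if ENNReal.ofReal t < a then 1 else 0) := by
  by_cases ha : a = ∞
  · subst ha
    simp
  · have h1 : ENNReal.ofReal a.toReal = a := ENNReal.ofReal_toReal ha
    have h2 := layer_fin a.toReal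
    rw [h1] at h2
    exact h2

/-- The supremum over the cone. -/
noncomputable def N (α : ℝ) (H : ℝ × ℝ → ℝ≥0∞) (x : ℝ) : ℝ≥0∞ :=
  ⨆ (z : ℝ) (y : ℝ) (_ : 0 < y ∧ |x - z| < α * y), H (z, y)

lemma mem_iff (α : ℝ) (H : ℝ × ℝ → ℝ≥0∞) (t : ℝ≥0∞) (x : ℝ) :
    t < N α H x ↔ ∃ z y : ℝ, (0 < y ∧ |x - z| < α * y) ∧ t < H (z, y) := by
  unfold N
  simp only [lt_iSup_iff, exists_prop]

lemma isOpen_gt (α : ℝ) (H : ℝ × ℝ → ℝ≥0∞) (t : ℝ≥0∞) : IsOpen {x | t < N α H x} := by
  have : {x | t < N α H x} = ⋃ (z : ℝ) (y : ℝ) (_ : 0 < y ∧ t < H (z, y)),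
      {x | |x - z| < α * y} := by
    ext x
    simp only [mem_ofPred_eq, mem_iff, mem_iUnion, exists_prop]
    constructor
    · rintro ⟨z, y, ⟨h1, h2⟩, h3⟩
      exact ⟨z, y, ⟨h1, h3⟩, h2⟩
    · rintro ⟨z, y, ⟨h1, h3⟩, h2⟩
      exact ⟨z, y, ⟨h1, h2⟩, h3⟩
  rw [this]
  refine isOpen_iUnion fun z => isOpen_iUnion fun y => isOpen_iUnion fun _ => ?_
  exact isOpen_lt (by fun_prop) (by fun_prop)

lemma measurable_N (α : ℝ) (H : ℝ × ℝ → ℝ≥0∞) : Measurable (N α H) :=
  measurable_of_Ioi fun a => (isOpen_gt α H a).measurableSet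

/-- The estimate for a level set. -/
lemma level (hComps : Crit.StComps) (w : ℝ × ℝ → ℝ≥0∞) (C : ℝ≥0) (α κ : ℝ) (hα : 0 < α)
    (hκ1 : 1 ≤ κ) (hκ2 : 1 ≤ 2 * α * κ)
    (hw : ∀ a s : ℝ, 0 < s → ∫⁻ q in Icc a (a + s) ×ˢ Ioc 0 s, w q ≤ C * ENNReal.ofReal s)
    (H : ℝ × ℝ → ℝ≥0∞) (t : ℝ≥0∞) :
    ∫⁻ q in {q : ℝ × ℝ | 0 < q.2 ∧ t < H q}, w q ≤
      (max 1 (C * ENNReal.ofReal κ)) * volume {x | t < N α H x} := by
  by_cases hv : volume {x | t < N α H x} = ∞
  · rw [hv, ENNReal.mul_top]
    · exact le_top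
    · exact (lt_of_lt_of_le zero_lt_one (le_max_left _ _)).ne'
  obtain ⟨ι, hι, a, c, hac, hO, hdis, hsub⟩ := hComps _ (isOpen_gt α H t) hv
  have hcov : {q : ℝ × ℝ | 0 < q.2 ∧ t < H q} ⊆
      ⋃ i, Icc (a i) (a i + κ * (c i - a i)) ×ˢ Ioc 0 (κ * (c i - a i)) := by
    rintro ⟨z, y⟩ ⟨hy, hH⟩
    simp only at hy hH
    have hy2 : 0 < α * y := mul_pos hα hy
    obtain ⟨i, hi⟩ := hsub (z - α * y) (z + α * y) (by linarith) (by
      intro x hx
      simp only [mem_ofPred_eq, mem_iff]
      refine ⟨z, y, ⟨hy, ?_⟩, hH⟩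
      rw [abs_lt]
      constructor <;> linarith [hx.1, hx.2])
    have h3 : z - α * y < z + α * y := by linarith
    obtain ⟨h1, h2⟩ := (Ioo_subset_Ioo_iff h3).1 hi
    have hci := hac i
    refine mem_iUnion.2 ⟨i, ?_⟩
    have h4 : c i - a i ≤ κ * (c i - a i) := by nlinarith only [hκ1, hci]
    have h5 : y ≤ κ * (c i - a i) := by
      have h6 : 2 * (α * y) ≤ c i - a i := by linarith
      have hκ0 : 0 < κ := by linarith
      have h7 : κ * (2 * (α * y)) ≤ κ * (c i - a i) := mul_le_mul_of_nonneg_left h6 hκ0.le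
      have h8 : y ≤ κ * (2 * (α * y)) := by nlinarith only [hκ2, hy]
      exact h8.trans h7
    refine ⟨⟨?_, ?_⟩, ⟨hy, h5⟩⟩
    · show a i ≤ z
      linarith
    · show z ≤ a i + κ * (c i - a i)
      linarith
  calc ∫⁻ q in {q : ℝ × ℝ | 0 < q.2 ∧ t < H q}, w q
      ≤ ∫⁻ q in ⋃ i, Icc (a i) (a i + κ * (c i - a i)) ×ˢ Ioc 0 (κ * (c i - a i)), w q :=
        lintegral_mono_set hcov
    _ ≤ ∑' i, ∫⁻ q in Icc (a i) (a i + κ * (c i - a i)) ×ˢ Ioc 0 (κ * (c i - a i)), w q :=
        lintegral_iUnion_le _ _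
    _ ≤ ∑' i, C * ENNReal.ofReal (κ * (c i - a i)) := by
        apply ENNReal.tsum_le_tsum
        intro i
        apply hw
        have := hac i
        exact mul_pos (by linarith) (by linarith)
    _ = ∑' i, C * ENNReal.ofReal κ * volume (Ioo (a i) (c i)) := by
        congr 1
        funext i
        rw [Real.volume_Ioo, ENNReal.ofReal_mul (by linarith), mul_assoc]
    _ = C * ENNReal.ofReal κ * volume (⋃ i, Ioo (a i) (c i)) := by
        rw [ENNReal.tsum_mul_left, measure_iUnion hdis fun _ => measurableSet_Ioo]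
    _ ≤ (max 1 (C * ENNReal.ofReal κ)) * volume {x | t < N α H x} := by
        rw [← hO]
        exact mul_le_mul_left (le_max_right _ _) _

end CE

/-- 19 CE: the Carleson embedding. -/
theorem stCE (hComps : Crit.StComps) : StCE := by
  intro w C α hα hwm hw
  set κ : ℝ := max 1 (1 / (2 * α)) with hκ
  have hκ1 : 1 ≤ κ := le_max_left _ _
  have hκ2 : 1 ≤ 2 * α * κ := by
    have h1 : 1 / (2 * α) ≤ κ := le_max_right _ _
    have h2 : 2 * α * (1 / (2 * α)) = 1 := by field_simp
    have h3 : 2 * α * (1 / (2 * α)) ≤ 2 * α * κ := mul_le_mul_of_nonneg_left h1 (by linarith)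
    linarith
  refine ⟨max 1 (C * κ.toNNReal), fun H hH => ?_⟩
  have hC : ((max 1 (C * κ.toNNReal) : ℝ≥0) : ℝ≥0∞) = max 1 (C * ENNReal.ofReal κ) := by
    rw [ENNReal.coe_max, ENNReal.coe_mul, ENNReal.coe_one]
    rfl
  rw [hC]
  change ∫⁻ q in {q : ℝ × ℝ | 0 < q.2}, H q * w q ≤ _ * ∫⁻ x, CE.N α H x
  have hpos : MeasurableSet {q : ℝ × ℝ | 0 < q.2} := measurableSet_lt measurable_const measurable_snd
  have hmt : ∀ t : ℝ≥0∞, MeasurableSet {q : ℝ × ℝ | t < H q} := fun t =>
    measurableSet_lt measurable_const hH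
  calc ∫⁻ q in {q : ℝ × ℝ | 0 < q.2}, H q * w q
      = ∫⁻ q in {q : ℝ × ℝ | 0 < q.2}, ∫⁻ t in Ioi (0 : ℝ),
          (if ENNReal.ofReal t < H q then w q else 0) := by
        congr 1
        funext q
        conv_lhs => rw [CE.layer (H q)]
        rw [← lintegral_mul_const]
        · congr 1
          funext t
          split_ifs <;> simp
        · exact Measurable.ite (measurableSet_lt ENNReal.measurable_ofReal measurable_const)
            measurable_const measurable_const
    _ = ∫⁻ t in Ioi (0 : ℝ), ∫⁻ q in {q : ℝ × ℝ | 0 < q.2},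
          (if ENNReal.ofReal t < H q then w q else 0) := by
        rw [lintegral_lintegral_swap]
        apply Measurable.aemeasurable
        exact Measurable.ite (measurableSet_lt (ENNReal.measurable_ofReal.comp measurable_snd)
          (hH.comp measurable_fst)) (hwm.comp measurable_fst) measurable_const
    _ ≤ ∫⁻ t in Ioi (0 : ℝ), (max 1 (C * ENNReal.ofReal κ)) *
          volume {x | ENNReal.ofReal t < CE.N α H x} := by
        apply lintegral_mono
        intro t
        dsimp only
        refine le_trans (le_of_eq ?_) (CE.level hComps w C α κ hα hκ1 hκ2 hw H (ENNReal.ofReal t))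
        have e1 : (fun q : ℝ × ℝ => if ENNReal.ofReal t < H q then w q else 0) =
            {q : ℝ × ℝ | ENNReal.ofReal t < H q}.indicator w := by
          funext q
          by_cases hq : ENNReal.ofReal t < H q
          · rw [indicator_of_mem (show q ∈ {q : ℝ × ℝ | ENNReal.ofReal t < H q} from hq), if_pos hq]
          · rw [indicator_of_notMem (show q ∉ {q : ℝ × ℝ | ENNReal.ofReal t < H q} from hq),
              if_neg hq]
        rw [e1, lintegral_indicator (hmt _), Measure.restrict_restrict (hmt _)]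
        congr 2
        ext q
        simp only [mem_inter_iff, mem_ofPred_eq]
        exact and_comm
    _ = (max 1 (C * ENNReal.ofReal κ)) * ∫⁻ t in Ioi (0 : ℝ),
          volume {x | ENNReal.ofReal t < CE.N α H x} := by
        rw [lintegral_const_mul']
        exact max_ne_top (by simp) (ENNReal.mul_ne_top ENNReal.coe_ne_top ENNReal.ofReal_ne_top)
    _ = (max 1 (C * ENNReal.ofReal κ)) * ∫⁻ x, CE.N α H x := by
        congr 1
        have h1 : ∀ t : ℝ, volume {x | ENNReal.ofReal t < CE.N α H x} =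
            ∫⁻ x, (if ENNReal.ofReal t < CE.N α H x then 1 else 0) := by
          intro t
          rw [← lintegral_indicator_one (CE.isOpen_gt α H _).measurableSet]
          congr 1
          funext x
          by_cases hx : ENNReal.ofReal t < CE.N α H x
          · rw [indicator_of_mem (show x ∈ {x | ENNReal.ofReal t < CE.N α H x} from hx), if_pos hx]
            rfl
          · rw [indicator_of_notMem (show x ∉ {x | ENNReal.ofReal t < CE.N α H x} from hx),
              if_neg hx]
        simp only [h1]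
        rw [lintegral_lintegral_swap]
        · congr 1
          funext x
          exact (CE.layer _).symm
        · apply Measurable.aemeasurable
          exact Measurable.ite (measurableSet_lt (ENNReal.measurable_ofReal.comp measurable_fst)
            ((CE.measurable_N α H).comp measurable_snd)) measurable_const measurable_const

end Pool.Agent.Work.MP_055a27_an.Cr3
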