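import Pool.Agent.Work.MP_055a27_an.Cr3.Stmts

/-!
# Carleson bound for the points with `ms ≤ gg ≤ m`
-/

open MeasureTheory Set Filter Topology Complex Metric
open scoped ENNReal NNReal

namespace Pool.Agent.Work.MP_055a27_an.Cr3

namespace HPm

/-- the region of the points with `ms ≤ gg ≤ m` of height at least `δ` -/
def Rg (la : ℝ) (U : ℝ → ℝ) (ms m δ a s : ℝ) : Set (ℝ × ℝ) :=
  {q | q.1 ∈ Icc a (a + s) ∧ δ < q.2 ∧ q.2 ≤ s ∧ ms ≤ gg la U q.1 q.2 ∧ gg la U q.1 q.2 ≤ m}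

theorem Rg_empty (la : ℝ) (U : ℝ → ℝ) (ms m δ a s : ℝ) (h : s ≤ δ) :
    Rg la U ms m δ a s = ∅ := by
  ext q
  simp only [Rg, mem_ofPred_eq, mem_empty_iff_false, iff_false]
  rintro ⟨_, h1, h2, _⟩
  exact absurd (h1.trans_le h2) (not_lt.2 h)

theorem Rg_split (la : ℝ) (U : ℝ → ℝ) (ms m δ a s : ℝ)
    (h : ∀ z y, z ∈ Icc a (a + s) → s / 2 < y → y ≤ s → ¬ gg la U z y ≤ m) :
    Rg la U ms m δ a s ⊆ Rg la U ms m δ a (s / 2) ∪ Rg la U ms m δ (a + s / 2) (s / 2) := by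
  rintro q ⟨h1, h2, h3, h4, h5⟩
  have h6 : q.2 ≤ s / 2 := by
    by_contra h7
    exact h q.1 q.2 h1 (not_le.1 h7) h3 h5
  rcases le_total q.1 (a + s / 2) with h7 | h7
  · exact Or.inl ⟨⟨h1.1, h7⟩, h2, h6, h4, h5⟩
  · refine Or.inr ⟨⟨h7, ?_⟩, h2, h6, h4, h5⟩
    have := h1.2
    linarith

theorem null_line (a b : ℝ) : volume {q : ℝ × ℝ | q.1 = a ∨ q.1 = b} = 0 := by
  have h : {q : ℝ × ℝ | q.1 = a ∨ q.1 = b} = ({a, b} : Set ℝ) ×ˢ (univ : Set ℝ) := by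
    ext q
    simp
  rw [h, Measure.volume_eq_prod, Measure.prod_prod]
  have h2 : volume ({a, b} : Set ℝ) = 0 := (Set.toFinite _).measure_zero _
  rw [h2, zero_mul]

/-- the exceptional set of a root -/
def Ex (U : ℝ → ℝ) (K L A y0 : ℝ) : Set ℝ :=
  {x | ∃ z η : ℝ, 0 < η ∧ η ≤ K * y0 ∧ |x - z| < 2 * η ∧ A < |poisson (Crit.lg U) z η - L|}

theorem Ex_open (U : ℝ → ℝ) (K L A y0 : ℝ) : IsOpen (Ex U K L A y0) := by
  have h : Ex U K L A y0 = ⋃ (z : ℝ), ⋃ (η : ℝ), ⋃ (_ : 0 < η ∧ η ≤ K * y0 ∧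
      A < |poisson (Crit.lg U) z η - L|), {x | |x - z| < 2 * η} := by
    ext x
    simp only [Ex, mem_ofPred_eq, mem_iUnion, exists_prop]
    constructor
    · rintro ⟨z, η, h1, h2, h3, h4⟩
      exact ⟨z, η, ⟨h1, h2, h4⟩, h3⟩
    · rintro ⟨z, η, ⟨h1, h2, h4⟩, h3⟩
      exact ⟨z, η, h1, h2, h3, h4⟩
  rw [h]
  refine isOpen_iUnion fun z => isOpen_iUnion fun η => isOpen_iUnion fun _ => ?_
  exact isOpen_lt (by fun_prop) continuous_const

/-- the covering of the region -/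
theorem Rg_cover (la : ℝ) (U : ℝ → ℝ) (ms m δ a s : ℝ) (hδ : 0 < δ) (O : Set ℝ) (ι : Type)
    (α γ : ι → ℝ) (hO : O ∩ Ioo a (a + s) = ⋃ i, Ioo (α i) (γ i))
    (hx : ∀ i, ∃ x' ∈ Ioo a (a + s), x' ∉ O ∧ ∀ x ∈ Ioo (α i) (γ i), |x - x'| ≤ γ i - α i) :
    Rg la U ms m δ a s ⊆
      ({q : ℝ × ℝ | q.1 ∈ Icc a (a + s) ∧ 0 < q.2 ∧ q.2 ≤ s ∧
        (∃ x' ∈ Ioo a (a + s) \ O, |q.1 - x'| ≤ q.2) ∧ ms ≤ gg la U q.1 q.2} ∪
      ⋃ i, Rg la U ms m δ (α i) (γ i - α i)) ∪ {q | q.1 = a ∨ q.1 = a + s} := by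
  rintro q ⟨h1, h2, h3, h4, h5⟩
  by_cases h6 : q.1 = a ∨ q.1 = a + s
  · exact Or.inr h6
  · left
    push Not at h6
    have h7 : q.1 ∈ Ioo a (a + s) := ⟨lt_of_le_of_ne h1.1 (Ne.symm h6.1), lt_of_le_of_ne h1.2 h6.2⟩
    have h0 : 0 < q.2 := hδ.trans h2
    by_cases h8 : q.1 ∈ O
    · have h9 : q.1 ∈ ⋃ i, Ioo (α i) (γ i) := by rw [← hO]; exact ⟨h8, h7⟩
      obtain ⟨i, hi⟩ := mem_iUnion.1 h9
      rcases le_or_gt q.2 (γ i - α i) with h10 | h10
      · right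
        refine mem_iUnion.2 ⟨i, ⟨⟨hi.1.le, ?_⟩, h2, h10, h4, h5⟩⟩
        have := hi.2.le
        linarith
      · left
        obtain ⟨x', hx1, hx2, hx3⟩ := hx i
        exact ⟨h1, h0, h3, ⟨x', ⟨hx1, hx2⟩, (hx3 _ hi).trans h10.le⟩, h4⟩
    · left
      refine ⟨h1, h0, h3, ⟨q.1, ⟨h7, h8⟩, ?_⟩, h4⟩
      rw [sub_self, abs_zero]
      exact h0.le

end HPm

theorem stHPm (hBas : StBas) (hWT : StWT) (hSaw1 : StSaw1) (hStop : StStop) : StHPm := by
  intro la μ U hyp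
  obtain ⟨K, hK1, hK⟩ := hSaw1 la μ U hyp
  obtain ⟨CW, hCW, hW⟩ := hWT la μ U hyp 2 K 2 two_pos hK1 two_pos
  obtain ⟨ms, C, hms, hC, hS⟩ := hK (2 * CW) (by linarith)
  refine ⟨ms, 2 * C, hms, by linarith, fun m a s hm hs => ?_⟩
  have hCm : 0 ≤ C * m ^ 2 := by positivity
  have key : ∀ δ : ℝ, 0 < δ → ∀ a s : ℝ,
      ∫⁻ q in HPm.Rg la U ms m δ a s, ENNReal.ofReal (1 / q.2) ≤
        2 * (C * m ^ 2).toNNReal * ENNReal.ofReal s := by
    intro δ hδ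
    refine hStop (fun a s => ∫⁻ q in HPm.Rg la U ms m δ a s, ENNReal.ofReal (1 / q.2)) δ
      (C * m ^ 2).toNNReal hδ (fun a s h => ?_) (fun a s h => ?_)
    · show ∫⁻ q in HPm.Rg la U ms m δ a s, ENNReal.ofReal (1 / q.2) = 0
      rw [HPm.Rg_empty la U ms m δ a s h, setLIntegral_empty]
    · by_cases hcase : ∀ z y, z ∈ Icc a (a + s) → s / 2 < y → y ≤ s → ¬ gg la U z y ≤ m
      · left
        exact (lintegral_mono_set (HPm.Rg_split la U ms m δ a s hcase)).trans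
          (lintegral_union_le _ _ _)
      · right
        push Not at hcase
        obtain ⟨z0, y0, hz0, hy1, hy2, hg⟩ := hcase
        have hs0 : 0 < s := hδ.trans h
        have hy0 : 0 < y0 := by linarith
        have hroot : Rt la U z0 y0 m := ⟨hy0, hm, hg⟩
        refine ⟨HPm.Ex U K (LL la U z0 y0) (2 * CW * m) y0, HPm.Ex_open _ _ _ _ _, ?_, ?_⟩
        · have h1 := hW z0 y0 m (2 * CW * m) hroot (by nlinarith)
          have h2 : CW * m * y0 / (2 * CW * m) ≤ s / 2 := by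
            have : CW * m * y0 / (2 * CW * m) = y0 / 2 := by
              have hm0 : m ≠ 0 := by linarith
              have hc0 : CW ≠ 0 := by linarith
              field_simp
            rw [this]
            linarith
          refine le_trans (measure_mono ?_) (h1.trans (ENNReal.ofReal_le_ofReal h2))
          rintro x ⟨hx1, hx2⟩
          refine ⟨?_, hx1⟩
          rw [abs_le]
          constructor
          · have := hx2.1
            have := hz0.2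
            linarith
          · have := hx2.2
            have := hz0.1
            linarith
        · intro ι hι α γ hαγ hO hx
          have h1 := hS a s z0 y0 m (Ioo a (a + s) \ HPm.Ex U K (LL la U z0 y0) (2 * CW * m) y0)
            hs0 hz0 hy1.le hy2 hroot (fun x hx => Ioo_subset_Icc_self hx.1) (by
              intro x hx z η hη1 hη2 hη3
              by_contra h2
              exact hx.2 ⟨z, η, hη1, hη2, hη3, not_le.1 h2⟩)
          have h2 := lintegral_mono_set (μ := (volume : Measure (ℝ × ℝ)))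
            (f := fun q : ℝ × ℝ => ENNReal.ofReal (1 / q.2))
            (HPm.Rg_cover la U ms m δ a s hδ _ ι α γ hO hx)
          refine h2.trans ((lintegral_union_le _ _ _).trans ?_)
          rw [setLIntegral_measure_zero _ _ (HPm.null_line a (a + s)), add_zero]
          refine (lintegral_union_le _ _ _).trans (add_le_add (h1.trans ?_)
            (lintegral_iUnion_le _ _))
          rw [ENNReal.ofReal_mul hCm]
          rfl
  have hdir : ∫⁻ q in ⋃ n : ℕ, HPm.Rg la U ms m (1 / ((n : ℝ) + 1)) a s,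
      ENNReal.ofReal (1 / q.2) = ⨆ n : ℕ, ∫⁻ q in HPm.Rg la U ms m (1 / ((n : ℝ) + 1)) a s,
        ENNReal.ofReal (1 / q.2) := by
    refine setLIntegral_iUnion_of_directed _ (Monotone.directed_le ?_)
    intro n n' hn q hq
    refine ⟨hq.1, lt_of_le_of_lt ?_ hq.2.1, hq.2.2⟩
    have : (n : ℝ) ≤ n' := by exact_mod_cast hn
    gcongr
  have hsub : {q : ℝ × ℝ | q.1 ∈ Icc a (a + s) ∧ 0 < q.2 ∧ q.2 ≤ s ∧ ms ≤ gg la U q.1 q.2 ∧
      gg la U q.1 q.2 ≤ m} ⊆ ⋃ n : ℕ, HPm.Rg la U ms m (1 / ((n : ℝ) + 1)) a s := by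
    rintro q ⟨h1, h2, h3, h4, h5⟩
    obtain ⟨n, hn⟩ := exists_nat_one_div_lt h2
    exact mem_iUnion.2 ⟨n, h1, hn, h3, h4, h5⟩
  refine (lintegral_mono_set hsub).trans ?_
  rw [hdir]
  refine iSup_le fun n => (key _ (by positivity) a s).trans (le_of_eq ?_)
  have h3 : (2 : ℝ≥0∞) = ENNReal.ofReal 2 := by
    rw [ENNReal.ofReal_ofNat]
  have h4 : (((C * m ^ 2).toNNReal : ℝ≥0) : ℝ≥0∞) = ENNReal.ofReal (C * m ^ 2) := rfl
  rw [h3, h4, ← ENNReal.ofReal_mul two_pos.le, ← ENNReal.ofReal_mul (by positivity)]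
  congr 1
  ring

end Pool.Agent.Work.MP_055a27_an.Cr3
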