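import Pool.Agent.Work.MP_055a27_an.Cr3.Stmts

/-!
# The Harnack inequality for analytic functions with non-negative real part
-/

open MeasureTheory Set Filter Topology Complex Metric
open scoped ENNReal NNReal ComplexConjugate

namespace Pool.Agent.Work.MP_055a27_an.Cr3

namespace Har

/-- The Cayley transform of `G`. -/
noncomputable def ph (G : ℂ → ℂ) (c w : ℂ) : ℂ := (G w - G c) / (G w + conj (G c))

lemma den_ne {G : ℂ → ℂ} {c w : ℂ} (hc : 0 < (G c).re) (hw : 0 ≤ (G w).re) :
    G w + conj (G c) ≠ 0 := by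
  intro h
  have h1 : (G w + conj (G c)).re = 0 := by rw [h]; rfl
  rw [Complex.add_re, Complex.conj_re] at h1
  linarith

lemma ph_diff {G : ℂ → ℂ} {c : ℂ} {R : ℝ} (hd : DifferentiableOn ℂ G (ball c R))
    (hp : ∀ w ∈ ball c R, 0 ≤ (G w).re) (hc : 0 < (G c).re) :
    DifferentiableOn ℂ (ph G c) (ball c R) := by
  unfold ph
  exact (hd.sub_const _).div (hd.add_const _) fun w hw => den_ne hc (hp w hw)

lemma ph_maps {G : ℂ → ℂ} {c : ℂ} {R : ℝ} (hp : ∀ w ∈ ball c R, 0 ≤ (G w).re)
    (hc : 0 < (G c).re) : MapsTo (ph G c) (ball c R) (closedBall (ph G c c) 1) := by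
  intro w hw
  have h0 : ph G c c = 0 := by simp [ph]
  rw [h0, mem_closedBall_zero_iff]
  unfold ph
  have hne := den_ne hc (hp w hw)
  rw [norm_div, div_le_one (norm_pos_iff.2 hne)]
  rw [← sq_le_sq₀ (norm_nonneg _) (norm_nonneg _), ← Complex.normSq_eq_norm_sq,
    ← Complex.normSq_eq_norm_sq, Complex.normSq_apply, Complex.normSq_apply]
  simp only [Complex.sub_re, Complex.sub_im, Complex.add_re, Complex.add_im, Complex.conj_re,
    Complex.conj_im]
  nlinarith [mul_nonneg (hp w hw) hc.le]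

lemma strict {G : ℂ → ℂ} {c : ℂ} {R : ℝ} (hR : 0 < R) (hd : DifferentiableOn ℂ G (ball c R))
    (hp : ∀ w ∈ ball c R, 0 ≤ (G w).re) (hc : 0 < (G c).re) :
    (∀ w ∈ ball c (R / 2), (G c).re / 3 ≤ (G w).re ∧ (G w).re ≤ 3 * (G c).re) ∧
      ‖deriv G c‖ ≤ 2 / R * (G c).re := by
  have h0 : ph G c c = 0 := by simp [ph]
  constructor
  · intro w hw
    have hwR : w ∈ ball c R := ball_subset_ball (by linarith) hw
    have h1 := Complex.dist_le_div_mul_dist_of_mapsTo_ball (ph_diff hd hp hc) (ph_maps hp hc) hwR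
    rw [h0, dist_zero_right] at h1
    have h2 : 1 / R * dist w c ≤ 1 / 2 := by
      have : dist w c < R / 2 := mem_ball.1 hw
      rw [div_mul_eq_mul_div, one_mul, div_le_iff₀ hR]
      linarith
    have h3 := h1.trans h2
    unfold ph at h3
    have hne := den_ne hc (hp w hwR)
    rw [norm_div, div_le_iff₀ (norm_pos_iff.2 hne)] at h3
    have h4 : ‖G w - G c‖ ^ 2 ≤ (1 / 2 * ‖G w + conj (G c)‖) ^ 2 :=
      pow_le_pow_left₀ (norm_nonneg _) h3 2
    rw [mul_pow, ← Complex.normSq_eq_norm_sq, ← Complex.normSq_eq_norm_sq, Complex.normSq_apply,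
      Complex.normSq_apply] at h4
    simp only [Complex.sub_re, Complex.sub_im, Complex.add_re, Complex.add_im, Complex.conj_re,
      Complex.conj_im] at h4
    have h5 : ((G w).re - (G c).re) ^ 2 ≤ (1 / 2 * ((G w).re + (G c).re)) ^ 2 := by
      nlinarith [mul_self_nonneg ((G w).im - (G c).im)]
    have h6 := abs_le_of_sq_le_sq' h5 (by nlinarith [hp w hwR])
    constructor <;> linarith [h6.1, h6.2]
  · have h1 := Complex.norm_deriv_le_div_of_mapsTo_ball (ph_diff hd hp hc) (ph_maps hp hc) hR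
    have hGd : DifferentiableAt ℂ G c := hd.differentiableAt (ball_mem_nhds c hR)
    have hne : G c + conj (G c) ≠ 0 := den_ne hc hc.le
    have h2 : HasDerivAt (ph G c) ((deriv G c * (G c + conj (G c)) -
        (G c - G c) * deriv G c) / (G c + conj (G c)) ^ 2) c :=
      (hGd.hasDerivAt.sub_const (G c)).div (hGd.hasDerivAt.add_const (conj (G c))) hne
    rw [h2.deriv] at h1
    have h3 : (deriv G c * (G c + conj (G c)) - (G c - G c) * deriv G c) /
        (G c + conj (G c)) ^ 2 = deriv G c / (G c + conj (G c)) := by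
      field_simp
      ring
    rw [h3, Complex.add_conj, norm_div, Complex.norm_real, Real.norm_eq_abs,
      abs_of_pos (by linarith), div_le_div_iff₀ (by linarith) hR] at h1
    rw [div_mul_eq_mul_div, le_div_iff₀ hR]
    linarith

/-- A closed inequality from the perturbed ones. -/
lemma lim {a b k : ℝ} (h : ∀ ε : ℝ, 0 < ε → a ≤ b + k * ε) : a ≤ b := by
  have h1 : Tendsto (fun ε : ℝ => b + k * ε) (𝓝[>] 0) (𝓝 (b + k * 0)) := by
    have : Continuous (fun ε : ℝ => b + k * ε) := by fun_prop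
    exact (this.tendsto 0).mono_left nhdsWithin_le_nhds
  rw [mul_zero, add_zero] at h1
  exact ge_of_tendsto h1 (eventually_nhdsWithin_of_forall fun ε hε => h ε hε)

lemma pert {G : ℂ → ℂ} {c : ℂ} {R : ℝ} (hR : 0 < R) (hd : DifferentiableOn ℂ G (ball c R))
    (hp : ∀ w ∈ ball c R, 0 ≤ (G w).re) {ε : ℝ} (hε : 0 < ε) :
    (∀ w ∈ ball c (R / 2), ((G c).re + ε) / 3 ≤ (G w).re + ε ∧
      (G w).re + ε ≤ 3 * ((G c).re + ε)) ∧ ‖deriv G c‖ ≤ 2 / R * ((G c).re + ε) := by
  have h1 := strict (G := fun w => G w + (ε : ℂ)) hR (hd.add_const _)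
    (fun w hw => by simp only [Complex.add_re, Complex.ofReal_re]; linarith [hp w hw])
    (by simp only [Complex.add_re, Complex.ofReal_re]; linarith [hp c (mem_ball_self hR)])
  simp only [Complex.add_re, Complex.ofReal_re, deriv_add_const] at h1
  exact h1

end Har

open Har in
theorem stHar : StHar := by
  intro G c R hR hd hp w hw
  have hb : ball w (R / 2) ⊆ ball c R := by
    intro z hz
    have h1 := mem_ball.1 hz
    have h2 := mem_ball.1 hw
    have h3 := dist_triangle z w c
    exact mem_ball.2 (by linarith)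
  have hup : (G w).re ≤ 3 * (G c).re := by
    refine lim (k := 2) fun ε hε => ?_
    have := ((pert hR hd hp hε).1 w hw).2
    linarith
  refine ⟨?_, hup, ?_⟩
  · refine lim (k := 2 / 3) fun ε hε => ?_
    have := ((pert hR hd hp hε).1 w hw).1
    linarith
  · have h4 : ‖deriv G w‖ ≤ 4 / R * (G w).re := by
      refine lim (k := 4 / R) fun ε hε => ?_
      have := (pert (c := w) (R := R / 2) (by linarith) (hd.mono hb)
        (fun z hz => hp z (hb hz)) hε).2
      have e : 2 / (R / 2) = 4 / R := by field_simp; norm_num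
      rw [e, mul_add] at this
      exact this
    refine h4.trans ?_
    have h5 : 4 / R * (G w).re ≤ 4 / R * (3 * (G c).re) :=
      mul_le_mul_of_nonneg_left hup (by positivity)
    refine h5.trans (le_of_eq ?_)
    ring

end Pool.Agent.Work.MP_055a27_an.Cr3
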