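import Pool.Agent.Work.MP_055a27_an.Cr3.Stmts2
import Pool.Agent.Work.MP_055a27_an.Bd.B08
import Pool.Agent.Work.MP_055a27_an.Crit.AperG

/-!
# The shadow condition, second part: the high part
-/

open MeasureTheory Set Filter Topology Complex Metric
open scoped ENNReal NNReal

namespace Pool.Agent.Work.MP_055a27_an.Cr3

open Crit (lg cc CC Pk hU)
open Nv (mx)

namespace High2

/-- The integrand over the high points. -/
noncomputable def Ph (p r la ms : ℝ) (U : ℝ → ℝ) (k : ℝ → ℝ≥0∞) : ℝ × ℝ → ℝ≥0∞ :=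
  {q : ℝ × ℝ | 0 < q.2 ∧ ms ≤ gg la U q.1 q.2}.indicator fun q =>
    ENNReal.ofReal ((gg la U q.1 q.2) ^ 4 / q.2 ^ 2 *
      Real.exp (-(r * poisson (lg U) q.1 q.2 / p))) * (Pk k q.1 q.2) ^ r

/-- The integral over the part of the cone at heights comparable to `y`. -/
noncomputable def II (P : ℝ × ℝ → ℝ≥0∞) (μ2 x y : ℝ) : ℝ≥0∞ :=
  ∫⁻ q in cone μ2 x, {q : ℝ × ℝ | y / 4 ≤ q.2 ∧ q.2 ≤ 4 * y}.indicator P q

lemma meas_ext {f : ℝ × ℝ → ℝ} (hf : ContinuousOn f {q | 0 < q.2}) :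
    ∃ f' : ℝ × ℝ → ℝ, Measurable f' ∧ ∀ q : ℝ × ℝ, 0 < q.2 → f' q = f q := by
  classical
  have hS : MeasurableSet {q : ℝ × ℝ | 0 < q.2} := measurableSet_lt measurable_const measurable_snd
  refine ⟨Set.piecewise {q | 0 < q.2} f 0, ?_, ?_⟩
  · exact hf.measurable_piecewise continuousOn_const hS
  · intro q hq
    exact Set.piecewise_eq_of_mem _ _ _ hq

lemma Ph_meas (hBas : StBas) {p r la ms : ℝ} {U : ℝ → ℝ} (hla : 0 < la) (hW : Wt U)
    {k : ℝ → ℝ≥0∞} (hk : AEMeasurable k volume) : Measurable (Ph p r la ms U k) := by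
  obtain ⟨g', hg', e1⟩ := meas_ext (hBas.2.1 la U hla hW).1
  obtain ⟨h', hh', e2⟩ := meas_ext (Crit.stPCont (lg U) hW.2.2)
  have hS := ((hBas.2.1 la U hla hW).2.2 ms).2
  have e : Ph p r la ms U k = {q : ℝ × ℝ | 0 < q.2 ∧ ms ≤ gg la U q.1 q.2}.indicator fun q =>
      ENNReal.ofReal ((g' q) ^ 4 / q.2 ^ 2 *
        Real.exp (-(r * h' q / p))) * (Pk k q.1 q.2) ^ r := by
    unfold Ph
    refine indicator_congr fun q hq => ?_
    rw [e1 q hq.1, e2 q hq.1]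
  rw [e]
  refine Measurable.indicator ?_ hS
  refine Measurable.mul (Measurable.ennreal_ofReal ?_) ((H2.Pk_meas hk).pow_const r)
  exact ((hg'.pow_const 4).div (measurable_snd.pow_const 2)).mul
    (Real.measurable_exp.comp (((hh'.const_mul r).div_const p).neg))

lemma ZZ_eq (hBas : StBas) {la : ℝ} {U : ℝ → ℝ} (hla : 0 < la) (hW : Wt U) (p r lam ms : ℝ)
    (k : ℝ → ℝ≥0∞) (x : ℝ) :
    ZZ p r lam la ms 4 U k x = ∫⁻ q in cone lam x, Ph p r la ms U k q := by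
  have hS := ((hBas.2.1 la U hla hW).2.2 ms).2
  unfold ZZ Ph
  rw [setLIntegral_indicator hS]
  have e : cone lam x ∩ {q : ℝ × ℝ | ms ≤ gg la U q.1 q.2} =
      {q : ℝ × ℝ | 0 < q.2 ∧ ms ≤ gg la U q.1 q.2} ∩ cone lam x := by
    ext q
    constructor
    · rintro ⟨h1, h2⟩
      exact ⟨⟨h1.2, h2⟩, h1⟩
    · rintro ⟨⟨_, h2⟩, h1⟩
      exact ⟨h1, h2⟩
  rw [e]

lemma meas_B (y : ℝ) : MeasurableSet {q : ℝ × ℝ | y / 4 ≤ q.2 ∧ q.2 ≤ 4 * y} :=
  (measurableSet_le measurable_const measurable_snd).inter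
    (measurableSet_le measurable_snd measurable_const)

lemma II_eq (hBas : StBas) {la : ℝ} {U : ℝ → ℝ} (hla : 0 < la) (hW : Wt U) (p ω μ2 ms : ℝ)
    (k : ℝ → ℝ≥0∞) (x y : ℝ) :
    ∫⁻ q in cone μ2 x ∩ {q : ℝ × ℝ | ms ≤ gg la U q.1 q.2 ∧ y / 4 ≤ q.2 ∧ q.2 ≤ 4 * y},
      ENNReal.ofReal ((gg la U q.1 q.2) ^ 4 / q.2 ^ 2 *
        Real.exp (-(2 * ω * poisson (lg U) q.1 q.2 / p))) * (Pk k q.1 q.2) ^ (2 * ω) =
      II (Ph p (2 * ω) la ms U k) μ2 x y := by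
  have hS := ((hBas.2.1 la U hla hW).2.2 ms).2
  unfold II Ph
  rw [setLIntegral_indicator (meas_B y), setLIntegral_indicator hS]
  have e : cone μ2 x ∩ {q : ℝ × ℝ | ms ≤ gg la U q.1 q.2 ∧ y / 4 ≤ q.2 ∧ q.2 ≤ 4 * y} =
      {q : ℝ × ℝ | 0 < q.2 ∧ ms ≤ gg la U q.1 q.2} ∩
        ({q : ℝ × ℝ | y / 4 ≤ q.2 ∧ q.2 ≤ 4 * y} ∩ cone μ2 x) := by
    ext q
    constructor
    · rintro ⟨h1, h2, h3⟩
      exact ⟨⟨h1.2, h2⟩, h3, h1⟩
    · rintro ⟨⟨_, h2⟩, h3, h1⟩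
      exact ⟨h1, h2, h3⟩
  rw [e]

/-- The inner integral of the interchange. -/
lemma inner {lam x t : ℝ} (hlam : 0 < lam) (ht : 0 < t) (c : ℝ≥0∞) :
    ∫⁻ q in cone lam x, ENNReal.ofReal (1 / q.2 ^ 2) *
      (if q.2 / 4 ≤ t ∧ t ≤ 4 * q.2 then c else 0) ≤ ENNReal.ofReal (480 * lam) * c := by
  have h1 : ∀ q ∈ cone lam x, ENNReal.ofReal (1 / q.2 ^ 2) *
      (if q.2 / 4 ≤ t ∧ t ≤ 4 * q.2 then c else 0) ≤
      (Icc (x - 4 * lam * t) (x + 4 * lam * t) ×ˢ Icc (t / 4) (4 * t)).indicator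
        (fun _ => ENNReal.ofReal (16 / t ^ 2) * c) q := by
    intro q hq
    by_cases h : q.2 / 4 ≤ t ∧ t ≤ 4 * q.2
    · have hq2 : 0 < q.2 := hq.2
      have hm : q ∈ Icc (x - 4 * lam * t) (x + 4 * lam * t) ×ˢ Icc (t / 4) (4 * t) := by
        have h3 := abs_le.1 hq.1
        have h4 : lam * q.2 ≤ 4 * lam * t := by nlinarith [h.1]
        refine ⟨⟨by linarith [h3.2], by linarith [h3.1]⟩, ⟨by linarith [h.2], by linarith [h.1]⟩⟩
      rw [if_pos h, indicator_of_mem hm]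
      have h5 : t ^ 2 ≤ (4 * q.2) ^ 2 := pow_le_pow_left₀ ht.le h.2 2
      have h6 : 1 / q.2 ^ 2 ≤ 16 / t ^ 2 := by
        rw [div_le_div_iff₀ (by positivity) (by positivity)]
        nlinarith
      exact mul_le_mul' (ENNReal.ofReal_le_ofReal h6) le_rfl
    · rw [if_neg h, mul_zero]
      exact zero_le
  calc _ ≤ ∫⁻ q in cone lam x, (Icc (x - 4 * lam * t) (x + 4 * lam * t) ×ˢ
        Icc (t / 4) (4 * t)).indicator (fun _ => ENNReal.ofReal (16 / t ^ 2) * c) q :=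
        setLIntegral_mono' (H2.cone_meas lam x) h1
    _ ≤ ∫⁻ q, (Icc (x - 4 * lam * t) (x + 4 * lam * t) ×ˢ
        Icc (t / 4) (4 * t)).indicator (fun _ => ENNReal.ofReal (16 / t ^ 2) * c) q :=
        setLIntegral_le_lintegral _ _
    _ = ENNReal.ofReal (480 * lam) * c := by
        rw [lintegral_indicator (measurableSet_Icc.prod measurableSet_Icc), setLIntegral_const,
          Measure.volume_eq_prod, Measure.prod_prod, Real.volume_Icc, Real.volume_Icc,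
          mul_right_comm]
        congr 1
        rw [← ENNReal.ofReal_mul (by nlinarith), ← ENNReal.ofReal_mul (by positivity)]
        congr 1
        field_simp
        ring

lemma tonelli {P : ℝ × ℝ → ℝ≥0∞} (hP : Measurable P) {lam μ2 x : ℝ} (hlam : 0 < lam) :
    ∫⁻ q in cone lam x, ENNReal.ofReal (1 / q.2 ^ 2) * II P μ2 x q.2 ≤
      ENNReal.ofReal (480 * lam) * ∫⁻ q in cone μ2 x, P q := by
  have hm : Measurable (fun r : (ℝ × ℝ) × (ℝ × ℝ) => ENNReal.ofReal (1 / r.1.2 ^ 2) *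
      (if r.1.2 / 4 ≤ r.2.2 ∧ r.2.2 ≤ 4 * r.1.2 then P r.2 else 0)) := by
    have h1 : MeasurableSet {r : (ℝ × ℝ) × (ℝ × ℝ) | r.1.2 / 4 ≤ r.2.2} :=
      measurableSet_le (by fun_prop) (by fun_prop)
    have h2 : MeasurableSet {r : (ℝ × ℝ) × (ℝ × ℝ) | r.2.2 ≤ 4 * r.1.2} :=
      measurableSet_le (by fun_prop) (by fun_prop)
    refine Measurable.mul (Measurable.ennreal_ofReal (by fun_prop)) ?_
    exact Measurable.ite (h1.inter h2) (hP.comp measurable_snd) measurable_const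
  have e1 : ∀ q : ℝ × ℝ, ENNReal.ofReal (1 / q.2 ^ 2) * II P μ2 x q.2 =
      ∫⁻ q' in cone μ2 x, ENNReal.ofReal (1 / q.2 ^ 2) *
        (if q.2 / 4 ≤ q'.2 ∧ q'.2 ≤ 4 * q.2 then P q' else 0) := by
    intro q
    rw [lintegral_const_mul' _ _ ENNReal.ofReal_ne_top]
    congr 1
    unfold II
    refine lintegral_congr fun q' => ?_
    by_cases h : q.2 / 4 ≤ q'.2 ∧ q'.2 ≤ 4 * q.2
    · rw [if_pos h]
      exact indicator_of_mem (s := {q' : ℝ × ℝ | q.2 / 4 ≤ q'.2 ∧ q'.2 ≤ 4 * q.2}) h P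
    · rw [if_neg h]
      exact indicator_of_notMem (s := {q' : ℝ × ℝ | q.2 / 4 ≤ q'.2 ∧ q'.2 ≤ 4 * q.2}) h P
  simp_rw [e1]
  rw [lintegral_lintegral_swap hm.aemeasurable, ← lintegral_const_mul' _ _ ENNReal.ofReal_ne_top]
  exact setLIntegral_mono' (H2.cone_meas μ2 x) fun q' hq' => inner hlam hq'.2 (P q')

lemma alg {X N Iv : ℝ≥0∞} {CP CS : ℝ≥0} {CG ω : ℝ} (hω : 0 < ω)
    (h : X ≤ CP * N ^ (1 - ω) * (ENNReal.ofReal CG * (CS * Iv) ^ (1 / (2 * ω))) ^ ω) :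
    X ^ 2 ≤ (CP ^ 2 * ENNReal.ofReal CG ^ (2 * ω) * CS) * N ^ (2 - 2 * ω) * Iv := by
  have e1 : (N ^ (1 - ω)) ^ 2 = N ^ (2 - 2 * ω) := by
    rw [← ENNReal.rpow_natCast, ← ENNReal.rpow_mul]
    congr 1
    push_cast
    ring
  have e2 : ((ENNReal.ofReal CG * (CS * Iv) ^ (1 / (2 * ω))) ^ ω) ^ 2 =
      ENNReal.ofReal CG ^ (2 * ω) * (CS * Iv) := by
    rw [← ENNReal.rpow_natCast, ← ENNReal.rpow_mul]
    have e3 : ω * ((2 : ℕ) : ℝ) = 2 * ω := by push_cast; ring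
    rw [e3, ENNReal.mul_rpow_of_nonneg _ _ (by positivity), ← ENNReal.rpow_mul]
    have e4 : 1 / (2 * ω) * (2 * ω) = 1 := by field_simp
    rw [e4, ENNReal.rpow_one]
  calc X ^ 2 ≤ (CP * N ^ (1 - ω) *
        (ENNReal.ofReal CG * (CS * Iv) ^ (1 / (2 * ω))) ^ ω) ^ 2 := by gcongr
    _ = _ := by
        rw [mul_pow, mul_pow, e1, e2]
        ring

/-- Pointwise bound for the gradient. -/
lemma point {lam b μ1 R ω : ℝ} {CP CS : ℝ≥0} {CG : ℝ} {la m0 : ℝ} {U : ℝ → ℝ} {p : ℝ}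
    (hlam : 0 < lam) (hlb : lam < b) (hμ1 : 0 < μ1) (hR : R = lam + 2 * μ1) (hω : 0 < ω)
    (hω2 : ω ≤ 1 / 2) (hCG : 1 ≤ CG) (hm0 : 1 ≤ m0)
    (hP : ∀ f : ℝ → ℝ, Admissible f → ∀ (x : ℝ) (q : ℝ × ℝ), q ∈ cone lam x →
      ntMax b f x ≠ ∞ → ∀ A : ℝ≥0∞, A ≠ ∞ →
      (∀ w : ℝ × ℝ, |w.1 - x| ≤ μ1 * w.2 → q.2 / 2 ≤ w.2 → w.2 ≤ 2 * q.2 →
        ENNReal.ofReal (w.2 * ‖dschw f ((w.1 : ℂ) + w.2 * I)‖) ≤ A) →
      ENNReal.ofReal (q.2 * ‖dschw f ((q.1 : ℂ) + q.2 * I)‖) ≤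
        CP * (ntMax b f x) ^ (1 - ω) * A ^ ω)
    (hG : ∀ f : ℝ → ℝ, Admissible f → ∀ s y : ℝ, 0 < y → 1 ≤ gg la U s y →
      ENNReal.ofReal ‖dschw f (s + y * I)‖ ≤
        ENNReal.ofReal (CG * (gg la U s y / y) * Real.exp (-(poisson (lg U) s y / p))) *
          Pk (hU U b p f) s y)
    {f : ℝ → ℝ} (hf : Admissible f) {x : ℝ} {q : ℝ × ℝ} (hq : q ∈ cone lam x)
    (hqS : q ∉ SS la R m0 U) (hN : ntMax b f x ≠ ∞) {Iv : ℝ≥0∞}
    (hS : ∀ w : ℝ × ℝ, |w.1 - x| ≤ μ1 * w.2 → q.2 / 2 ≤ w.2 → w.2 ≤ 2 * q.2 →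
      m0 < gg la U w.1 w.2 →
      (ENNReal.ofReal (gg la U w.1 w.2 * Real.exp (-(poisson (lg U) w.1 w.2 / p))) *
        Pk (hU U b p f) w.1 w.2) ^ (2 * ω) ≤ CS * Iv) :
    ENNReal.ofReal (gradSq f q.1 q.2) ≤ (CP ^ 2 * ENNReal.ofReal CG ^ (2 * ω) * CS + 1) *
      (ntMax b f x) ^ (2 - 2 * ω) * (ENNReal.ofReal (1 / q.2 ^ 2) * Iv) := by
  have hq2 : 0 < q.2 := hq.2
  by_cases hI : Iv = ∞
  · by_cases hN0 : ntMax b f x = 0
    · have h1 : x ∈ vset (schw f) b 0 := by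
        rw [← NT_le_iff le_rfl, ← ntMax_eq hf, hN0]
        exact zero_le
      have h2 := vset_grad (schw_diff hf) hlam hlb h1 hq
      have h3 : gradSq f q.1 q.2 = gsq (schw f) q := by
        rw [gradSq_eq hf hq2]
        unfold gsq
        rw [(hasDerivAt_schw hf (mem_uhp (z := q.1) hq2)).deriv]
      have h4 : gradSq f q.1 q.2 ≤ 0 := by
        rw [h3]
        refine h2.trans (le_of_eq ?_)
        simp
      rw [ENNReal.ofReal_of_nonpos h4]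
      exact zero_le
    · have h1 : ENNReal.ofReal (1 / q.2 ^ 2) ≠ 0 := by
        rw [Ne, ENNReal.ofReal_eq_zero, not_le]
        positivity
      have h2 : (CP ^ 2 * ENNReal.ofReal CG ^ (2 * ω) * CS + 1) *
          (ntMax b f x) ^ (2 - 2 * ω) ≠ 0 := by
        refine mul_ne_zero (ne_of_gt (lt_of_lt_of_le one_pos le_add_self)) ?_
        rw [Ne, ENNReal.rpow_eq_zero_iff, not_or]
        exact ⟨fun h => hN0 h.1, fun h => hN h.1⟩
      rw [hI, ENNReal.mul_top h1, ENNReal.mul_top h2]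
      exact le_top
  · have hA : ENNReal.ofReal CG * (CS * Iv) ^ (1 / (2 * ω)) ≠ ∞ :=
      ENNReal.mul_ne_top ENNReal.ofReal_ne_top
        (ENNReal.rpow_ne_top_of_nonneg (by positivity) (ENNReal.mul_ne_top ENNReal.coe_ne_top hI))
    have h1 := hP f hf x q hq hN _ hA (by
      intro w hw1 hw2 hw3
      have hw0 : 0 < w.2 := by linarith
      have hgw : m0 < gg la U w.1 w.2 := by
        by_contra hle
        rw [not_lt] at hle
        apply hqS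
        refine ⟨hq2, w, ?_, hw2, hw3, hle⟩
        have h2 := hq.1
        calc |w.1 - q.1| = |(w.1 - x) + (x - q.1)| := by ring_nf
          _ ≤ |w.1 - x| + |x - q.1| := abs_add_le _ _
          _ ≤ R * q.2 := by rw [hR]; nlinarith
      have h3 := hG f hf w.1 w.2 hw0 (hm0.trans hgw.le)
      have h4 := hS w hw1 hw2 hw3 hgw
      have h5 : ENNReal.ofReal (gg la U w.1 w.2 * Real.exp (-(poisson (lg U) w.1 w.2 / p))) *
          Pk (hU U b p f) w.1 w.2 ≤ (CS * Iv) ^ (1 / (2 * ω)) := by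
        rw [one_div, ENNReal.le_rpow_inv_iff (by positivity)]
        exact h4
      calc ENNReal.ofReal (w.2 * ‖dschw f ((w.1 : ℂ) + w.2 * I)‖)
          = ENNReal.ofReal w.2 * ENNReal.ofReal ‖dschw f ((w.1 : ℂ) + w.2 * I)‖ :=
            ENNReal.ofReal_mul hw0.le
        _ ≤ ENNReal.ofReal w.2 * (ENNReal.ofReal (CG * (gg la U w.1 w.2 / w.2) *
              Real.exp (-(poisson (lg U) w.1 w.2 / p))) * Pk (hU U b p f) w.1 w.2) :=
            mul_le_mul' le_rfl h3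
        _ = ENNReal.ofReal CG * (ENNReal.ofReal (gg la U w.1 w.2 *
              Real.exp (-(poisson (lg U) w.1 w.2 / p))) * Pk (hU U b p f) w.1 w.2) := by
            rw [← mul_assoc (ENNReal.ofReal w.2), ← ENNReal.ofReal_mul hw0.le,
              ← mul_assoc (ENNReal.ofReal CG), ← ENNReal.ofReal_mul (by linarith)]
            congr 2
            field_simp
        _ ≤ _ := mul_le_mul' le_rfl h5)
    have h2 := alg hω h1
    have hgs : ENNReal.ofReal (gradSq f q.1 q.2) = ENNReal.ofReal (1 / q.2 ^ 2) *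
        (ENNReal.ofReal (q.2 * ‖dschw f ((q.1 : ℂ) + q.2 * I)‖)) ^ 2 := by
      rw [gradSq_eq hf hq2, ← ENNReal.ofReal_pow (by positivity),
        ← ENNReal.ofReal_mul (by positivity)]
      congr 1
      field_simp
    rw [hgs]
    calc ENNReal.ofReal (1 / q.2 ^ 2) *
          (ENNReal.ofReal (q.2 * ‖dschw f ((q.1 : ℂ) + q.2 * I)‖)) ^ 2
        ≤ ENNReal.ofReal (1 / q.2 ^ 2) * ((CP ^ 2 * ENNReal.ofReal CG ^ (2 * ω) * CS) *
            (ntMax b f x) ^ (2 - 2 * ω) * Iv) := mul_le_mul' le_rfl h2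
      _ ≤ ENNReal.ofReal (1 / q.2 ^ 2) * ((CP ^ 2 * ENNReal.ofReal CG ^ (2 * ω) * CS + 1) *
            (ntMax b f x) ^ (2 - 2 * ω) * Iv) :=
          mul_le_mul' le_rfl (mul_le_mul' (mul_le_mul' le_self_add le_rfl) le_rfl)
      _ = _ := by ring

/-- Powers and the weight. -/
lemma alg2 {G K N Z u : ℝ≥0∞} {ω p : ℝ} (hω : 0 < ω) (hω2 : ω ≤ 1 / 2) (hp : 0 < p)
    (h : G ≤ K * N ^ (2 - 2 * ω) * Z) :
    G ^ (p / 2) * u ≤ K ^ (p / 2) * ((N ^ p * u) ^ (1 - ω) * (Z ^ (p / (2 * ω)) * u) ^ ω) := by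
  have h1 : G ^ (p / 2) ≤ K ^ (p / 2) * N ^ (p * (1 - ω)) * Z ^ (p / (2 * ω) * ω) := by
    calc G ^ (p / 2) ≤ (K * N ^ (2 - 2 * ω) * Z) ^ (p / 2) :=
          ENNReal.rpow_le_rpow h (by positivity)
      _ = _ := by
          rw [ENNReal.mul_rpow_of_nonneg _ _ (by positivity),
            ENNReal.mul_rpow_of_nonneg _ _ (by positivity), ← ENNReal.rpow_mul]
          congr 2
          · congr 1; ring
          · field_simp
  have h2 : u = u ^ (1 - ω) * u ^ ω := by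
    rw [← ENNReal.rpow_add_of_nonneg _ _ (by linarith) hω.le]
    simp
  calc G ^ (p / 2) * u ≤ (K ^ (p / 2) * N ^ (p * (1 - ω)) * Z ^ (p / (2 * ω) * ω)) * u :=
        mul_le_mul' h1 le_rfl
    _ = (K ^ (p / 2) * N ^ (p * (1 - ω)) * Z ^ (p / (2 * ω) * ω)) * (u ^ (1 - ω) * u ^ ω) := by
        rw [← h2]
    _ = _ := by
        rw [ENNReal.mul_rpow_of_nonneg _ _ (by linarith), ENNReal.mul_rpow_of_nonneg _ _ hω.le,
          ← ENNReal.rpow_mul, ← ENNReal.rpow_mul]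
        ring

end High2

open High2 in
theorem stHigh2 (hBas : StBas) (hSMeas : StSMeas) (hHG : StHG) (hProp : StProp)
    (hSup : StSup) (hH3r : StH3r) : StHigh2 := by
  intro lam b p μ U hlam hlb hp hμ hW hSh
  have hp0 : 0 < p := by linarith
  have hb : 0 < b := hlam.trans hlb
  obtain ⟨CP, ω, hω, hω2, hP⟩ := hProp lam b (μ / 6) (by positivity) hlam hlb
  have hH1 : Hyp (μ / 2) μ U := ⟨by positivity, by linarith, hW, hSh⟩
  have hH2 : Hyp (2 * μ / 3) μ U := ⟨by positivity, by linarith, hW, hSh⟩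
  obtain ⟨ms, hms, CH, hH⟩ := hH3r (μ / 3) (μ / 2) μ p (2 * ω) 4 U (by positivity)
    (by linarith) hH1 hp (by positivity) (by linarith)
  obtain ⟨m0, CS, hm0, hS⟩ := hSup (μ / 2) (2 * μ / 3) μ (μ / 6) (μ / 3) p ω ms U
    (by positivity) (by linarith) (by linarith) (by linarith) hH2 hp0 hω hω2 hms
  obtain ⟨CG, hCG, hG⟩ := hHG (2 * μ / 3) μ b p U hH2 hb hp0
  have hR0 : 0 < lam + 2 * (μ / 6) := by positivity
  have hSm := hSMeas (2 * μ / 3) (lam + 2 * (μ / 6)) m0 U (by positivity) hR0 hW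
  generalize hK : (CP ^ 2 * ENNReal.ofReal CG ^ (2 * ω) * CS + 1) *
    ENNReal.ofReal (480 * lam) = K
  have hKtop : K ≠ ∞ := by
    rw [← hK]
    refine ENNReal.mul_ne_top (ENNReal.add_ne_top.2 ⟨?_, ENNReal.one_ne_top⟩)
      ENNReal.ofReal_ne_top
    exact ENNReal.mul_ne_top (ENNReal.mul_ne_top (ENNReal.pow_ne_top ENNReal.coe_ne_top)
      (ENNReal.rpow_ne_top_of_nonneg (by positivity) ENNReal.ofReal_ne_top)) ENNReal.coe_ne_top
  have hCtop : K ^ (p / 2) * (CH : ℝ≥0∞) ^ ω + 1 ≠ ∞ :=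
    ENNReal.add_ne_top.2 ⟨ENNReal.mul_ne_top (ENNReal.rpow_ne_top_of_nonneg (by positivity) hKtop)
      (ENNReal.rpow_ne_top_of_nonneg hω.le ENNReal.coe_ne_top), ENNReal.one_ne_top⟩
  refine ⟨2 * μ / 3, lam + 2 * (μ / 6), m0, by positivity, by linarith, hR0, hm0,
    (K ^ (p / 2) * (CH : ℝ≥0∞) ^ ω + 1).toNNReal, fun f hf => ?_⟩
  rw [ENNReal.coe_toNNReal hCtop]
  have hk : AEMeasurable (hU U b p f) volume := Crit.AperG.aem_hU hW.2.2 hf b p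
  have hkM : ∫⁻ x, (hU U b p f x) ^ p = ∫⁻ x, (ntMax b f x) ^ p * ENNReal.ofReal (U x) :=
    lintegral_congr_ae (hW.2.1.mono fun x hx => Crit.AperG.hU_pow hp0 hx)
  have hUm : AEMeasurable (fun x => ENNReal.ofReal (U x)) volume :=
    (weight_aemeas hW.1).ennreal_ofReal
  have hFm : AEMeasurable (fun x => (ntMax b f x) ^ p * ENNReal.ofReal (U x)) volume :=
    ((Crit.AperG.meas_nt hf b).pow_const p).aemeasurable.mul hUm
  have hPm : Measurable (Ph p (2 * ω) (μ / 2) ms U (hU U b p f)) :=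
    Ph_meas hBas (by positivity) hW hk
  have hZm : Measurable (fun x => ZZ p (2 * ω) (μ / 3) (μ / 2) ms 4 U (hU U b p f) x) := by
    have h1 : (fun x => ZZ p (2 * ω) (μ / 3) (μ / 2) ms 4 U (hU U b p f) x) =
        fun x => ∫⁻ q : ℝ × ℝ, {r : ℝ × (ℝ × ℝ) | |r.1 - r.2.1| ≤ μ / 3 * r.2.2 ∧
          0 < r.2.2}.indicator (fun r => Ph p (2 * ω) (μ / 2) ms U (hU U b p f) r.2) (x, q) := by
      funext x
      rw [ZZ_eq hBas (by positivity) hW, ← lintegral_indicator (H2.cone_meas _ _)]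
      rfl
    rw [h1]
    exact ((hPm.comp measurable_snd).indicator (H2.T_meas (μ / 3))).lintegral_prod_right'
  have hHm : AEMeasurable (fun x => (ZZ p (2 * ω) (μ / 3) (μ / 2) ms 4 U (hU U b p f) x) ^
      (p / (2 * ω)) * ENNReal.ofReal (U x)) volume := (hZm.pow_const _).aemeasurable.mul hUm
  have hHle := hH (hU U b p f) hk
  rw [hkM] at hHle
  by_cases hM : ∫⁻ x, (ntMax b f x) ^ p * ENNReal.ofReal (U x) = ∞
  · rw [hM, ENNReal.mul_top (ne_of_gt (lt_of_lt_of_le one_pos le_add_self))]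
    exact le_top
  have hNfin : ∀ᵐ x, ntMax b f x ≠ ∞ := by
    filter_upwards [ae_lt_top' hFm hM, hW.2.1] with x hx hUx hN
    rw [hN, ENNReal.top_rpow_of_pos hp0, ENNReal.top_mul] at hx
    · exact lt_irrefl _ hx
    · rw [Ne, ENNReal.ofReal_eq_zero, not_le]
      exact hUx
  have hpt : ∀ᵐ x, (∫⁻ q in cone lam x \ SS (2 * μ / 3) (lam + 2 * (μ / 6)) m0 U,
      ENNReal.ofReal (gradSq f q.1 q.2)) ^ (p / 2) * ENNReal.ofReal (U x) ≤
      K ^ (p / 2) * (((ntMax b f x) ^ p * ENNReal.ofReal (U x)) ^ (1 - ω) *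
        ((ZZ p (2 * ω) (μ / 3) (μ / 2) ms 4 U (hU U b p f) x) ^ (p / (2 * ω)) *
          ENNReal.ofReal (U x)) ^ ω) := by
    filter_upwards [hNfin] with x hN
    apply alg2 hω hω2 hp0
    have hNpow : (ntMax b f x) ^ (2 - 2 * ω) ≠ ∞ :=
      ENNReal.rpow_ne_top_of_nonneg (by linarith) hN
    have hK0 : (CP ^ 2 * ENNReal.ofReal CG ^ (2 * ω) * CS + 1 : ℝ≥0∞) ≠ ∞ := by
      refine ENNReal.add_ne_top.2 ⟨?_, ENNReal.one_ne_top⟩
      exact ENNReal.mul_ne_top (ENNReal.mul_ne_top (ENNReal.pow_ne_top ENNReal.coe_ne_top)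
        (ENNReal.rpow_ne_top_of_nonneg (by positivity) ENNReal.ofReal_ne_top)) ENNReal.coe_ne_top
    calc ∫⁻ q in cone lam x \ SS (2 * μ / 3) (lam + 2 * (μ / 6)) m0 U,
          ENNReal.ofReal (gradSq f q.1 q.2)
        ≤ ∫⁻ q in cone lam x \ SS (2 * μ / 3) (lam + 2 * (μ / 6)) m0 U,
          (CP ^ 2 * ENNReal.ofReal CG ^ (2 * ω) * CS + 1) * (ntMax b f x) ^ (2 - 2 * ω) *
            (ENNReal.ofReal (1 / q.2 ^ 2) *
              II (Ph p (2 * ω) (μ / 2) ms U (hU U b p f)) (μ / 3) x q.2) := by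
          refine setLIntegral_mono' ((H2.cone_meas lam x).diff hSm) fun q hq => ?_
          refine point (μ1 := μ / 6) hlam hlb (by positivity) rfl hω hω2 hCG hm0 hP hG hf hq.1
            hq.2 hN fun w hw1 hw2 hw3 hw4 => ?_
          have h1 := hS (hU U b p f) hk x q.2 hq.1.2 w hw1 hw2 hw3 hw4
          rw [II_eq hBas (by positivity) hW] at h1
          exact h1
      _ ≤ ∫⁻ q in cone lam x,
          (CP ^ 2 * ENNReal.ofReal CG ^ (2 * ω) * CS + 1) * (ntMax b f x) ^ (2 - 2 * ω) *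
            (ENNReal.ofReal (1 / q.2 ^ 2) *
              II (Ph p (2 * ω) (μ / 2) ms U (hU U b p f)) (μ / 3) x q.2) :=
          lintegral_mono_set sdiff_subset
      _ = (CP ^ 2 * ENNReal.ofReal CG ^ (2 * ω) * CS + 1) * (ntMax b f x) ^ (2 - 2 * ω) *
          ∫⁻ q in cone lam x, ENNReal.ofReal (1 / q.2 ^ 2) *
            II (Ph p (2 * ω) (μ / 2) ms U (hU U b p f)) (μ / 3) x q.2 :=
          lintegral_const_mul' _ _ (ENNReal.mul_ne_top hK0 hNpow)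
      _ ≤ (CP ^ 2 * ENNReal.ofReal CG ^ (2 * ω) * CS + 1) * (ntMax b f x) ^ (2 - 2 * ω) *
          (ENNReal.ofReal (480 * lam) * ∫⁻ q in cone (μ / 3) x,
            Ph p (2 * ω) (μ / 2) ms U (hU U b p f) q) := mul_le_mul' le_rfl (tonelli hPm hlam)
      _ = _ := by
          rw [ZZ_eq hBas (by positivity) hW, ← hK]
          ring
  calc _ ≤ ∫⁻ x, K ^ (p / 2) * (((ntMax b f x) ^ p * ENNReal.ofReal (U x)) ^ (1 - ω) *
        ((ZZ p (2 * ω) (μ / 3) (μ / 2) ms 4 U (hU U b p f) x) ^ (p / (2 * ω)) *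
          ENNReal.ofReal (U x)) ^ ω) := lintegral_mono_ae hpt
    _ = K ^ (p / 2) * ∫⁻ x, (((ntMax b f x) ^ p * ENNReal.ofReal (U x)) ^ (1 - ω) *
        ((ZZ p (2 * ω) (μ / 3) (μ / 2) ms 4 U (hU U b p f) x) ^ (p / (2 * ω)) *
          ENNReal.ofReal (U x)) ^ ω) :=
        lintegral_const_mul' _ _ (ENNReal.rpow_ne_top_of_nonneg (by positivity) hKtop)
    _ ≤ K ^ (p / 2) * ((∫⁻ x, (ntMax b f x) ^ p * ENNReal.ofReal (U x)) ^ (1 - ω) *
        (∫⁻ x, (ZZ p (2 * ω) (μ / 3) (μ / 2) ms 4 U (hU U b p f) x) ^ (p / (2 * ω)) *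
          ENNReal.ofReal (U x)) ^ ω) :=
        mul_le_mul' le_rfl (ENNReal.lintegral_mul_norm_pow_le hFm hHm (by linarith) hω.le
          (by ring))
    _ ≤ K ^ (p / 2) * ((∫⁻ x, (ntMax b f x) ^ p * ENNReal.ofReal (U x)) ^ (1 - ω) *
        (CH * ∫⁻ x, (ntMax b f x) ^ p * ENNReal.ofReal (U x)) ^ ω) :=
        mul_le_mul' le_rfl (mul_le_mul' le_rfl (ENNReal.rpow_le_rpow hHle hω.le))
    _ = K ^ (p / 2) * (CH : ℝ≥0∞) ^ ω *
        ((∫⁻ x, (ntMax b f x) ^ p * ENNReal.ofReal (U x)) ^ (1 - ω) *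
          (∫⁻ x, (ntMax b f x) ^ p * ENNReal.ofReal (U x)) ^ ω) := by
        rw [ENNReal.mul_rpow_of_nonneg _ _ hω.le]
        ring
    _ = K ^ (p / 2) * (CH : ℝ≥0∞) ^ ω *
        ∫⁻ x, (ntMax b f x) ^ p * ENNReal.ofReal (U x) := by
        rw [← ENNReal.rpow_add_of_nonneg _ _ (by linarith) hω.le, sub_add_cancel,
          ENNReal.rpow_one]
    _ ≤ _ := mul_le_mul' le_self_add le_rfl

end Pool.Agent.Work.MP_055a27_an.Cr3
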