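import Pool.Agent.Work.MP_055a27_an.Cr3.Stmts

/-!
# Representation of the Poisson integral by a kernel with fast decay
-/

open MeasureTheory Set Filter Topology Complex Metric
open scoped ENNReal NNReal

namespace Pool.Agent.Work.MP_055a27_an.Cr3

open Crit (lg cc CC Pk hU)

namespace Rep

lemma int0 {f : ℝ → ℝ} (hf : Admissible f) {z y : ℝ} (hy : 0 < y) :
    Integrable (fun t : ℝ => y * f t / ((z - t) ^ 2 + y ^ 2)) volume := by
  set w : ℂ := z + y * I with hw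
  have hwim : w.im = y := by simp [hw]
  set C : ℝ := 2 + (1 + 2 * ‖w‖ ^ 2) / y ^ 2 with hC
  have hn : ∀ t : ℝ, ‖w - (t : ℂ)‖ ^ 2 = (z - t) ^ 2 + y ^ 2 := by
    intro t
    rw [← Complex.normSq_eq_norm_sq, Complex.normSq_apply]
    simp [hw]
    ring
  have hb : ∀ t : ℝ, ‖y * (1 + t ^ 2) / ((z - t) ^ 2 + y ^ 2)‖ ≤ y * C := by
    intro t
    have h1 := one_add_sq_le hy (le_of_eq hwim.symm) t
    rw [hn t] at h1
    rw [Real.norm_eq_abs, abs_of_nonneg (by positivity), div_le_iff₀ (by positivity)]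
    calc y * (1 + t ^ 2) ≤ y * ((2 + (1 + 2 * ‖w‖ ^ 2) / y ^ 2) * ((z - t) ^ 2 + y ^ 2)) :=
          mul_le_mul_of_nonneg_left h1 hy.le
      _ = _ := by rw [hC]; ring
  have hf' : Integrable (fun t : ℝ => f t / (1 + t ^ 2)) volume := hf
  refine (hf'.mul_bdd (c := y * C) (g := fun t : ℝ => y * (1 + t ^ 2) / ((z - t) ^ 2 + y ^ 2))
    ?_ (Eventually.of_forall hb)).congr (Eventually.of_forall fun t => ?_)
  · refine Measurable.aestronglyMeasurable ?_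
    fun_prop
  · have h1 : (1 + t ^ 2 : ℝ) ≠ 0 := by positivity
    have h2 : (z - t) ^ 2 + y ^ 2 ≠ 0 := by positivity
    simp only
    field_simp

lemma int1 {f : ℝ → ℝ} (hf : Admissible f) (a x : ℝ) {y : ℝ} (hy : 0 < y) :
    Integrable (fun t : ℝ => (f t - a) * (y / ((x - t) ^ 2 + y ^ 2))) volume := by
  have h1 := int0 hf (z := x) hy
  have h2 := (integrable_kernel (z := x) hy).const_mul (a * y)
  refine (h1.sub h2).congr (Eventually.of_forall fun t => ?_)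
  simp only [Pi.sub_apply]
  ring

lemma int2 {f : ℝ → ℝ} (hf : Admissible f) (a x : ℝ) {y : ℝ} (hy : 0 < y) :
    ∫ t : ℝ, (f t - a) * (y / ((x - t) ^ 2 + y ^ 2)) = Real.pi * (poisson f x y - a) := by
  have h1 := int0 hf (z := x) hy
  have h2 := (integrable_kernel (z := x) hy).const_mul (a * y)
  have h3 : ∫ t : ℝ, (f t - a) * (y / ((x - t) ^ 2 + y ^ 2)) =
      ∫ t : ℝ, (y * f t / ((x - t) ^ 2 + y ^ 2) - a * y * (1 / ((x - t) ^ 2 + y ^ 2))) := by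
    apply integral_congr_ae
    refine Eventually.of_forall fun t => ?_
    simp only
    ring
  rw [h3, integral_sub h1 h2, integral_const_mul, integral_kernel hy, poisson_eq_integral]
  have hp := Real.pi_ne_zero
  field_simp

/-- The node. -/
def kk (K' : ℝ) (j : ℕ) : ℝ := K' * ((j : ℝ) + 1)

lemma kk_ge {K' : ℝ} (h : 1 ≤ K') (j : ℕ) : K' ≤ kk K' j := by
  have : (0 : ℝ) ≤ j := Nat.cast_nonneg j
  unfold kk
  nlinarith

lemma kk_le {K' : ℝ} (h : 1 ≤ K') {j n : ℕ} (hj : j ∈ Finset.range (n + 1)) :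
    kk K' j ≤ kk K' n := by
  have : (j : ℝ) ≤ n := by
    exact_mod_cast Nat.lt_succ_iff.1 (Finset.mem_range.1 hj)
  unfold kk
  nlinarith

/-- The product. -/
noncomputable def PP (K' u : ℝ) (n : ℕ) (σ : ℝ) : ℝ := ∏ j ∈ Finset.range (n + 1),
    (((kk K' j) ^ 2 - u) / (σ + (kk K' j) ^ 2))

lemma fac_low {k u σ : ℝ} (hk : 1 ≤ k ^ 2) (hu : k ^ 2 / 2 ≤ k ^ 2 - u) (hσ : 0 ≤ σ) :
    1 / 2 * (1 / (1 + σ)) ≤ (k ^ 2 - u) / (σ + k ^ 2) := by
  rw [← mul_div_assoc, mul_one, div_le_div_iff₀ (by linarith) (by linarith)]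
  have h1 : k ^ 2 / 2 * (1 + σ) ≤ (k ^ 2 - u) * (1 + σ) :=
    mul_le_mul_of_nonneg_right hu (by linarith)
  have h2 : σ ≤ k ^ 2 * σ := le_mul_of_one_le_left hσ hk
  linarith

lemma fac_up {k u σ B : ℝ} (hk : 1 ≤ k ^ 2) (hu : 0 ≤ u) (hB : k ^ 2 ≤ B) (hσ : 0 ≤ σ) :
    (k ^ 2 - u) / (σ + k ^ 2) ≤ B * (1 / (1 + σ)) := by
  rw [mul_one_div, div_le_div_iff₀ (by linarith) (by linarith)]
  have h1 : (k ^ 2 - u) * (1 + σ) ≤ B * (1 + σ) :=
    mul_le_mul_of_nonneg_right (by linarith) (by linarith)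
  have h2 : B * (1 + σ) ≤ B * (σ + k ^ 2) :=
    mul_le_mul_of_nonneg_left (by linarith) (by linarith)
  linarith

lemma sq_ge {K' : ℝ} (h : 1 ≤ K') (j : ℕ) : 1 ≤ (kk K' j) ^ 2 :=
  one_le_pow₀ (h.trans (kk_ge h j))

lemma num_ge {K' u : ℝ} (h : 1 ≤ K') (hu : u ≤ K' ^ 2 / 2) (j : ℕ) :
    (kk K' j) ^ 2 / 2 ≤ (kk K' j) ^ 2 - u := by
  have : K' ^ 2 ≤ (kk K' j) ^ 2 := pow_le_pow_left₀ (by linarith) (kk_ge h j) 2
  linarith

lemma PP_low {K' u σ : ℝ} (h : 1 ≤ K') (hu : u ≤ K' ^ 2 / 2) (hσ : 0 ≤ σ) (n : ℕ) :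
    (1 / 2) ^ (n + 1) * (1 / (1 + σ)) ^ (n + 1) ≤ PP K' u n σ := by
  have e : (1 / 2 : ℝ) ^ (n + 1) * (1 / (1 + σ)) ^ (n + 1) =
      ∏ _j ∈ Finset.range (n + 1), (1 / 2 * (1 / (1 + σ))) := by
    rw [Finset.prod_const, Finset.card_range, mul_pow]
  rw [e]
  exact Finset.prod_le_prod (fun j _ => by positivity) fun j _ =>
    fac_low (sq_ge h j) (num_ge h hu j) hσ

lemma PP_up {K' u σ : ℝ} (h : 1 ≤ K') (hu0 : 0 ≤ u) (hu : u ≤ K' ^ 2 / 2) (hσ : 0 ≤ σ) (n : ℕ) :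
    PP K' u n σ ≤ ((kk K' n) ^ 2) ^ (n + 1) * (1 / (1 + σ)) ^ (n + 1) := by
  have e : ((kk K' n) ^ 2) ^ (n + 1) * (1 / (1 + σ)) ^ (n + 1) =
      ∏ _j ∈ Finset.range (n + 1), ((kk K' n) ^ 2 * (1 / (1 + σ))) := by
    rw [Finset.prod_const, Finset.card_range, mul_pow]
  rw [e]
  refine Finset.prod_le_prod (fun j _ => ?_) fun j hj =>
    fac_up (sq_ge h j) hu0 (pow_le_pow_left₀ (by linarith [kk_ge h j]) (kk_le h hj) 2) hσ
  have h1 := num_ge h hu j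
  have h2 := sq_ge h j
  exact div_nonneg (by linarith) (by linarith)

lemma PP_nn {K' u σ : ℝ} (h : 1 ≤ K') (hu : u ≤ K' ^ 2 / 2) (hσ : 0 ≤ σ) (n : ℕ) :
    0 ≤ PP K' u n σ := le_trans (by positivity) (PP_low h hu hσ n)

lemma PP_bd {K' u σ : ℝ} (h : 1 ≤ K') (hu0 : 0 ≤ u) (hu : u ≤ K' ^ 2 / 2) (hσ : 0 ≤ σ) (n : ℕ) :
    PP K' u n σ ≤ ((kk K' n) ^ 2) ^ (n + 1) := by
  refine (PP_up h hu0 hu hσ n).trans ?_
  have : (1 / (1 + σ)) ^ (n + 1) ≤ 1 := by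
    apply pow_le_one₀ (by positivity)
    rw [div_le_one (by linarith)]
    linarith
  exact mul_le_of_le_one_right (by positivity) this

lemma PP_cont {K' u y0 : ℝ} (h : 1 ≤ K') (n : ℕ) :
    Continuous (fun s : ℝ => PP K' u n ((s / y0) ^ 2)) := by
  unfold PP
  refine continuous_finsetProd _ fun j _ => ?_
  refine Continuous.div (by fun_prop) (by fun_prop) fun s => ?_
  have h1 := sq_ge h j
  have h2 := sq_nonneg (s / y0)
  linarith

/-- The kernel. -/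
noncomputable def ka (K' y0 η : ℝ) (n : ℕ) (s : ℝ) : ℝ :=
  1 / Real.pi * (η / (s ^ 2 + η ^ 2) * PP K' ((η / y0) ^ 2) n ((s / y0) ^ 2))

lemma ka_cont {K' y0 η : ℝ} (h : 1 ≤ K') (hη : 0 < η) (n : ℕ) : Continuous (ka K' y0 η n) := by
  unfold ka
  refine continuous_const.mul (Continuous.mul ?_ (PP_cont h n))
  refine Continuous.div (by fun_prop) (by fun_prop) fun s => ?_
  positivity

lemma ka_low {K' y0 η C : ℝ} (h : 1 ≤ K') (hη : 0 < η) (hu : (η / y0) ^ 2 ≤ K' ^ 2 / 2) (n : ℕ)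
    (hC : 4 * 2 ^ (n + 1) ≤ C) (s : ℝ) :
    η / (s ^ 2 + η ^ 2) * (1 / (1 + (s / y0) ^ 2)) ^ (n + 1) ≤ C * ka K' y0 η n s := by
  have hq : 0 ≤ η / (s ^ 2 + η ^ 2) := by positivity
  have hπ4 : Real.pi ≤ 4 := Real.pi_le_four
  have hπ0 : 0 < Real.pi := Real.pi_pos
  have h1 := mul_le_mul_of_nonneg_left (PP_low h hu (sq_nonneg (s / y0)) n) hq
  have hP := PP_nn h hu (sq_nonneg (s / y0)) n
  have e1 : η / (s ^ 2 + η ^ 2) * (1 / (1 + (s / y0) ^ 2)) ^ (n + 1) = 2 ^ (n + 1) *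
      (η / (s ^ 2 + η ^ 2) * ((1 / 2) ^ (n + 1) * (1 / (1 + (s / y0) ^ 2)) ^ (n + 1))) := by
    have e2 : (2 : ℝ) ^ (n + 1) * (1 / 2) ^ (n + 1) = 1 := by
      rw [← mul_pow]; norm_num
    linear_combination (-(η / (s ^ 2 + η ^ 2) * (1 / (1 + (s / y0) ^ 2)) ^ (n + 1))) * e2
  rw [e1]
  have hx : 0 ≤ η / (s ^ 2 + η ^ 2) * PP K' ((η / y0) ^ 2) n ((s / y0) ^ 2) := mul_nonneg hq hP
  calc 2 ^ (n + 1) *
      (η / (s ^ 2 + η ^ 2) * ((1 / 2) ^ (n + 1) * (1 / (1 + (s / y0) ^ 2)) ^ (n + 1)))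
      ≤ 2 ^ (n + 1) * (η / (s ^ 2 + η ^ 2) * PP K' ((η / y0) ^ 2) n ((s / y0) ^ 2)) :=
        mul_le_mul_of_nonneg_left h1 (by positivity)
    _ = (Real.pi * 2 ^ (n + 1)) * ka K' y0 η n s := by
        unfold ka
        field_simp
    _ ≤ C * ka K' y0 η n s := by
        apply mul_le_mul_of_nonneg_right _ (by unfold ka; positivity)
        refine le_trans ?_ hC
        exact mul_le_mul_of_nonneg_right hπ4 (by positivity)

lemma ka_up {K' y0 η C : ℝ} (h : 1 ≤ K') (hη : 0 < η) (hu : (η / y0) ^ 2 ≤ K' ^ 2 / 2) (n : ℕ)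
    (hC : ((kk K' n) ^ 2) ^ (n + 1) ≤ C) (s : ℝ) :
    ka K' y0 η n s ≤ C * (η / (s ^ 2 + η ^ 2) * (1 / (1 + (s / y0) ^ 2)) ^ (n + 1)) := by
  have hq : 0 ≤ η / (s ^ 2 + η ^ 2) := by positivity
  have hπ1 : 1 ≤ Real.pi := by linarith [Real.pi_gt_three]
  have hπ0 : 0 < Real.pi := Real.pi_pos
  have h2 := mul_le_mul_of_nonneg_left (PP_up h (sq_nonneg _) hu (sq_nonneg (s / y0)) n) hq
  have hP := PP_nn h hu (sq_nonneg (s / y0)) n
  have hx : 0 ≤ η / (s ^ 2 + η ^ 2) * PP K' ((η / y0) ^ 2) n ((s / y0) ^ 2) := mul_nonneg hq hP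
  unfold ka
  calc 1 / Real.pi * (η / (s ^ 2 + η ^ 2) * PP K' ((η / y0) ^ 2) n ((s / y0) ^ 2))
      ≤ 1 * (η / (s ^ 2 + η ^ 2) * PP K' ((η / y0) ^ 2) n ((s / y0) ^ 2)) := by
        apply mul_le_mul_of_nonneg_right _ hx
        rw [div_le_one hπ0]; exact hπ1
    _ ≤ η / (s ^ 2 + η ^ 2) * (((kk K' n) ^ 2) ^ (n + 1) *
        (1 / (1 + (s / y0) ^ 2)) ^ (n + 1)) := by rw [one_mul]; exact h2
    _ = ((kk K' n) ^ 2) ^ (n + 1) *
        (η / (s ^ 2 + η ^ 2) * (1 / (1 + (s / y0) ^ 2)) ^ (n + 1)) := by ring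
    _ ≤ C * (η / (s ^ 2 + η ^ 2) * (1 / (1 + (s / y0) ^ 2)) ^ (n + 1)) := by
        exact mul_le_mul_of_nonneg_right hC (by positivity)

lemma ka_int {f : ℝ → ℝ} (hf : Admissible f) {K' y0 η : ℝ} (h : 1 ≤ K') (hη : 0 < η)
    (hu : (η / y0) ^ 2 ≤ K' ^ 2 / 2) (n : ℕ) (x a : ℝ) :
    Integrable (fun t : ℝ => (f t - a) * ka K' y0 η n (x - t)) volume := by
  have hI1 : Integrable (fun t : ℝ => (f t - a) * (η / ((x - t) ^ 2 + η ^ 2)) *
      PP K' ((η / y0) ^ 2) n (((x - t) / y0) ^ 2)) volume := by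
    refine (int1 hf a x hη).mul_bdd (c := ((kk K' n) ^ 2) ^ (n + 1)) ?_
      (Eventually.of_forall fun t => ?_)
    · exact ((PP_cont h n).comp (continuous_const.sub continuous_id)).aestronglyMeasurable
    · rw [Real.norm_eq_abs, abs_of_nonneg (PP_nn h hu (sq_nonneg _) n)]
      exact PP_bd h (sq_nonneg _) hu (sq_nonneg _) n
  refine (hI1.const_mul (1 / Real.pi)).congr (Eventually.of_forall fun t => ?_)
  simp only [ka]
  ring

/-- The identity of the kernels. -/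
lemma ident {K' y0 η : ℝ} (h : 1 ≤ K') (hη : 0 < η) (hy0 : 0 < y0) (n : ℕ) (b : ℕ → ℝ)
    (hbs : ∀ s : ℝ, 0 ≤ s → 0 < s + (η / y0) ^ 2 →
      1 / (s + (η / y0) ^ 2) = (∏ j ∈ Finset.range (n + 1),
        (((K' * ((j : ℝ) + 1)) ^ 2 - (η / y0) ^ 2) / (s + (K' * ((j : ℝ) + 1)) ^ 2))) /
          (s + (η / y0) ^ 2) +
        ∑ j ∈ Finset.range (n + 1), b j / (s + (K' * ((j : ℝ) + 1)) ^ 2)) (s : ℝ) :
    η / (s ^ 2 + η ^ 2) = Real.pi * ka K' y0 η n s +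
        ∑ j ∈ Finset.range (n + 1), b j * (η / (kk K' j * y0)) *
          (kk K' j * y0 / (s ^ 2 + (kk K' j * y0) ^ 2)) := by
  have h := hbs ((s / y0) ^ 2) (sq_nonneg _) (by positivity)
  have hne : s ^ 2 + η ^ 2 ≠ 0 := by positivity
  have e1 : 1 / ((s / y0) ^ 2 + (η / y0) ^ 2) = y0 ^ 2 / (s ^ 2 + η ^ 2) := by
    field_simp
  have e2 : (∏ j ∈ Finset.range (n + 1),
      (((K' * ((j : ℝ) + 1)) ^ 2 - (η / y0) ^ 2) / ((s / y0) ^ 2 + (K' * ((j : ℝ) + 1)) ^ 2))) /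
      ((s / y0) ^ 2 + (η / y0) ^ 2) =
        PP K' ((η / y0) ^ 2) n ((s / y0) ^ 2) * (y0 ^ 2 / (s ^ 2 + η ^ 2)) := by
    rw [← e1, mul_one_div]
    rfl
  rw [e1, e2] at h
  have h5 : ∀ P : ℝ, η / (s ^ 2 + η ^ 2) * P = η / y0 ^ 2 * (P * (y0 ^ 2 / (s ^ 2 + η ^ 2))) := by
    intro P
    field_simp
  have h6 := h5 1
  rw [mul_one, one_mul] at h6
  rw [h6, h, mul_add, Finset.mul_sum]
  congr 1
  · unfold ka
    rw [h5]
    have := Real.pi_ne_zero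
    field_simp
  · refine Finset.sum_congr rfl fun j _ => ?_
    have hk : 0 < kk K' j := by linarith [kk_ge ‹1 ≤ K'› j]
    have h7 : K' * ((j : ℝ) + 1) = kk K' j := rfl
    rw [h7]
    have h8 : s ^ 2 + (kk K' j * y0) ^ 2 ≠ 0 := by positivity
    have e3 : (s / y0) ^ 2 + (kk K' j) ^ 2 = (s ^ 2 + (kk K' j * y0) ^ 2) / y0 ^ 2 := by
      field_simp
    rw [e3]
    field_simp

/-- The representation. -/
lemma rep {f : ℝ → ℝ} (hf : Admissible f) {K' y0 η : ℝ} (h : 1 ≤ K') (hη : 0 < η) (hy0 : 0 < y0)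
    (hu : (η / y0) ^ 2 ≤ K' ^ 2 / 2) (n : ℕ) (b : ℕ → ℝ)
    (hbs : ∀ s : ℝ, 0 ≤ s → 0 < s + (η / y0) ^ 2 →
      1 / (s + (η / y0) ^ 2) = (∏ j ∈ Finset.range (n + 1),
        (((K' * ((j : ℝ) + 1)) ^ 2 - (η / y0) ^ 2) / (s + (K' * ((j : ℝ) + 1)) ^ 2))) /
          (s + (η / y0) ^ 2) +
        ∑ j ∈ Finset.range (n + 1), b j / (s + (K' * ((j : ℝ) + 1)) ^ 2)) (x a : ℝ) :
    poisson f x η - a - ∫ t, (f t - a) * ka K' y0 η n (x - t) =
      ∑ j ∈ Finset.range (n + 1), b j * (η / (kk K' j * y0)) *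
        (poisson f x (kk K' j * y0) - a) := by
  have hk0 : ∀ j, 0 < kk K' j * y0 := fun j => mul_pos (by linarith [kk_ge h j]) hy0
  have hI2 := ka_int hf h hη hu n x a
  have hp : Real.pi ≠ 0 := Real.pi_ne_zero
  have hint : Real.pi * (poisson f x η - a) =
      Real.pi * (∫ t, (f t - a) * ka K' y0 η n (x - t)) +
      ∑ j ∈ Finset.range (n + 1), b j * (η / (kk K' j * y0)) *
        (Real.pi * (poisson f x (kk K' j * y0) - a)) := by
    rw [← int2 hf a x hη, ← integral_const_mul]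
    have e1 : ∀ j, Real.pi * (poisson f x (kk K' j * y0) - a) =
        ∫ t : ℝ, (f t - a) * (kk K' j * y0 / ((x - t) ^ 2 + (kk K' j * y0) ^ 2)) :=
      fun j => (int2 hf a x (hk0 j)).symm
    simp only [e1]
    have e2 : ∑ j ∈ Finset.range (n + 1), b j * (η / (kk K' j * y0)) *
        (∫ t : ℝ, (f t - a) * (kk K' j * y0 / ((x - t) ^ 2 + (kk K' j * y0) ^ 2))) =
        ∫ t : ℝ, ∑ j ∈ Finset.range (n + 1), b j * (η / (kk K' j * y0)) *
          ((f t - a) * (kk K' j * y0 / ((x - t) ^ 2 + (kk K' j * y0) ^ 2))) := by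
      rw [integral_finsetSum _ fun j _ => (int1 hf a x (hk0 j)).const_mul _]
      refine Finset.sum_congr rfl fun j _ => ?_
      rw [integral_const_mul]
    rw [e2, ← integral_add (hI2.const_mul _)
      (integrable_finsetSum _ fun j _ => (int1 hf a x (hk0 j)).const_mul _)]
    apply integral_congr_ae
    refine Eventually.of_forall fun t => ?_
    simp only
    rw [ident h hη hy0 n b hbs (x - t), mul_add, Finset.mul_sum]
    congr 1
    · ring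
    · refine Finset.sum_congr rfl fun j _ => ?_
      ring
  apply mul_left_cancel₀ hp
  rw [mul_sub, hint, Finset.mul_sum, add_sub_cancel_left]
  refine Finset.sum_congr rfl fun j _ => ?_
  ring

/-- One term of the error. -/
lemma term {p q L a m C1 C2 k kN BN y0 η b : ℝ} (hC1 : 1 ≤ C1) (hC2 : 1 ≤ C2) (hm : 1 ≤ m)
    (hk : 1 ≤ k) (hkN : kN ≤ BN) (hBN : 1 ≤ BN) (hy0 : 0 < y0) (hη : 0 < η) (hb : |b| ≤ C2)
    (hp : |p - L| ≤ C1 * m * kN) (hq : q = p) :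
    |b * (η / (k * y0)) * (q - a)| ≤ C2 * (η / y0) * (C1 * BN * (m + |a - L|)) := by
  subst hq
  have h3 : |q - a| ≤ C1 * BN * (m + |a - L|) := by
    have h4 : |q - a| ≤ |q - L| + |a - L| := by
      rw [abs_sub_comm a]
      exact abs_sub_le _ _ _
    have h5 : C1 * m * kN ≤ C1 * BN * m := by
      calc C1 * m * kN ≤ C1 * m * BN := mul_le_mul_of_nonneg_left hkN (by positivity)
        _ = _ := by ring
    have h6 : |a - L| ≤ C1 * BN * |a - L| :=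
      le_mul_of_one_le_left (abs_nonneg _) (one_le_mul_of_one_le_of_one_le hC1 hBN)
    linarith
  have hk0 : 0 < k := by linarith
  have h7 : 0 ≤ η / (k * y0) := by positivity
  have h8 : η / (k * y0) ≤ η / y0 := by
    apply div_le_div_of_nonneg_left hη.le hy0
    exact le_mul_of_one_le_left hy0.le hk
  rw [abs_mul, abs_mul, abs_of_nonneg h7]
  exact mul_le_mul (mul_le_mul hb h8 h7 (by linarith)) h3 (abs_nonneg _) (by positivity)

lemma shadow {R K μ x z0 y0 k : ℝ} (hμ : 0 < μ) (hK : 1 ≤ K) (hy0 : 0 < y0)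
    (hk : 1 + 2 * R / μ + 2 * K ≤ k) (hx : |x - z0| ≤ R * y0) :
    |x - z0| ≤ μ / 2 * (k * y0 - y0) := by
  have e : μ / 2 * (1 + 2 * R / μ + 2 * K - 1) = R + μ * K := by
    field_simp; ring
  have h1 : 0 ≤ μ * K := by positivity
  have h2 : μ / 2 * (1 + 2 * R / μ + 2 * K - 1) ≤ μ / 2 * (k - 1) :=
    mul_le_mul_of_nonneg_left (by linarith) (by positivity)
  have h3 : R ≤ μ / 2 * (k - 1) := by linarith
  have h4 := mul_le_mul_of_nonneg_right h3 hy0.le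
  have h5 : μ / 2 * (k - 1) * y0 = μ / 2 * (k * y0 - y0) := by ring
  linarith

end Rep

open Pool.Agent.Work.MP_055a27_an.Cr3.Rep in
theorem stRep (hGr : StGr) (hKI : StKI) : StRep := by
  intro la μ U hH R K n hR hK
  obtain ⟨C1, N, hC1, hG⟩ := hGr la μ U hH
  obtain ⟨hla, hlm, ⟨-, -, hA⟩, -⟩ := hH
  have hμ : 0 < μ := hla.trans hlm
  have hRμ : 0 ≤ 2 * R / μ := by positivity
  obtain ⟨K', hK'⟩ : ∃ K' : ℝ, K' = 1 + 2 * R / μ + 2 * K := ⟨_, rfl⟩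
  have h1K : 1 ≤ K' := by linarith
  obtain ⟨C2, hC2, -, hKI2⟩ := hKI n K' h1K
  have hBN : 1 ≤ (kk K' n) ^ N := one_le_pow₀ (h1K.trans (kk_ge h1K n))
  have hD1 : (1 : ℝ) ≤ 2 ^ (n + 1) := one_le_pow₀ (by norm_num)
  have hD2 : (1 : ℝ) ≤ ((kk K' n) ^ 2) ^ (n + 1) := one_le_pow₀ (sq_ge h1K n)
  have hD3 : 0 ≤ ((n : ℝ) + 1) * C2 * (C1 * (kk K' n) ^ N) := by positivity
  refine ⟨4 * 2 ^ (n + 1) + ((kk K' n) ^ 2) ^ (n + 1) +
    ((n : ℝ) + 1) * C2 * (C1 * (kk K' n) ^ N), by linarith, ?_⟩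
  intro z0 y0 m η hRt hη hηK
  have hy0 : 0 < y0 := hRt.1
  have hm : 1 ≤ m := hRt.2.1
  have hηy : η / y0 ≤ K := by rw [div_le_iff₀ hy0]; exact hηK
  have hu : (η / y0) ^ 2 ≤ K' ^ 2 / 2 := by
    have h1 : (η / y0) ^ 2 ≤ K ^ 2 := pow_le_pow_left₀ (by positivity) hηy 2
    have h2 : (2 * K) ^ 2 ≤ K' ^ 2 := pow_le_pow_left₀ (by linarith) (by linarith) 2
    nlinarith [sq_nonneg K]
  obtain ⟨b, hb, hbs⟩ := hKI2 _ (sq_nonneg _) hu
  refine ⟨ka K' y0 η n, ka_cont h1K hη n, fun s => ⟨ka_low h1K hη hu n (by linarith) s,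
    ka_up h1K hη hu n (by linarith) s⟩, ?_⟩
  intro x a hx
  refine ⟨ka_int hA h1K hη hu n x a, ?_⟩
  rw [rep hA h1K hη hy0 hu n b hbs x a]
  have hterm : ∀ j ∈ Finset.range (n + 1), |b j * (η / (kk K' j * y0)) *
      (poisson (lg U) x (kk K' j * y0) - a)| ≤
        C2 * (η / y0) * (C1 * (kk K' n) ^ N * (m + |a - LL la U z0 y0|)) := by
    intro j hj
    have hkj : 1 ≤ kk K' j := h1K.trans (kk_ge h1K j)
    have hg := hG z0 y0 m x (kk K' j * y0) hRt (le_mul_of_one_le_left hy0.le hkj)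
      (shadow hμ hK hy0 (by rw [← hK']; exact kk_ge h1K j) hx)
    have e : kk K' j * y0 / y0 = kk K' j := by field_simp
    rw [e] at hg
    exact term hC1 hC2 hm hkj (pow_le_pow_left₀ (by linarith) (kk_le h1K hj) N) hBN hy0 hη
      (hb j) hg rfl
  refine (Finset.abs_sum_le_sum_abs _ _).trans ((Finset.sum_le_sum hterm).trans ?_)
  rw [Finset.sum_const, Finset.card_range, nsmul_eq_mul]
  have hnn : 0 ≤ η / y0 * (m + |a - LL la U z0 y0|) := by positivity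
  have e : ((n + 1 : ℕ) : ℝ) * (C2 * (η / y0) * (C1 * (kk K' n) ^ N * (m + |a - LL la U z0 y0|))) =
      (((n : ℝ) + 1) * C2 * (C1 * (kk K' n) ^ N)) * (η / y0 * (m + |a - LL la U z0 y0|)) := by
    push_cast
    ring
  rw [e, mul_assoc (4 * 2 ^ (n + 1) + ((kk K' n) ^ 2) ^ (n + 1) +
    ((n : ℝ) + 1) * C2 * (C1 * (kk K' n) ^ N))]
  exact mul_le_mul_of_nonneg_right (by linarith) hnn

end Pool.Agent.Work.MP_055a27_an.Cr3
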