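import Pool.Agent.Work.MP_055a27_an.Cr3.Stmts
import Pool.Agent.Work.MP_055a27_an.Bd.B04

/-!
# Item WT: the weak type estimate above a root
-/

set_option autoImplicit false

open MeasureTheory Set Filter Topology Complex Metric
open scoped ENNReal NNReal

namespace Pool.Agent.Work.MP_055a27_an.Cr3

open Crit (lg cc CC Pk hU)
open Nv (mx)

namespace WT

theorem aem_lg {U : ℝ → ℝ} (h : Admissible (lg U)) : AEMeasurable (lg U) volume := by
  have h0 : Integrable (fun t : ℝ => lg U t / (1 + t ^ 2)) volume := h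
  have h1 : AEMeasurable (fun t : ℝ => lg U t / (1 + t ^ 2)) volume :=
    h0.aestronglyMeasurable.aemeasurable
  have h2 : AEMeasurable (fun t : ℝ => (lg U t / (1 + t ^ 2)) * (1 + t ^ 2)) volume :=
    h1.mul (by fun_prop)
  refine h2.congr (Eventually.of_forall fun t => ?_)
  have : (1 + t ^ 2 : ℝ) ≠ 0 := by positivity
  show lg U t / (1 + t ^ 2) * (1 + t ^ 2) = lg U t
  rw [div_mul_cancel₀ _ this]

/-- The weight. -/
noncomputable def w (z0 y0 : ℝ) (n : ℕ) (t : ℝ) : ℝ := (1 / (1 + ((t - z0) / y0) ^ 2)) ^ (n + 1)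

theorem w_nonneg (z0 y0 : ℝ) (n : ℕ) (t : ℝ) : 0 ≤ w z0 y0 n t := by
  unfold w; positivity

theorem w_compare {z0 y0 z t R' : ℝ} (hy : 0 < y0) (hz : |z - z0| ≤ R' * y0) (n : ℕ) :
    (1 / (1 + ((z - t) / y0) ^ 2)) ^ (n + 1) ≤ (2 + 2 * R' ^ 2) ^ (n + 1) * w z0 y0 n t := by
  unfold w
  rw [← mul_pow]
  apply pow_le_pow_left₀ (by positivity)
  rw [mul_one_div, div_le_div_iff₀ (by positivity) (by positivity), one_mul]
  set a := (z - t) / y0 with ha
  set b := (t - z0) / y0 with hb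
  have hc : |a + b| ≤ R' := by
    have e : a + b = (z - z0) / y0 := by rw [ha, hb, ← add_div]; congr 1; ring
    rw [e, abs_div, abs_of_pos hy, div_le_iff₀ hy]
    exact hz
  have hc2 : (a + b) ^ 2 ≤ R' ^ 2 := by
    rw [← sq_abs (a + b)]
    exact pow_le_pow_left₀ (abs_nonneg _) hc 2
  have h1 : 0 ≤ R' ^ 2 * a ^ 2 := by positivity
  nlinarith [sq_nonneg (2 * a + b)]

theorem w_eq {z0 y0 : ℝ} (hy : 0 < y0) (n : ℕ) (t : ℝ) :
    w z0 y0 n t = y0 * (y0 ^ (2 * n + 1) / ((t - z0) ^ 2 + y0 ^ 2) ^ (n + 1)) := by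
  unfold w
  have h1 : (t - z0) ^ 2 + y0 ^ 2 = y0 ^ 2 * (1 + ((t - z0) / y0) ^ 2) := by
    field_simp
    ring
  rw [h1, mul_pow, ← pow_mul, one_div, inv_pow]
  have h2 : (1 + ((t - z0) / y0) ^ 2) ^ (n + 1) ≠ 0 := by positivity
  have h3 : y0 ^ (2 * (n + 1)) = y0 ^ (2 * n + 1) * y0 := by
    rw [← pow_succ]; ring_nf
  rw [h3]
  field_simp

/-- The function whose maximal function is used. -/
noncomputable def k (U : ℝ → ℝ) (L z0 y0 : ℝ) (n : ℕ) (t : ℝ) : ℝ≥0∞ :=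
  ENNReal.ofReal (|lg U t - L| * w z0 y0 n t)

theorem aem_k {U : ℝ → ℝ} (h : Admissible (lg U)) (L z0 y0 : ℝ) (n : ℕ) :
    AEMeasurable (k U L z0 y0 n) volume := by
  unfold k
  apply AEMeasurable.ennreal_ofReal
  apply AEMeasurable.mul
  · exact ((aem_lg h).sub aemeasurable_const).abs
  · apply Measurable.aemeasurable
    unfold w
    fun_prop

theorem int_k {U : ℝ → ℝ} {L z0 y0 m C : ℝ} {n : ℕ} (hy : 0 < y0)
    (h : ∫⁻ t, ENNReal.ofReal (|lg U t - L| *
      (y0 ^ (2 * n + 1) / ((t - z0) ^ 2 + y0 ^ 2) ^ (n + 1))) ≤ ENNReal.ofReal (C * m)) :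
    ∫⁻ t, k U L z0 y0 n t ≤ ENNReal.ofReal (y0 * (C * m)) := by
  have e : ∀ t, k U L z0 y0 n t = ENNReal.ofReal y0 * ENNReal.ofReal (|lg U t - L| *
      (y0 ^ (2 * n + 1) / ((t - z0) ^ 2 + y0 ^ 2) ^ (n + 1))) := by
    intro t
    unfold k
    rw [w_eq hy, ← ENNReal.ofReal_mul hy.le]
    congr 1
    ring
  rw [lintegral_congr e, lintegral_const_mul' _ _ ENNReal.ofReal_ne_top,
    ENNReal.ofReal_mul hy.le]
  exact mul_le_mul_right h _

/-- The bound by the Poisson average of `k`. -/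
theorem bound {U : ℝ → ℝ} {L z0 y0 z η R' C D : ℝ} {n : ℕ} {κ : ℝ → ℝ} (hy : 0 < y0)
    (hη : 0 < η) (hC : 1 ≤ C) (hz : |z - z0| ≤ R' * y0)
    (hκ : ∀ s : ℝ, η / (s ^ 2 + η ^ 2) * (1 / (1 + (s / y0) ^ 2)) ^ (n + 1) ≤ C * κ s ∧
        κ s ≤ C * (η / (s ^ 2 + η ^ 2) * (1 / (1 + (s / y0) ^ 2)) ^ (n + 1)))
    (hD : |poisson (lg U) z η - L - ∫ t, (lg U t - L) * κ (z - t)| ≤ D) (hD0 : 0 ≤ D) :
    ENNReal.ofReal |poisson (lg U) z η - L| ≤ ENNReal.ofReal D +
      ENNReal.ofReal (C * (2 + 2 * R' ^ 2) ^ (n + 1) * Real.pi) *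
        ∫⁻ t, ENNReal.ofReal (Nv.pk z η t) * k U L z0 y0 n t := by
  have hκ0 : ∀ s, 0 ≤ κ s := by
    intro s
    have h1 : 0 ≤ C * κ s := le_trans (by positivity) (hκ s).1
    by_contra hc
    push Not at hc
    have : C * κ s < 0 := mul_neg_of_pos_of_neg (by linarith) hc
    linarith
  have h1 : |poisson (lg U) z η - L| ≤ D + |∫ t, (lg U t - L) * κ (z - t)| := by
    have := abs_add_le (poisson (lg U) z η - L - ∫ t, (lg U t - L) * κ (z - t))
      (∫ t, (lg U t - L) * κ (z - t))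
    rw [sub_add_cancel] at this
    linarith
  refine (ENNReal.ofReal_le_ofReal h1).trans ?_
  rw [ENNReal.ofReal_add hD0 (abs_nonneg _)]
  refine add_le_add le_rfl ?_
  rw [← Real.enorm_eq_ofReal_abs]
  refine (enorm_integral_le_lintegral_enorm _).trans ?_
  rw [← lintegral_const_mul' _ _ ENNReal.ofReal_ne_top]
  refine lintegral_mono fun t => ?_
  have hp := Real.pi_pos
  have hpk : 0 ≤ Nv.pk z η t := by unfold Nv.pk; positivity
  have hCC : 0 ≤ C * (2 + 2 * R' ^ 2) ^ (n + 1) * Real.pi := by positivity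
  unfold k
  rw [Real.enorm_eq_ofReal_abs, ← ENNReal.ofReal_mul hpk, ← ENNReal.ofReal_mul hCC]
  apply ENNReal.ofReal_le_ofReal
  rw [abs_mul, abs_of_nonneg (hκ0 _)]
  have h2 := (hκ (z - t)).2
  have h3 := w_compare (t := t) hy hz n
  have hq : 0 ≤ η / ((z - t) ^ 2 + η ^ 2) := by positivity
  have h4 : κ (z - t) ≤ C * (η / ((z - t) ^ 2 + η ^ 2) *
      ((2 + 2 * R' ^ 2) ^ (n + 1) * w z0 y0 n t)) :=
    h2.trans (mul_le_mul_of_nonneg_left (mul_le_mul_of_nonneg_left h3 hq) (by linarith))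
  have h5 := mul_le_mul_of_nonneg_left h4 (abs_nonneg (lg U t - L))
  refine h5.trans (le_of_eq ?_)
  unfold Nv.pk
  have h6 : (z - t) ^ 2 + η ^ 2 ≠ 0 := by positivity
  field_simp

end WT

open WT in
theorem stWT (hLS : StLS) (hRep : StRep) : StWT := by
  intro la μ U H R K β hR hK hβ
  obtain ⟨n, hn⟩ := hLS la μ U H
  obtain ⟨C1, hC1, h1⟩ := hn n le_rfl
  set R' : ℝ := R + β * K with hR'
  obtain ⟨C2, hC2, h2⟩ := hRep la μ U H R' K n (by positivity) hK
  obtain ⟨C3, h3⟩ := Nv.I_Pk β hβ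
  have hadm : Admissible (lg U) := H.2.2.1.2.2
  have hp := Real.pi_pos
  -- the constant in front of the maximal function
  set B : ℝ := C2 * (2 + 2 * R' ^ 2) ^ (n + 1) * Real.pi * C3 + 1 with hB
  have hB1 : 0 < B := by positivity
  have hCK : 0 < C2 * K := mul_pos (by linarith) (by linarith)
  have hBC : 0 < B * C1 := mul_pos hB1 (by linarith)
  refine ⟨2 * (C2 * K) + 10 * B * C1 + 1, by nlinarith, ?_⟩
  intro z0 y0 m A hRt hA
  obtain ⟨hy0, hm, hgg⟩ := id hRt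
  set L := LL la U z0 y0 with hL
  have hA1 : 2 * (C2 * K * m) ≤ A := by nlinarith
  have hA0 : 0 < A := by nlinarith
  have hsub : {x : ℝ | |x - z0| ≤ R * y0 ∧ ∃ z η : ℝ, 0 < η ∧ η ≤ K * y0 ∧ |x - z| < β * η ∧
      A < |poisson (lg U) z η - L|} ⊆ {x | ENNReal.ofReal (A / (2 * B)) < mx (k U L z0 y0 n) x} := by
    rintro x ⟨hx, z, η, hη, hηK, hxz, hlt⟩
    have hzz : |z - z0| ≤ R' * y0 := by
      have e : z - z0 = -(x - z) + (x - z0) := by ring
      rw [e]
      refine (abs_add_le _ _).trans ?_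
      rw [abs_neg]
      have : β * η ≤ β * (K * y0) := mul_le_mul_of_nonneg_left hηK hβ.le
      rw [hR']
      nlinarith
    obtain ⟨κ, -, hκ, hrep⟩ := h2 z0 y0 m η hRt hη hηK
    obtain ⟨-, hrep2⟩ := hrep z L hzz
    rw [← hL, sub_self, abs_zero, add_zero] at hrep2
    have hD : C2 * (η / y0) * m ≤ C2 * K * m := by
      have : η / y0 ≤ K := by rwa [div_le_iff₀ hy0]
      have h0 : C2 * (η / y0) ≤ C2 * K := mul_le_mul_of_nonneg_left this (by linarith)
      exact mul_le_mul_of_nonneg_right h0 (by linarith)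
    have hb := bound hy0 hη hC2 hzz hκ (hrep2.trans hD) (by positivity)
    have hmx := h3 (k U L z0 y0 n) (aem_k hadm L z0 y0 n) x z η hη
      (by rw [abs_sub_comm]; exact hxz.le)
    have hfin : ENNReal.ofReal A < ENNReal.ofReal (C2 * K * m) +
        ENNReal.ofReal B * mx (k U L z0 y0 n) x := by
      refine lt_of_lt_of_le ((ENNReal.ofReal_lt_ofReal_iff (hA0.trans hlt)).2 hlt)
        (hb.trans (add_le_add le_rfl ?_))
      refine (mul_le_mul_right hmx _).trans ?_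
      rw [← mul_assoc]
      refine mul_le_mul_left ?_ _
      have e : (C3 : ℝ≥0∞) = ENNReal.ofReal (C3 : ℝ) := (ENNReal.ofReal_coe_nnreal).symm
      rw [e, ← ENNReal.ofReal_mul (by positivity)]
      apply ENNReal.ofReal_le_ofReal
      rw [hB]
      linarith
    show ENNReal.ofReal (A / (2 * B)) < mx (k U L z0 y0 n) x
    by_contra hc
    push Not at hc
    have h5 : ENNReal.ofReal B * mx (k U L z0 y0 n) x ≤ ENNReal.ofReal (A / 2) := by
      refine (mul_le_mul_right hc _).trans (le_of_eq ?_)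
      rw [← ENNReal.ofReal_mul hB1.le]
      congr 1
      field_simp
    have h6 : ENNReal.ofReal A < ENNReal.ofReal A := by
      refine lt_of_lt_of_le hfin ((add_le_add le_rfl h5).trans ?_)
      rw [← ENNReal.ofReal_add (by positivity) (by positivity)]
      apply ENNReal.ofReal_le_ofReal
      linarith
    exact lt_irrefl _ h6
  have hs0 : ENNReal.ofReal (A / (2 * B)) ≠ 0 := by
    rw [Ne, ENNReal.ofReal_eq_zero, not_le]; positivity
  refine (measure_mono hsub).trans ((Nv.HL.weak _ _ hs0 ENNReal.ofReal_ne_top).trans ?_)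
  have hk := int_k (U := U) (L := L) (z0 := z0) (n := n) hy0 (h1 z0 y0 m hRt)
  refine (mul_le_mul_right hk _).trans ?_
  have e5 : (5 : ℝ≥0∞) = ENNReal.ofReal 5 := by norm_num
  rw [e5, ← ENNReal.ofReal_div_of_pos (by positivity), ← ENNReal.ofReal_mul (by positivity)]
  apply ENNReal.ofReal_le_ofReal
  have e6 : 5 / (A / (2 * B)) * (y0 * (C1 * m)) = 10 * B * C1 * m * y0 / A := by
    field_simp
    ring
  rw [e6]
  apply div_le_div_of_nonneg_right _ hA0.le
  apply mul_le_mul_of_nonneg_right _ hy0.le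
  apply mul_le_mul_of_nonneg_right _ (by linarith)
  linarith

end Pool.Agent.Work.MP_055a27_an.Cr3
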