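import Pool.Agent.Work.MP_055a27_an.Bd.B06
import Pool.Agent.Work.MP_055a27_an.Bd.B09
import Pool.Agent.Work.MP_055a27_an.Cr3.Har
import Pool.Agent.Work.MP_055a27_an.Bd.B08
import Pool.Agent.Work.MP_055a27_an.Cr3.Rep
import Pool.Agent.Work.MP_055a27_an.Cr3.WT
import Pool.Agent.Work.MP_055a27_an.Bd.B10
import Pool.Agent.Work.MP_055a27_an.Bd.B07
import Pool.Agent.Work.MP_055a27_an.Cr3.HPm
import Pool.Agent.Work.MP_055a27_an.Cr3.CE
import Pool.Agent.Work.MP_055a27_an.Cr3.CCl
import Pool.Agent.Work.MP_055a27_an.Cr3.CCh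
import Pool.Agent.Work.MP_055a27_an.Bd.B11
import Pool.Agent.Work.MP_055a27_an.Cr3.High2
import Pool.Agent.Work.MP_055a27_an.Bd.B04
import Pool.Agent.Work.MP_055a27_an.Crit.AperG
import Pool.Agent.Work.MP_055a27_an.Crit.TFUp

/-!
# Assembly of the module Cr3
-/

set_option autoImplicit false

open MeasureTheory Set Filter Topology Complex Metric
open scoped ENNReal NNReal

namespace Pool.Agent.Work.MP_055a27_an.Cr3

theorem fGr : StGr := stGr stBas stHar
theorem fGd : StGd := stGd stBas stHar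
theorem fRep : StRep := stRep fGr stKI
theorem fLS : StLS := stLS stBas stJen fGr stKI
theorem fWT : StWT := stWT fLS fRep
theorem fVpp : StVpp := stVpp stBas stJen fGr fRep
theorem fSaw1 : StSaw1 := stSaw1 stBas stSawT fVpp stCS stSun
theorem fStop : StStop := stStop Crit.stComps
theorem fHPm : StHPm := stHPm stBas fWT fSaw1 fStop
theorem fHP : StHP := stHP stBas fHPm
theorem fCE : StCE := stCE Crit.stComps
theorem fRH : StRH := stRH (stCZ stBas stJen fLS stCZa (stCZb stBas stJen fGr fRep))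
theorem fInt : StInt := stInt fRH
theorem fAinf : StAinf := stAinf stBas fGr fRH
theorem fCC3 : StCC3 := stCC3 (stCCl stBas fGr fWT fStop) (stCCh stBas fGd fHP)
theorem fLowP : StLowP := stLowP stBas fAinf stGL stAbs

theorem fSm : Crit.StSm := Crit.stSm (Crit.stSm2 (Crit.stSm1 Thr.stPL))
theorem fKEG : Crit.StKEG := Crit.stKEG fSm Thr.stGrow Thr.stBd
theorem fCar : Crit.StCar := Crit.stCar Thr.stHL Thr.stPois Crit.stComps Crit.stPCont
theorem fAperG : Crit.StAperG := Crit.stAperG fKEG fCar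

theorem fHG : StHG := stHG fGd fKEG
theorem fHighP : StHighP := stHighP fHG (stH2 stBas fHP fCE fCar fCC3) (stH3 stBas fHP fCE fInt)
theorem fSuff3 : StSuff3 := stSuff3 fLowP fHighP fCC3 fAperG

theorem fTFUp : Crit.StTFUp := Crit.stTFUp Crit.stTF Crit.stPCont
theorem fN : Crit.StN := Crit.stN Crit.stNS Crit.stNM
theorem fImp : Crit.StImp := Crit.stImp Crit.stTL fN Crit.stNM
theorem fNecB : Crit.StNecB := Crit.stNecB Crit.stTF Crit.stTV Crit.stNM
theorem fNec2 : Crit.StNec2 :=
  Crit.stNec2 Crit.stTF fTFUp fImp Crit.stVn Crit.stTV Crit.stNM fNecB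

theorem fSMeas : StSMeas := stSMeas stBas
theorem fLow2 : StLow2 := stLow2 fSMeas (stAinf2 fAinf) stGL stAbs
theorem fProp : StProp := stProp stCirc
theorem fHigh2 : StHigh2 :=
  stHigh2 stBas fSMeas fHG fProp (stSup stBas fGd) (stH3r stBas fHP fCE fInt)
theorem fSuffB : StSuffB := stSuffB fLow2 fHigh2

end Pool.Agent.Work.MP_055a27_an.Cr3
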